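import Mathlib
import Pool.Agent.H432.RC.Ext

/-!
Bounds which are trivial at almost all places.
-/

set_option autoImplicit false
set_option linter.unusedSectionVars false

namespace Pool.Agent.H432.TC

open NumberField IsDedekindDomain Height Module Pool.Agent.N750 Pool.Agent.H432.RC
open Pool.Agent.W180.OP (Pl av wt nrm le_nrm nrm_pos wt_nonneg exists_nrm nrm_nonneg)

variable {K : Type} [Field K] [NumberField K]

/-- bounds which are 1 at almost all places -/
def Bd (g : Pl K → ℝ) : Prop := (∀ p, 1 ≤ g p) ∧ {p | g p ≠ 1}.Finite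

theorem Bd.mul {g h : Pl K → ℝ} (hg : Bd g) (hh : Bd h) : Bd (fun p => g p * h p) := by
  refine ⟨fun p => one_le_mul_of_one_le_of_one_le (hg.1 p) (hh.1 p),
    (hg.2.union hh.2).subset ?_⟩
  intro p hp
  by_contra hcon
  simp only [Set.mem_union, Set.mem_ofPred_eq, not_or, not_not] at hcon hp
  exact hp (by rw [hcon.1, hcon.2, mul_one])

theorem Bd_one : Bd (fun _ : Pl K => (1 : ℝ)) :=
  ⟨fun _ => le_rfl, by
    refine Set.finite_empty.subset ?_
    intro p hp
    exact hp rfl⟩

theorem Bd_cst {B : ℝ} (hB : 1 ≤ B) : Bd (cst B : Pl K → ℝ) := by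
  refine ⟨one_le_cst hB, (Set.finite_range (fun w : InfinitePlace K => (Sum.inl w : Pl K))).subset ?_⟩
  rintro (w | v) hp
  · exact ⟨w, rfl⟩
  · exact absurd rfl hp

theorem Bd_nrm {n : ℕ} (x : Fin n → K) (i0 : Fin n) (h : x i0 = 1) :
    Bd (fun p : Pl K => nrm (av p) x) := by
  have hx : x ≠ 0 := fun h0 => one_ne_zero (h.symm.trans (congrFun h0 i0))
  refine ⟨fun p => nrm_ge_one p x i0 h, ?_⟩
  refine ((Set.finite_range (fun w : InfinitePlace K => (Sum.inl w : Pl K))).union
    ((Pool.Agent.R405.nrm_finite x hx).image fun v => (Sum.inr v : Pl K))).subset ?_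
  rintro (w | v) hp
  · exact Or.inl ⟨w, rfl⟩
  · exact Or.inr ⟨v, hp, rfl⟩

theorem Bd.prod {ι : Type} (s : Finset ι) (g : ι → Pl K → ℝ) (h : ∀ i ∈ s, Bd (g i)) :
    Bd (fun p => ∏ i ∈ s, g i p) := by
  classical
  induction s using Finset.induction_on with
  | empty => simpa using Bd_one
  | insert i s hi ih =>
    simp only [Finset.prod_insert hi]
    exact (h i (Finset.mem_insert_self _ _)).mul
      (ih fun j hj => h j (Finset.mem_insert_of_mem hj))

theorem le_prod_bd {ι : Type} (s : Finset ι) (g : ι → ℝ) (h : ∀ i ∈ s, 1 ≤ g i) {i : ι}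
    (hi : i ∈ s) : g i ≤ ∏ j ∈ s, g j := by
  classical
  rw [← Finset.mul_prod_erase s g hi]
  have h1 : 1 ≤ ∏ j ∈ s.erase i, g j := by
    have h2 : ∀ t : Finset ι, t ⊆ s → 1 ≤ ∏ j ∈ t, g j := by
      intro t ht
      induction t using Finset.induction_on with
      | empty => simp
      | insert j t hj ih =>
        rw [Finset.prod_insert hj]
        exact one_le_mul_of_one_le_of_one_le (h j (ht (Finset.mem_insert_self _ _)))
          (ih fun l hl => ht (Finset.mem_insert_of_mem hl))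
    exact h2 _ (Finset.erase_subset _ _)
  have h3 := h i hi
  nlinarith

/-- the constant of a bound -/
noncomputable def bdc (g : Pl K → ℝ) : ℝ :=
  ∑ w : InfinitePlace K, (w.mult : ℝ) * Real.log (g (Sum.inl w)) +
    ∑ᶠ v : HeightOneSpectrum (𝓞 K), Real.log (g (Sum.inr v))

/-- a general comparison of heights -/
theorem ht_bd {ι : Type} (s : Finset ι) (n : ι → ℕ)
    (y : ∀ i, Fin (n i) → K) (c : ι → ℝ) (hy : ∀ i ∈ s, y i ≠ 0) (g : Pl K → ℝ) (hg : Bd g)
    (h : ∀ p : Pl K, 0 ≤ ∑ i ∈ s, c i * Real.log (nrm (av p) (y i)) + Real.log (g p)) :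
    0 ≤ ∑ i ∈ s, c i * logHeight (y i) + bdc g := by
  classical
  have hfg : {v : HeightOneSpectrum (𝓞 K) | g (Sum.inr v) ≠ 1}.Finite :=
    hg.2.preimage Sum.inr_injective.injOn
  have hfin : ((⋃ i ∈ s, {v : HeightOneSpectrum (𝓞 K) |
      nrm (Pool.Agent.W180.OP.fv v) (y i) ≠ 1}) ∪ {v | g (Sum.inr v) ≠ 1}).Finite :=
    (s.finite_toSet.biUnion fun i hi => Pool.Agent.R405.nrm_finite (y i) (hy i hi)).union hfg
  set T := hfin.toFinset with hT
  have h1 : ∀ i ∈ s, logHeight (y i) = ∑ w : InfinitePlace K, (w.mult : ℝ) *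
      Real.log (nrm w.1 (y i)) + ∑ v ∈ T, Real.log (nrm (Pool.Agent.W180.OP.fv v) (y i)) := by
    intro i hi
    refine Pool.Agent.R405.logHeight_sum (y i) (hy i hi) T fun v hv => ?_
    by_contra hne
    apply hv
    rw [hT, Set.Finite.mem_toFinset]
    exact Or.inl (Set.mem_biUnion (Finset.mem_coe.2 hi) hne)
  have h2 : ∑ i ∈ s, c i * logHeight (y i) = ∑ w : InfinitePlace K, (w.mult : ℝ) *
      ∑ i ∈ s, c i * Real.log (nrm w.1 (y i)) +
      ∑ v ∈ T, ∑ i ∈ s, c i * Real.log (nrm (Pool.Agent.W180.OP.fv v) (y i)) := by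
    rw [Finset.sum_congr rfl fun i hi => by rw [h1 i hi]]
    simp_rw [mul_add, Finset.sum_add_distrib, Finset.mul_sum]
    congr 1
    · rw [Finset.sum_comm]
      exact Finset.sum_congr rfl fun w _ => Finset.sum_congr rfl fun i _ => by ring
    · rw [Finset.sum_comm]
  have h3 : ∑ᶠ v : HeightOneSpectrum (𝓞 K), Real.log (g (Sum.inr v)) =
      ∑ v ∈ T, Real.log (g (Sum.inr v)) := by
    refine finsum_eq_sum_of_support_subset _ fun v hv => ?_
    rw [Finset.mem_coe, hT, Set.Finite.mem_toFinset]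
    refine Or.inr fun h0 => hv ?_
    show Real.log (g (Sum.inr v)) = 0
    rw [h0, Real.log_one]
  unfold bdc
  rw [h2, h3]
  have h4 : 0 ≤ ∑ w : InfinitePlace K, ((w.mult : ℝ) *
      ∑ i ∈ s, c i * Real.log (nrm w.1 (y i)) + (w.mult : ℝ) * Real.log (g (Sum.inl w))) := by
    refine Finset.sum_nonneg fun w _ => ?_
    rw [← mul_add]
    exact mul_nonneg (Nat.cast_nonneg _) (h (Sum.inl w))
  have h5 : 0 ≤ ∑ v ∈ T, (∑ i ∈ s, c i * Real.log (nrm (Pool.Agent.W180.OP.fv v) (y i)) +
      Real.log (g (Sum.inr v))) := Finset.sum_nonneg fun v _ => h (Sum.inr v)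
  rw [Finset.sum_add_distrib] at h4 h5
  linarith

section poly

variable {n w : ℕ}

/-- the upper bound for the values of a polynomial -/
theorem ev_up1 (P : Polynomial K) (D : ℕ) (hD : P.natDegree ≤ D) : ∃ g : Pl K → ℝ, Bd g ∧
    ∀ (T : K) (p : Pl K), av p (P.eval T) ≤ g p * nrm (av p) ![1, T] ^ D := by
  set z : Fin (D + 2) → K := Fin.cons 1 (fun m : Fin (D + 1) => P.coeff m) with hz
  have hz0 : z 0 = 1 := rfl
  refine ⟨fun p => cst ((D : ℝ) + 1) p * nrm (av p) z, (Bd_cst (by
    have : (0 : ℝ) ≤ D := Nat.cast_nonneg _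
    linarith)).mul (Bd_nrm z 0 hz0), fun T p => ?_⟩
  have h1 := nrm2_pos p T
  rw [Polynomial.eval_eq_sum_range' (Nat.lt_succ_of_le hD)]
  have h2 : ∀ m ∈ Finset.range (D + 1), av p (P.coeff m * T ^ m) ≤
      nrm (av p) z * nrm (av p) ![1, T] ^ D := by
    intro m hm
    rw [map_mul, map_pow]
    have e1 := le_nrm (av p) z (Fin.succ ⟨m, Finset.mem_range.1 hm⟩)
    have e2 : av p T ^ m ≤ nrm (av p) ![1, T] ^ D :=
      calc av p T ^ m ≤ nrm (av p) ![1, T] ^ m :=
            pow_le_pow_left₀ ((av p).nonneg _) (nrm2_ge p T) m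
        _ ≤ nrm (av p) ![1, T] ^ D := pow_le_pow_right₀ h1 (by
            have := Finset.mem_range.1 hm
            omega)
    exact mul_le_mul e1 e2 (by positivity) (nrm_nonneg _ _)
  have h3 := av_sum p (Finset.range (D + 1)) (fun m => P.coeff m * T ^ m) _
    (mul_nonneg (nrm_nonneg _ _) (by positivity)) h2 ((D : ℝ) + 1) (by
      rw [Finset.card_range]
      push_cast
      exact le_rfl)
  rw [mul_assoc]
  exact h3

/-- the upper bound for families -/
theorem ev_up {ι : Type} [Fintype ι] (P : ι → Polynomial K) (D : ℕ)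
    (hD : ∀ j, (P j).natDegree ≤ D) : ∃ g : Pl K → ℝ, Bd g ∧
    ∀ (T : K) (p : Pl K) (j : ι), av p ((P j).eval T) ≤ g p * nrm (av p) ![1, T] ^ D := by
  choose g hg h using fun j => ev_up1 (P j) D (hD j)
  refine ⟨fun p => ∏ j, g j p, Bd.prod _ _ fun j _ => hg j, fun T p j => ?_⟩
  refine (h j T p).trans (mul_le_mul_of_nonneg_right ?_ (pow_nonneg (nrm_nonneg _ _) _))
  exact le_prod_bd Finset.univ (fun j => g j p) (fun j _ => (hg j).1 p) (Finset.mem_univ j)

theorem ev_up_vec (P : Fin n → Polynomial K) (D : ℕ)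
    (hD : ∀ j, (P j).natDegree ≤ D) : ∃ g : Pl K → ℝ, Bd g ∧
    ∀ (T : K) (p : Pl K), nrm (av p) (fun j => (P j).eval T) ≤ g p * nrm (av p) ![1, T] ^ D := by
  obtain ⟨g, hg, h⟩ := ev_up P D hD
  refine ⟨g, hg, fun T p => nrm_vec_le p _ ?_ fun j => h T p j⟩
  have := hg.1 p
  have := nrm2_pos p T
  positivity

theorem ev_ne_field {K : Type} [Field K] {w : ℕ} (P : Fin w → Polynomial K)
    (htop : Ideal.span (Set.range P) = ⊤) (T : K) : (fun j => (P j).eval T) ≠ 0 := by
  obtain ⟨a, ha⟩ := exists_bezout P htop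
  intro h0
  have h1 := congrArg (Polynomial.eval T) ha
  rw [Polynomial.eval_finsetSum, Polynomial.eval_one] at h1
  have h2 : ∑ j, ((a j) * (P j)).eval T = 0 := by
    refine Finset.sum_eq_zero fun j _ => ?_
    rw [Polynomial.eval_mul, show (P j).eval T = 0 from congrFun h0 j, mul_zero]
  rw [h2] at h1
  exact zero_ne_one h1

/-- **the lower bound** for families without common zeros on the projective line -/
theorem ev_low (P : Fin w → Polynomial K) (D : ℕ) (hD : ∀ j, (P j).natDegree ≤ D)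
    (htop : Ideal.span (Set.range P) = ⊤) (hlead : ∃ j, (P j).coeff D ≠ 0) :
    ∃ g : Pl K → ℝ, Bd g ∧ ∀ (T : K) (p : Pl K),
      nrm (av p) ![1, T] ^ D ≤ g p * nrm (av p) (fun j => (P j).eval T) := by
  obtain ⟨N, a, b, hDN, ha, hb, ha1, hb1⟩ := bez P D hD htop hlead
  obtain ⟨ga, hga, hgaf⟩ := ev_up a (N - D) ha
  obtain ⟨gb, hgb, hgbf⟩ := ev_up b (N - D) hb
  have hw : (1 : ℝ) ≤ max 1 (w : ℝ) := le_max_left _ _
  refine ⟨fun p => cst (max 1 (w : ℝ)) p * (ga p * gb p),
    (Bd_cst hw).mul (hga.mul hgb), fun T p => ?_⟩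
  have h1 := nrm2_pos p T
  have hP := nrm_pos (av p) (ev_ne_field P htop T)
  have g1 := hga.1 p
  have g2 := hgb.1 p
  have g3 := cst_pos (by linarith : (0 : ℝ) < max 1 (w : ℝ)) p
  set R := nrm (av p) ![1, T] with hR
  set Y := nrm (av p) (fun j => (P j).eval T) with hY
  have hcomb : ∀ (c : Fin w → Polynomial K) (g : ℝ), (∀ j, av p ((c j).eval T) ≤
      g * R ^ (N - D)) → 0 ≤ g → av p (∑ j, (c j).eval T * (P j).eval T) ≤
      cst (max 1 (w : ℝ)) p * (g * R ^ (N - D) * Y) := by
    intro c g hcg hg0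
    refine av_sum p Finset.univ _ _ (by positivity) (fun j _ => ?_) _ (by
      rw [Finset.card_univ, Fintype.card_fin]
      exact le_max_right _ _)
    rw [map_mul]
    exact mul_le_mul (hcg j) (le_nrm (av p) (fun j => (P j).eval T) j) ((av p).nonneg _)
      (by positivity)
  have h2 := hcomb a (ga p) (fun j => hgaf T p j) (by positivity)
  have h3 := hcomb b (gb p) (fun j => hgbf T p j) (by positivity)
  have f1 : ∑ j, (a j).eval T * (P j).eval T = 1 := by
    have := congrArg (Polynomial.eval T) ha1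
    rw [Polynomial.eval_finsetSum, Polynomial.eval_one] at this
    rw [← this]
    exact Finset.sum_congr rfl fun j _ => (Polynomial.eval_mul).symm
  have f2 : ∑ j, (b j).eval T * (P j).eval T = T ^ N := by
    have := congrArg (Polynomial.eval T) hb1
    rw [Polynomial.eval_finsetSum, Polynomial.eval_pow, Polynomial.eval_X] at this
    rw [← this]
    exact Finset.sum_congr rfl fun j _ => (Polynomial.eval_mul).symm
  rw [f1, map_one] at h2
  rw [f2, map_pow] at h3
  have hgab : ga p ≤ ga p * gb p := by nlinarith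
  have hgab' : gb p ≤ ga p * gb p := by nlinarith
  have hX : (0 : ℝ) ≤ R ^ (N - D) * Y := by positivity
  have h4 : (1 : ℝ) ≤ cst (max 1 (w : ℝ)) p * (ga p * gb p * R ^ (N - D) * Y) := by
    refine h2.trans (mul_le_mul_of_nonneg_left ?_ g3.le)
    have := mul_le_mul_of_nonneg_right hgab hX
    linarith
  have h5 : av p T ^ N ≤ cst (max 1 (w : ℝ)) p * (ga p * gb p * R ^ (N - D) * Y) := by
    refine h3.trans (mul_le_mul_of_nonneg_left ?_ g3.le)
    have := mul_le_mul_of_nonneg_right hgab' hX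
    linarith
  have h6 : R ^ N ≤ cst (max 1 (w : ℝ)) p * (ga p * gb p * R ^ (N - D) * Y) := by
    obtain ⟨i, hi⟩ := exists_nrm (av p) (n := 2) (by norm_num) ![1, T]
    have hRi : R = av p (![1, T] i) := hi.symm
    match i, hRi with
    | 0, hRi =>
      have hR1 : R = 1 := by
        rw [hRi]
        exact map_one _
      calc R ^ N = 1 := by rw [hR1, one_pow]
        _ ≤ _ := h4
    | 1, hRi =>
      have hR1 : R = av p T := hRi
      calc R ^ N = av p T ^ N := by rw [hR1]
        _ ≤ _ := h5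
  have h7 : R ^ N = R ^ D * R ^ (N - D) := by
    rw [← pow_add]
    congr 1
    omega
  rw [h7] at h6
  have h8 : 0 < R ^ (N - D) := by positivity
  have h9 : R ^ D * R ^ (N - D) ≤ (cst (max 1 (w : ℝ)) p * (ga p * gb p) * Y) *
      R ^ (N - D) := by
    calc R ^ D * R ^ (N - D) ≤ _ := h6
      _ = _ := by ring
  exact le_of_mul_le_mul_right h9 h8

theorem vec2_ne (T : K) : (![1, T] : Fin 2 → K) ≠ 0 := fun h => one_ne_zero (congrFun h 0)

/-- heights of the values, upper bound -/
theorem ev_ht_le (P : Fin w → Polynomial K) (D : ℕ) (hD : ∀ j, (P j).natDegree ≤ D) :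
    ∃ C : ℝ, ∀ T : K, (fun j => (P j).eval T) ≠ 0 →
      logHeight (fun j => (P j).eval T) ≤ D * logHeight ![1, T] + C := by
  obtain ⟨g, hg, h⟩ := ev_up_vec P D hD
  refine ⟨bdc g, fun T hT => ?_⟩
  have h1 := ht_bd (ι := Fin 2) Finset.univ (fun i => ![w, 2] i)
    (fun i => match i with
      | 0 => fun j => (P j).eval T
      | 1 => ![1, T]) (fun i => match i with
      | 0 => -1
      | 1 => (D : ℝ)) (by
        intro i _
        match i with
        | 0 => exact hT
        | 1 => exact vec2_ne T) g hg (by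
        intro p
        rw [Fin.sum_univ_two]
        show 0 ≤ -1 * Real.log (nrm (av p) (fun j => (P j).eval T)) +
          (D : ℝ) * Real.log (nrm (av p) ![1, T]) + Real.log (g p)
        have e1 := nrm_pos (av p) hT
        have e2 := nrm2_pos p T
        have e3 := hg.1 p
        have e5 := Real.log_le_log e1 (h T p)
        rw [Real.log_mul (by linarith) (by positivity), Real.log_pow] at e5
        linarith)
  rw [Fin.sum_univ_two] at h1
  have h2 : 0 ≤ -1 * logHeight (fun j => (P j).eval T) + (D : ℝ) * logHeight ![1, T] + bdc g := h1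
  linarith

/-- heights of the values, lower bound -/
theorem ev_ht_ge (P : Fin w → Polynomial K) (D : ℕ) (hD : ∀ j, (P j).natDegree ≤ D)
    (htop : Ideal.span (Set.range P) = ⊤) (hlead : ∃ j, (P j).coeff D ≠ 0) :
    ∃ C : ℝ, ∀ T : K, D * logHeight ![1, T] ≤ logHeight (fun j => (P j).eval T) + C := by
  obtain ⟨g, hg, h⟩ := ev_low P D hD htop hlead
  refine ⟨bdc g, fun T => ?_⟩
  have hT := ev_ne_field P htop T
  have h1 := ht_bd (ι := Fin 2) Finset.univ (fun i => ![w, 2] i)
    (fun i => match i with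
      | 0 => fun j => (P j).eval T
      | 1 => ![1, T]) (fun i => match i with
      | 0 => 1
      | 1 => -(D : ℝ)) (by
        intro i _
        match i with
        | 0 => exact hT
        | 1 => exact vec2_ne T) g hg (by
        intro p
        rw [Fin.sum_univ_two]
        show 0 ≤ 1 * Real.log (nrm (av p) (fun j => (P j).eval T)) +
          -(D : ℝ) * Real.log (nrm (av p) ![1, T]) + Real.log (g p)
        have e1 := nrm_pos (av p) hT
        have e2 := nrm2_pos p T
        have e3 := hg.1 p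
        have e5 := Real.log_le_log (by positivity) (h T p)
        rw [Real.log_mul (by linarith) (by positivity), Real.log_pow] at e5
        linarith)
  rw [Fin.sum_univ_two] at h1
  have h2 : 0 ≤ 1 * logHeight (fun j => (P j).eval T) + -(D : ℝ) * logHeight ![1, T] + bdc g := h1
  linarith

end poly

end Pool.Agent.H432.TC
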