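import Mathlib
import Pool.Agent.H432.TC.Bd

/-!
The height of the Gauss map along a fixed rational curve.
-/

set_option autoImplicit false
set_option linter.unusedSectionVars false

namespace Pool.Agent.H432.TC

open NumberField IsDedekindDomain Height Module MvPolynomial Pool.Agent.N750 Pool.Agent.H432.RC
open Pool.Agent.W180.OP (Pl av wt nrm le_nrm nrm_pos wt_nonneg exists_nrm nrm_nonneg)

variable {M g n' : ℕ}

/-- a solution without common zeros -/
theorem GC_coprime {k K : Type} [Field k] [Field K] [Algebra k K]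
    (G : Fin g → MvPolynomial (Fin M) k) (φ : Fin M → Polynomial K) (D : ℕ)
    (Γ : (Fin (n' + 2) → Fin M) → Polynomial K) (h : GC G φ D Γ) :
    ∃ Γ' : (Fin (n' + 2) → Fin M) → Polynomial K, GC G φ D Γ' ∧
      ∀ T : K, ∃ J, (Γ' J).eval T ≠ 0 := by
  classical
  obtain ⟨⟨J0, hJ0⟩, hdeg, halt, hcontr⟩ := h
  let e := Fintype.equivFin (Fin (n' + 2) → Fin M)
  obtain ⟨p, Q, a, hp, hPQ, hPa, hQ⟩ := exists_gcd (fun i => Γ (e.symm i))
    ⟨e J0, by rw [Equiv.symm_apply_apply]; exact hJ0⟩
  have hΓ : ∀ J, Γ J = p * Q (e J) := by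
    intro J
    rw [← hPQ, Equiv.symm_apply_apply]
  have hp0 : p ≠ 0 := hp.ne_zero
  refine ⟨fun J => Q (e J), ⟨⟨J0, fun h0 => hJ0 (by rw [hΓ]; simp only at h0; rw [h0, mul_zero])⟩,
    fun J => ?_, fun J i j hij => ?_, fun i J => ?_⟩, fun T => ?_⟩
  · by_cases h0 : Q (e J) = 0
    · simp only [h0, Polynomial.natDegree_zero]
      exact Nat.zero_le _
    · have h1 := Polynomial.natDegree_mul hp0 h0
      rw [← hΓ] at h1
      have h2 := hdeg J
      show (Q (e J)).natDegree ≤ D
      omega
  · have h1 := halt J i j hij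
    rw [hΓ, hΓ, ← mul_neg] at h1
    exact mul_left_cancel₀ hp0 h1
  · have h1 := hcontr i J
    have h2 : p * ∑ l, aeval φ (pderiv l (G i)) * Q (e (Function.update J 0 l)) = 0 := by
      rw [← h1, Finset.mul_sum]
      refine Finset.sum_congr rfl fun l _ => ?_
      rw [hΓ]
      ring
    exact (mul_eq_zero.1 h2).resolve_left hp0
  · have h1 := ev_ne_field Q hQ T
    obtain ⟨i, hi⟩ := Function.ne_iff.1 h1
    refine ⟨e.symm i, ?_⟩
    show (Q (e (e.symm i))).eval T ≠ 0
    rw [Equiv.apply_symm_apply]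
    exact hi

/-- **the height of the Gauss map along a fixed curve** -/
theorem gauss_fix {k K : Type} [Field k] [Field K] [NumberField K] [Algebra k K]
    (G : Fin g → MvPolynomial (Fin M) k) (hsm : Sm (n' + 1) G)
    (φ : Fin M → Polynomial K) (D : ℕ) (Γ : (Fin (n' + 2) → Fin M) → Polynomial K)
    (hΓ : GC G φ D Γ) :
    ∃ C : ℝ, ∀ T : K, (fun l => (φ l).eval T) ≠ 0 →
      (∀ i, aeval (fun l => (φ l).eval T) (G i) = 0) →
      ∀ A, IsTB (p := n' + 2) G (fun l => (φ l).eval T) A →
      logHeight (mv A) ≤ D * logHeight ![1, T] + C := by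
  classical
  obtain ⟨Γ', ⟨-, hdeg, halt, hcontr⟩, hne⟩ := GC_coprime G φ D Γ hΓ
  let e := Fintype.equivFin (Fin (n' + 2) → Fin M)
  obtain ⟨C, hC⟩ := ev_ht_le (fun i => Γ' (e.symm i)) D (fun i => hdeg _)
  refine ⟨C, fun T hx0 hxX A hA => ?_⟩
  obtain ⟨J0, hJ0⟩ := hne T
  have hV : (fun i => (Γ' (e.symm i)).eval T) ≠ 0 := by
    intro h
    apply hJ0
    have h1 := congrFun h (e J0)
    simp only [Equiv.symm_apply_apply] at h1
    exact h1
  have f1 := hC T hV
  have hdim : finrank K (TS G (fun l => (φ l).eval T)) = n' + 2 := hsm K _ hx0 hxX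
  obtain ⟨c, hc⟩ := alt_unique (L := K) A hA.1
    (fun i l => aeval (fun l => (φ l).eval T) (pderiv l (G i)))
    (fun v hv => span_TB hA hdim v hv)
    (fun J => (Γ' J).eval T) (fun J i j hij => by
      have h1 := congrArg (Polynomial.eval T) (halt J i j hij)
      rw [Polynomial.eval_neg] at h1
      exact h1) (fun i J => by
      have h1 := congrArg (Polynomial.eval T) (hcontr i J)
      rw [Polynomial.eval_finsetSum, Polynomial.eval_zero] at h1
      rw [← h1]
      refine Finset.sum_congr rfl fun l _ => ?_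
      rw [Polynomial.eval_mul, aeval_eval])
  have hc0 : c ≠ 0 := by
    rintro rfl
    apply hJ0
    have := hc J0
    rw [zero_mul] at this
    exact this
  have e1 : (fun i => (Γ' (e.symm i)).eval T) = c • (fun i => mv A (e.symm i)) := by
    funext i
    exact hc (e.symm i)
  have e2 : logHeight (fun i => (Γ' (e.symm i)).eval T) = logHeight (mv A) := by
    rw [e1, logHeight_smul_eq_logHeight _ hc0]
    exact logHeight_comp_equiv e.symm (mv A)
  rw [e2] at f1
  exact f1

end Pool.Agent.H432.TC
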