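import Mathlib
import Pool.Agent.H432.TC.Gs

/-!
The crossings of a fixed rational curve with the divisor.
-/

set_option autoImplicit false
set_option linter.unusedSectionVars false

namespace Pool.Agent.H432.TC

open NumberField IsDedekindDomain Height Module MvPolynomial Pool.Agent.N750 Pool.Agent.H432.RC
open Pool.Agent.W180.OP (Pl av wt nrm le_nrm nrm_pos wt_nonneg exists_nrm nrm_nonneg)

variable {M g q w n' d : ℕ}

/-- the crossings -/
structure Cro {k K : Type} [Field k] [Field K] [Algebra k K]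
    (F : Fin q → Fin w → MvPolynomial (Fin M) k) (δ : Fin q → ℕ) (φ : Fin M → Polynomial K)
    (d ν : ℕ) (b : Fin ν → K) (m : Fin ν → Fin q → ℕ) (Q : Fin q → Fin w → Polynomial K) :
    Prop where
  inj : Function.Injective b
  hν : ν ≤ ∑ i, δ i * d
  hm : ∀ a i, m a i ≤ ∑ i, δ i * d
  hm1 : ∀ a, 1 ≤ ∑ i, m a i
  fac : ∀ i j, aeval φ (F i j) = (∏ a, (Polynomial.X - Polynomial.C (b a)) ^ m a i) * Q i j
  top : ∀ i, Ideal.span (Set.range (Q i)) = ⊤
  lead : ∀ i, ∃ j, (aeval φ (F i j)).coeff (δ i * d) ≠ 0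

theorem exists_cro {k K : Type} [Field k] [Field K] [CharZero K] [Algebra k K]
    {G : Fin g → MvPolynomial (Fin M) k}
    {F : Fin q → Fin w → MvPolynomial (Fin M) k} {δ : Fin q → ℕ}
    (hF : ∀ i j, (F i j).IsHomogeneous (δ i)) {c : Fin M → Fin (d + 1) → K}
    (hc : CurveOK G F c) (r : K)
    (hr : ∀ i, ∃ j, aeval (pc c ![r, 1]) (F i j) ≠ 0) :
    ∃ (ν : ℕ) (b : Fin ν → K) (m : Fin ν → Fin q → ℕ) (Q : Fin q → Fin w → Polynomial K),
      Cro F δ (cpol r c) d ν b m Q := by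
  classical
  set φ := cpol r c with hφ
  have hφd : ∀ l, (φ l).natDegree ≤ d := fun l => cpol_deg r c l
  have hlead : ∀ i, ∃ j, (aeval φ (F i j)).coeff (δ i * d) ≠ 0 := by
    intro i
    obtain ⟨j, hj⟩ := hr i
    refine ⟨j, ?_⟩
    rw [aeval_top (hF i j) φ hφd]
    have h1 : (fun l => (φ l).coeff d) = pc c ![r, 1] := by
      funext l
      exact cpol_coeff r c l
    rw [h1]
    exact hj
  have hgcd : ∀ i, ∃ (p : Polynomial K) (Q a : Fin w → Polynomial K), p.Monic ∧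
      (∀ j, aeval φ (F i j) = p * Q j) ∧ ∑ j, a j * aeval φ (F i j) = p ∧
      Ideal.span (Set.range Q) = ⊤ := by
    intro i
    refine exists_gcd (fun j => aeval φ (F i j)) ?_
    obtain ⟨j, hj⟩ := hlead i
    exact ⟨j, fun h => hj (by rw [h, Polynomial.coeff_zero])⟩
  choose P Q a hPm hPQ hPa hQtop using hgcd
  have hsplit : ∀ i, ∃ β : Fin (P i).natDegree → K,
      P i = ∏ a, (Polynomial.X - Polynomial.C (β a)) := by
    intro i
    refine exists_roots (P i) (hPm i) ?_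
    intro Ω _ _ z hz
    refine hc.roots r Ω z i fun j => ?_
    have h1 := hPQ i j
    rw [hφ] at h1
    rw [h1, map_mul, hz, zero_mul]
  choose β hβ using hsplit
  obtain ⟨ν, b, m, hb, hν, hmr, hm1, hprod⟩ := distinct (fun i => (P i).natDegree) β
  have hPdeg : ∀ i, (P i).natDegree ≤ δ i * d := by
    intro i
    obtain ⟨j, hj⟩ := hlead i
    have h0 : aeval φ (F i j) ≠ 0 := fun h => hj (by rw [h, Polynomial.coeff_zero])
    exact (Polynomial.natDegree_le_of_dvd (Dvd.intro _ (hPQ i j).symm) h0).trans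
      (aeval_deg (hF i j) φ hφd)
  refine ⟨ν, b, m, Q, hb, hν.trans (Finset.sum_le_sum fun i _ => hPdeg i), ?_, hm1, ?_, hQtop,
    hlead⟩
  · intro a i
    exact ((hmr a i).trans (hPdeg i)).trans (Finset.single_le_sum (f := fun i => δ i * d)
      (fun _ _ => Nat.zero_le _) (Finset.mem_univ i))
  · intro i j
    rw [hPQ i j, ← hprod i, ← hβ i]

section cro

variable {k K : Type} [Field k] [Field K] [Algebra k K]
  {F : Fin q → Fin w → MvPolynomial (Fin M) k} {δ : Fin q → ℕ} {φ : Fin M → Polynomial K}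
  {ν : ℕ} {b : Fin ν → K} {m : Fin ν → Fin q → ℕ} {Q : Fin q → Fin w → Polynomial K}

theorem Cro.Qdeg (hF : ∀ i j, (F i j).IsHomogeneous (δ i)) (hφd : ∀ l, (φ l).natDegree ≤ d)
    (h : Cro F δ φ d ν b m Q) (i : Fin q) :
    ∑ a, m a i ≤ δ i * d ∧ (∀ j, (Q i j).natDegree ≤ δ i * d - ∑ a, m a i) ∧
      ∃ j, (Q i j).coeff (δ i * d - ∑ a, m a i) ≠ 0 := by
  classical
  set P : Polynomial K := ∏ a, (Polynomial.X - Polynomial.C (b a)) ^ m a i with hP
  have hPm : P.Monic := Polynomial.monic_prod_of_monic _ _ fun c _ =>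
    (Polynomial.monic_X_sub_C _).pow _
  have hPd : P.natDegree = ∑ a, m a i := by
    rw [hP, Polynomial.natDegree_prod_of_monic _ _ fun c _ =>
      (Polynomial.monic_X_sub_C _).pow _]
    refine Finset.sum_congr rfl fun c _ => ?_
    rw [Polynomial.natDegree_pow, Polynomial.natDegree_X_sub_C, mul_one]
  obtain ⟨j0, hj0⟩ := h.lead i
  have hFd : ∀ j, (aeval φ (F i j)).natDegree ≤ δ i * d := fun j => aeval_deg (hF i j) φ hφd
  have hF0 : aeval φ (F i j0) ≠ 0 := fun h => hj0 (by rw [h, Polynomial.coeff_zero])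
  have hFj0 : (aeval φ (F i j0)).natDegree = δ i * d :=
    le_antisymm (hFd j0) (Polynomial.le_natDegree_of_ne_zero hj0)
  have hQ0 : Q i j0 ≠ 0 := by
    intro h0
    apply hF0
    rw [h.fac, h0, mul_zero]
  have hdeg0 : (Q i j0).natDegree = δ i * d - ∑ a, m a i ∧ ∑ a, m a i ≤ δ i * d := by
    have h1 := Polynomial.natDegree_mul hPm.ne_zero hQ0
    rw [← h.fac, hFj0, hPd] at h1
    omega
  refine ⟨hdeg0.2, fun j => ?_, j0, ?_⟩
  · by_cases h0 : Q i j = 0
    · rw [h0, Polynomial.natDegree_zero]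
      exact Nat.zero_le _
    · have h1 := Polynomial.natDegree_mul hPm.ne_zero h0
      have h2 := hFd j
      rw [h.fac] at h2
      rw [h1, hPd] at h2
      omega
  · rw [← hdeg0.1]
    exact Polynomial.leadingCoeff_ne_zero.2 hQ0

theorem Cro.val (h : Cro F δ φ d ν b m Q) (T : K) (i : Fin q) (j : Fin w) :
    aeval (fun l => (φ l).eval T) (F i j) = (∏ a, (T - b a) ^ m a i) * (Q i j).eval T := by
  rw [← aeval_eval, h.fac, Polynomial.eval_mul, Polynomial.eval_prod]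
  congr 1
  refine Finset.prod_congr rfl fun a _ => ?_
  rw [Polynomial.eval_pow, Polynomial.eval_sub, Polynomial.eval_X, Polynomial.eval_C]

/-- the points outside of the divisor -/
theorem Cro.ne (h : Cro F δ φ d ν b m Q) (T : K)
    (hT : ∀ i, ∃ j, aeval (fun l => (φ l).eval T) (F i j) ≠ 0) (a : Fin ν) : T ≠ b a := by
  classical
  rintro rfl
  have h1 := h.hm1 a
  obtain ⟨i, -, hi⟩ : ∃ i ∈ Finset.univ, m a i ≠ 0 := by
    by_contra hcon
    push Not at hcon
    rw [Finset.sum_eq_zero hcon] at h1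
    omega
  obtain ⟨j, hj⟩ := hT i
  apply hj
  rw [h.val, Finset.prod_eq_zero (Finset.mem_univ a), zero_mul]
  rw [sub_self, zero_pow hi]

end cro

/-- **the heights for the canonical class and the divisor along a fixed curve** -/
theorem Cro.heights {k K : Type} [Field k] [Field K] [NumberField K] [Algebra k K]
    {G : Fin g → MvPolynomial (Fin M) k} (hsm : Sm (n' + 1) G)
    {F : Fin q → Fin w → MvPolynomial (Fin M) k} {δ : Fin q → ℕ}
    (hF : ∀ i j, (F i j).IsHomogeneous (δ i)) {φ : Fin M → Polynomial K}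
    (hφd : ∀ l, (φ l).natDegree ≤ d) (htop : Ideal.span (Set.range φ) = ⊤)
    (hlead : ∃ l, (φ l).coeff d ≠ 0)
    {ν : ℕ} {b : Fin ν → K} {m : Fin ν → Fin q → ℕ} {Q : Fin q → Fin w → Polynomial K}
    (h : Cro F δ φ d ν b m Q) (hle : 2 + ∑ a, (∑ i, m a i - 1) ≤ (n' + 2) * d)
    {Γ : (Fin (n' + 2) → Fin M) → Polynomial K}
    (hΓ : GC G φ ((n' + 2) * d - 2 - ∑ a, (∑ i, m a i - 1)) Γ) :
    ∃ C : ℝ, ∀ T : K, (∀ i, aeval (fun l => (φ l).eval T) (G i) = 0) →
      (∀ i, ∃ j, aeval (fun l => (φ l).eval T) (F i j) ≠ 0) →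
      (d : ℝ) * logHeight ![1, T] ≤ logHeight (fun l => (φ l).eval T) + C ∧
      ∀ A, IsTB (p := n' + 2) G (fun l => (φ l).eval T) A →
      logHeight (mv A) - (n' + 2) * logHeight (fun l => (φ l).eval T) +
        ∑ i, ((δ i : ℝ) * logHeight (fun l => (φ l).eval T) -
          logHeight (fun j => aeval (fun l => (φ l).eval T) (F i j))) ≤
        ((ν : ℝ) - 2) * logHeight ![1, T] + C := by
  classical
  obtain ⟨C1, hC1⟩ := gauss_fix G hsm φ _ Γ hΓ
  obtain ⟨C2, hC2⟩ := ev_ht_le φ d hφd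
  obtain ⟨C3, hC3⟩ := ev_ht_ge φ d hφd htop hlead
  have hQd := fun i => h.Qdeg hF hφd i
  have hq : ∀ i, ∃ C : ℝ, ∀ T : K, ((δ i * d - ∑ a, m a i : ℕ) : ℝ) * logHeight ![1, T] ≤
      logHeight (fun j => (Q i j).eval T) + C := fun i =>
    ev_ht_ge (Q i) _ (hQd i).2.1 (h.top i) (hQd i).2.2
  choose C4 hC4 using hq
  set Cm : ℝ := |C3| + (|C1| + (n' + 2) * |C3| + ∑ i, ((δ i : ℝ) * |C2| + |C4 i|)) with hCm
  have hs0 : 0 ≤ ∑ i, ((δ i : ℝ) * |C2| + |C4 i|) :=
    Finset.sum_nonneg fun i _ => by positivity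
  refine ⟨Cm, fun T hTG hTF => ?_⟩
  have hx0 : (fun l => (φ l).eval T) ≠ 0 := ev_ne_field φ htop T
  have e1 := hC2 T hx0
  have e2 := hC3 T
  set x : Fin M → K := fun l => (φ l).eval T with hx
  set H := logHeight ![1, T] with hH
  have hH0 : 0 ≤ H := logHeight_nonneg _
  have a1 := abs_nonneg C1
  have a3 := abs_nonneg C3
  have b1 := le_abs_self C1
  have b2 := le_abs_self C2
  have b3 := le_abs_self C3
  have p1 : (0 : ℝ) ≤ (n' + 2) * |C3| := by positivity
  refine ⟨by rw [hCm]; linarith, fun A hA => ?_⟩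
  have e3 := hC1 T hx0 hTG A hA
  have hTb := h.ne T hTF
  have e4 : ∀ i, logHeight (fun j => aeval x (F i j)) = logHeight (fun j => (Q i j).eval T) := by
    intro i
    have f1 : (fun j => aeval x (F i j)) =
        (∏ a, (T - b a) ^ m a i) • (fun j => (Q i j).eval T) := by
      funext j
      exact h.val T i j
    rw [f1]
    exact logHeight_smul_eq_logHeight _ (Finset.prod_ne_zero_iff.2 fun a _ =>
      pow_ne_zero _ (sub_ne_zero.2 (hTb a)))
  have e5 : ∑ i, ((δ i : ℝ) * logHeight x - logHeight (fun j => aeval x (F i j))) ≤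
      ∑ i, ((∑ a, (m a i : ℝ)) * H + ((δ i : ℝ) * |C2| + |C4 i|)) := by
    refine Finset.sum_le_sum fun i _ => ?_
    rw [e4]
    have f1 := hC4 i T
    have f2 : ((δ i * d - ∑ a, m a i : ℕ) : ℝ) = δ i * d - ∑ a, (m a i : ℝ) := by
      rw [Nat.cast_sub (hQd i).1]
      push_cast
      ring
    rw [f2] at f1
    have f3 : (δ i : ℝ) * logHeight x ≤ δ i * (d * H + |C2|) :=
      mul_le_mul_of_nonneg_left (by linarith) (Nat.cast_nonneg _)
    have f4 := le_abs_self (C4 i)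
    have f5 : (δ i * d - ∑ a, (m a i : ℝ)) * H ≤ logHeight (fun j => (Q i j).eval T) + C4 i := f1
    nlinarith
  rw [Finset.sum_add_distrib, ← Finset.sum_mul] at e5
  have e6 : ∑ i, ∑ a, (m a i : ℝ) = ∑ a, ((∑ i, m a i - 1 : ℕ) : ℝ) + ν := by
    rw [Finset.sum_comm]
    have f1 : ∀ a, ((∑ i, m a i - 1 : ℕ) : ℝ) = ∑ i, (m a i : ℝ) - 1 := by
      intro a
      rw [Nat.cast_sub (h.hm1 a)]
      push_cast
      ring
    rw [Finset.sum_congr rfl fun a _ => f1 a, Finset.sum_sub_distrib]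
    simp
  have e7 : (((n' + 2) * d - 2 - ∑ a, (∑ i, m a i - 1) : ℕ) : ℝ) =
      (n' + 2) * d - 2 - ∑ a, ((∑ i, m a i - 1 : ℕ) : ℝ) := by
    rw [Nat.sub_sub, Nat.cast_sub hle]
    push_cast
    ring
  rw [e7] at e3
  rw [e6] at e5
  have e8 : (n' + 2 : ℝ) * (d * H) ≤ (n' + 2) * (logHeight x + |C3|) :=
    mul_le_mul_of_nonneg_left (by linarith) (by positivity)
  rw [hCm]
  have e9 : (0 : ℝ) ≤ |C3| := abs_nonneg _
  nlinarith

end Pool.Agent.H432.TC
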