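import Mathlib
import Pool.Agent.H432.TC.Cro

/-!
The primes at which a point of a fixed curve meets the divisor.
-/

set_option autoImplicit false
set_option linter.unusedSectionVars false

namespace Pool.Agent.H432.TC

open NumberField IsDedekindDomain Height Module MvPolynomial Pool.Agent.N750 Pool.Agent.H432.RC
open Pool.Agent.W180.OP (Pl av wt nrm le_nrm nrm_pos wt_nonneg exists_nrm nrm_nonneg)

variable {M g q w n' d : ℕ}

theorem fin_sub_le {K : Type} [Field K] [NumberField K] (v : HeightOneSpectrum (𝓞 K)) (x y : K) :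
    av (Sum.inr v : Pl K) (x - y) ≤ max (av (Sum.inr v : Pl K) x) (av (Sum.inr v : Pl K) y) := by
  have h := fin_add_le v x (-y)
  rwa [AbsoluteValue.map_neg, ← sub_eq_add_neg] at h

/-- the point `T` and the point `b` of the line coincide modulo `v` -/
def Mt {K : Type} [Field K] [NumberField K] (v : HeightOneSpectrum (𝓞 K)) (T b : K) : Prop :=
  av (Sum.inr v : Pl K) (T - b) < nrm (av (Sum.inr v : Pl K)) ![1, T] *
    nrm (av (Sum.inr v : Pl K)) ![1, b]

theorem Mt.lt_one {K : Type} [Field K] [NumberField K] {v : HeightOneSpectrum (𝓞 K)} {T b : K}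
    (hb : nrm (av (Sum.inr v : Pl K)) ![1, b] = 1) (h : Mt v T b) :
    nrm (av (Sum.inr v : Pl K)) ![1, T] = 1 ∧ av (Sum.inr v : Pl K) (T - b) < 1 := by
  set p : Pl K := Sum.inr v with hp
  unfold Mt at h
  rw [hb, mul_one] at h
  have hb1 : av p b ≤ 1 := by
    have := nrm2_ge p b
    rwa [hb] at this
  have hT1 : av p T ≤ 1 := by
    by_contra hcon
    push Not at hcon
    have h1 : nrm (av p) ![1, T] ≤ av p T := nrm2_le p T hcon.le le_rfl
    have h2 : av p T ≤ max (av p (T - b)) (av p b) := by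
      have := fin_add_le v (T - b) b
      rwa [sub_add_cancel] at this
    rcases le_max_iff.1 h2 with h3 | h3
    · linarith
    · linarith
  have hR : nrm (av p) ![1, T] = 1 := le_antisymm (nrm2_le p T le_rfl hT1) (nrm2_pos p T)
  exact ⟨hR, by rw [hR] at h; exact h⟩

/-- **the good primes** -/
theorem Cro.good {k K : Type} [Field k] [Field K] [NumberField K] [Algebra k K]
    {F : Fin q → Fin w → MvPolynomial (Fin M) k} {δ : Fin q → ℕ}
    (hF : ∀ i j, (F i j).IsHomogeneous (δ i)) {φ : Fin M → Polynomial K}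
    (hφd : ∀ l, (φ l).natDegree ≤ d) (htop : Ideal.span (Set.range φ) = ⊤)
    (hlead : ∃ l, (φ l).coeff d ≠ 0)
    {ν : ℕ} {b : Fin ν → K} {m : Fin ν → Fin q → ℕ} {Q : Fin q → Fin w → Polynomial K}
    (h : Cro F δ φ d ν b m Q) :
    ∃ Bad : Set (HeightOneSpectrum (𝓞 K)), Bad.Finite ∧ ∀ v, v ∉ Bad → ∀ T : K,
      (∀ a, Mt v T (b a) → ∃ i, ∀ j, av (Sum.inr v : Pl K)
        (aeval (fun l => (φ l).eval T) (F i j)) <
        nrm (av (Sum.inr v : Pl K)) (fun l => (φ l).eval T) ^ δ i) ∧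
      ∀ a a', Mt v T (b a) → Mt v T (b a') → a = a' := by
  classical
  obtain ⟨g1, hg1, hlow⟩ := ev_low φ d hφd htop hlead
  have hQd := fun i => h.Qdeg hF hφd i
  have hq : ∀ i, ∃ g : Pl K → ℝ, Bd g ∧ ∀ (T : K) (p : Pl K) (j : Fin w),
      av p ((Q i j).eval T) ≤ g p * nrm (av p) ![1, T] ^ (δ i * d - ∑ a, m a i) := fun i =>
    ev_up (Q i) _ (hQd i).2.1
  choose g2 hg2 hup using hq
  have hbfin : ∀ a, {p : Pl K | nrm (av p) ![1, b a] ≠ 1}.Finite := fun a =>
    (Bd_nrm (![1, b a] : Fin 2 → K) 0 rfl).2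
  set B1 : Set (Pl K) := {p | g1 p ≠ 1} ∪ (⋃ i, {p | g2 i p ≠ 1}) ∪
    (⋃ a, {p | nrm (av p) ![1, b a] ≠ 1}) with hB1
  have hB1f : B1.Finite := (hg1.2.union (Set.finite_iUnion fun i => (hg2 i).2)).union
    (Set.finite_iUnion hbfin)
  set B2 : Set (HeightOneSpectrum (𝓞 K)) := ⋃ (a : Fin ν) (a' : Fin ν),
    {v | a ≠ a' ∧ Pool.Agent.W180.OP.fv v (b a - b a') ≠ 1} with hB2
  have hB2f : B2.Finite := by
    refine Set.finite_iUnion fun a => Set.finite_iUnion fun a' => ?_
    by_cases haa : a = a'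
    · refine Set.finite_empty.subset ?_
      rintro v ⟨hv, -⟩
      exact hv haa
    · exact (Pool.Agent.W180.OP.fv_support_finite (sub_ne_zero.2 (h.inj.ne haa))).subset
        fun v hv => hv.2
  refine ⟨(fun v => (Sum.inr v : Pl K)) ⁻¹' B1 ∪ B2,
    (hB1f.preimage Sum.inr_injective.injOn).union hB2f, ?_⟩
  intro v hv T
  simp only [Set.mem_union, Set.mem_preimage, hB1, hB2, Set.mem_iUnion, Set.mem_ofPred_eq,
    not_or, not_exists, not_not, not_and] at hv
  obtain ⟨⟨⟨hv1, hv2⟩, hv3⟩, hv4⟩ := hv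
  set p : Pl K := Sum.inr v with hp
  have hkey : ∀ a, Mt v T (b a) → nrm (av p) ![1, T] = 1 ∧ av p (T - b a) < 1 := fun a ha =>
    ha.lt_one (hv3 a)
  refine ⟨fun a ha => ?_, fun a a' ha ha' => ?_⟩
  · obtain ⟨hR, hlt⟩ := hkey a ha
    have hT1 : av p T ≤ 1 := by
      have := nrm2_ge p T
      rwa [hR] at this
    have hx1 : 1 ≤ nrm (av p) (fun l => (φ l).eval T) := by
      have := hlow T p
      rwa [hR, one_pow, hv1, one_mul] at this
    have h1 := h.hm1 a
    obtain ⟨i, -, hi⟩ : ∃ i ∈ Finset.univ, m a i ≠ 0 := by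
      by_contra hcon
      push Not at hcon
      rw [Finset.sum_eq_zero hcon] at h1
      omega
    refine ⟨i, fun j => ?_⟩
    have h2 : 1 ≤ nrm (av p) (fun l => (φ l).eval T) ^ δ i := one_le_pow₀ hx1
    refine lt_of_lt_of_le ?_ h2
    rw [h.val, map_mul, map_prod]
    have h3 : av p ((Q i j).eval T) ≤ 1 := by
      have := hup i T p j
      rwa [hR, one_pow, hv2 i, one_mul] at this
    have h4 : ∀ a', av p ((T - b a') ^ m a' i) ≤ 1 := by
      intro a'
      rw [map_pow]
      refine pow_le_one₀ ((av p).nonneg _) ?_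
      refine (fin_sub_le v T (b a')).trans (max_le hT1 ?_)
      have := nrm2_ge p (b a')
      rwa [hv3 a'] at this
    have h5 : ∏ a', av p ((T - b a') ^ m a' i) < 1 := by
      rw [← Finset.mul_prod_erase _ _ (Finset.mem_univ a)]
      have h6 : av p ((T - b a) ^ m a i) < 1 := by
        rw [map_pow]
        exact pow_lt_one₀ ((av p).nonneg _) hlt hi
      have h7 : ∏ a' ∈ Finset.univ.erase a, av p ((T - b a') ^ m a' i) ≤ 1 :=
        Finset.prod_le_one (fun _ _ => (av p).nonneg _) fun a' _ => h4 a'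
      have h8 : 0 ≤ ∏ a' ∈ Finset.univ.erase a, av p ((T - b a') ^ m a' i) :=
        Finset.prod_nonneg fun _ _ => (av p).nonneg _
      have h9 := (av p).nonneg ((T - b a) ^ m a i)
      nlinarith
    have h10 : 0 ≤ ∏ a', av p ((T - b a') ^ m a' i) :=
      Finset.prod_nonneg fun _ _ => (av p).nonneg _
    have h11 := (av p).nonneg ((Q i j).eval T)
    nlinarith
  · by_contra haa
    have h1 := (hkey a ha).2
    have h2 := (hkey a' ha').2
    have h3 := hv4 a a' haa
    have h4 : av p (b a - b a') ≤ max (av p (T - b a')) (av p (T - b a)) := by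
      have h5 : b a - b a' = (T - b a') - (T - b a) := by ring
      rw [h5]
      exact fin_sub_le v _ _
    have h6 : av p (b a - b a') = 1 := h3
    rcases le_max_iff.1 h4 with h5 | h5
    · linarith
    · linarith

end Pool.Agent.H432.TC
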