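import Mathlib
import Pool.Agent.H432.TC.Good
import Pool.Graph.R_pool_sql_team_seeded_2aa45f1a.Q290.NF.LineQ
import Pool.Graph.R_pool_sql_team_seeded_2aa45f1a.Results.MP_4d5ce1_nt.ThinSetsSuffice

/-!
Sums over primes in extensions.
-/

set_option autoImplicit false
set_option linter.unusedSectionVars false

namespace Pool.Agent.H432.TC

open NumberField IsDedekindDomain Height Module MvPolynomial Pool.Agent.N750 Pool.Agent.H432.RC
open Pool.Agent.W180.OP (Pl av le_nrm nrm_pos wt_nonneg exists_nrm nrm_nonneg)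
open Pool.Agent.Q290.NF (ell ell_pos ind ind_pos ind_neg ind_nonneg supp_sub)

section ext

variable {L E : Type} [Field L] [NumberField L] [Field E] [NumberField E] [Algebra L E]

theorem mem_over {v : HeightOneSpectrum (𝓞 L)} {Q : HeightOneSpectrum (𝓞 E)} :
    Q ∈ (over_fin E v).toFinset ↔ Q.asIdeal.LiesOver v.asIdeal := by
  rw [Set.Finite.mem_toFinset]
  exact Iff.rfl

theorem mk_lt_iff {K : Type} [Field K] [NumberField K] {v : HeightOneSpectrum (𝓞 K)} {x y : K} :
    FinitePlace.mk v x < FinitePlace.mk v y ↔ v.valuation K x < v.valuation K y := by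
  rw [Pool.Agent.Q290.NF.fin_mk, Pool.Agent.Q290.NF.fin_mk, NNReal.coe_lt_coe]
  exact (WithZeroMulInt.toNNReal_strictMono (HeightOneSpectrum.one_lt_absNorm_nnreal v)).lt_iff_lt

theorem mk_unif {K : Type} [Field K] [NumberField K] (v : HeightOneSpectrum (𝓞 K)) {x : K}
    (hx : v.valuation K x = (Multiplicative.ofAdd (-1 : ℤ) : Multiplicative ℤ)) :
    Real.log (FinitePlace.mk v x) = -ell v := by
  have h0 : v.valuation K x ≠ 0 := by
    rw [hx]
    exact WithZero.coe_ne_zero
  rw [Pool.Agent.Q290.NF.fin_mk, WithZeroMulInt.toNNReal_neg_apply _ h0]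
  have h1 : WithZero.unzero h0 = Multiplicative.ofAdd (-1 : ℤ) := by
    apply WithZero.coe_injective
    rw [WithZero.coe_unzero, hx]
  rw [h1, toAdd_ofAdd]
  push_cast
  rw [Real.log_zpow]
  unfold ell
  push_cast
  ring

/-- places above: strict inequalities -/
theorem over_lt {v : HeightOneSpectrum (𝓞 L)} {Q : HeightOneSpectrum (𝓞 E)}
    (h : Q.asIdeal.LiesOver v.asIdeal) {x y : L} :
    av (Sum.inr Q : Pl E) (algebraMap L E x) < av (Sum.inr Q : Pl E) (algebraMap L E y) ↔
      av (Sum.inr v : Pl L) x < av (Sum.inr v : Pl L) y := by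
  obtain ⟨c, hc, h1⟩ := Pool.Agent.R405.exists_exp (Pool.Agent.TeamU.over_of_liesOver h)
  have h2 : ∀ y : L, av (Sum.inr Q : Pl E) (algebraMap L E y) = av (Sum.inr v : Pl L) y ^ c := h1
  rw [h2, h2]
  exact Real.rpow_lt_rpow_iff ((av _).nonneg _) ((av _).nonneg _) hc

/-- the norms of the primes above a prime -/
theorem ell_ext (v : HeightOneSpectrum (𝓞 L)) :
    ∑ Q ∈ (over_fin E v).toFinset, ell Q ≤ finrank L E * ell v := by
  classical
  obtain ⟨π, hπ⟩ := v.valuation_exists_uniformizer L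
  have hπ0 : π ≠ 0 := by
    rintro rfl
    rw [map_zero] at hπ
    exact absurd hπ.symm WithZero.coe_ne_zero
  have h1 := ef (L := E) (Sum.inr v : Pl L) π hπ0
  unfold ab at h1
  rw [Finset.sum_map] at h1
  have h2 : Real.log (av (Sum.inr v : Pl L) π) = -ell v := mk_unif v hπ
  rw [h2] at h1
  have h3 : Pool.Agent.W180.OP.wt (Sum.inr v : Pl L) = 1 := rfl
  rw [h3, one_mul] at h1
  have h4 : ∑ Q ∈ (over_fin E v).toFinset, ell Q ≤
      -∑ Q ∈ (over_fin E v).toFinset, (Pool.Agent.W180.OP.wt (Sum.inr Q : Pl E) *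
        Real.log (av (Sum.inr Q : Pl E) (algebraMap L E π))) := by
    rw [← Finset.sum_neg_distrib]
    refine Finset.sum_le_sum fun Q hQ => ?_
    have hQ' := mem_over.1 hQ
    have h5 : Pool.Agent.W180.OP.wt (Sum.inr Q : Pl E) = 1 := rfl
    rw [h5, one_mul, ← Real.log_inv, ← map_inv₀]
    have h6 : av (Sum.inr Q : Pl E) (algebraMap L E π) < av (Sum.inr Q : Pl E)
        (algebraMap L E 1) := by
      rw [over_lt hQ']
      have h7 : v.valuation L π < v.valuation L 1 := by
        rw [hπ, map_one]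
        exact WithZero.coe_lt_coe.2 (by
          show (Multiplicative.ofAdd (-1 : ℤ)) < Multiplicative.ofAdd 0
          exact Multiplicative.ofAdd_lt.2 (by norm_num))
      exact mk_lt_iff.2 h7
    have h8 : Q.valuation E (algebraMap L E π) < 1 := by
      have h9 := mk_lt_iff.1 h6
      rwa [map_one, map_one] at h9
    have h10 : 1 < Q.valuation E (algebraMap L E π)⁻¹ := by
      rw [map_inv₀]
      have h11 : algebraMap L E π ≠ 0 := (map_ne_zero _).2 hπ0
      have h12 : Q.valuation E (algebraMap L E π) ≠ 0 := (Valuation.ne_zero_iff _).2 h11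
      exact (one_lt_inv₀ (zero_lt_iff.2 h12)).2 h8
    have h13 := Pool.Agent.Q290.NF.norm_le_mk h10
    have h14 : (0 : ℝ) < Ideal.absNorm Q.asIdeal := by
      have := HeightOneSpectrum.one_lt_absNorm Q
      have h15 : (1 : ℝ) < Ideal.absNorm Q.asIdeal := by exact_mod_cast this
      linarith
    exact Real.log_le_log h14 h13
  have h16 : ∑ Q ∈ (over_fin E v).toFinset, (Pool.Agent.W180.OP.wt (Sum.inr Q : Pl E) *
        Real.log (av (Sum.inr Q : Pl E) (algebraMap L E π))) = finrank L E * -ell v := h1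
  linarith

/-- **sums over primes in an extension** -/
theorem cnt_ext (P : HeightOneSpectrum (𝓞 L) → Prop) (hP : {v | P v}.Finite)
    (W : HeightOneSpectrum (𝓞 E) → Prop)
    (h : ∀ Q, W Q → ∃ v, P v ∧ Q.asIdeal.LiesOver v.asIdeal) :
    {Q | W Q}.Finite ∧
    Pool.Agent.Q290.NF.wt W ≤ finrank L E * Pool.Agent.Q290.NF.wt P := by
  classical
  have hsub : {Q | W Q} ⊆ ((hP.toFinset.biUnion fun v => (over_fin E v).toFinset :
      Finset (HeightOneSpectrum (𝓞 E))) : Set (HeightOneSpectrum (𝓞 E))) := by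
    intro Q hQ
    obtain ⟨v, hv, hl⟩ := h Q hQ
    rw [Finset.mem_coe, Finset.mem_biUnion]
    exact ⟨v, hP.mem_toFinset.2 hv, mem_over.2 hl⟩
  have hW : {Q | W Q}.Finite := (Finset.finite_toSet _).subset hsub
  refine ⟨hW, ?_⟩
  have h1 : Pool.Agent.Q290.NF.wt W = ∑ Q ∈ hW.toFinset, ell Q := by
    unfold Pool.Agent.Q290.NF.wt
    rw [finsum_eq_sum_of_support_subset (s := hW.toFinset) _ (by
      intro Q hQ
      rw [Finset.mem_coe, hW.mem_toFinset]
      exact supp_sub W hQ)]
    refine Finset.sum_congr rfl fun Q hQ => ?_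
    exact ind_pos (hW.mem_toFinset.1 hQ)
  have h2 : Pool.Agent.Q290.NF.wt P = ∑ v ∈ hP.toFinset, ell v := by
    unfold Pool.Agent.Q290.NF.wt
    rw [finsum_eq_sum_of_support_subset (s := hP.toFinset) _ (by
      intro Q hQ
      rw [Finset.mem_coe, hP.mem_toFinset]
      exact supp_sub P hQ)]
    refine Finset.sum_congr rfl fun Q hQ => ?_
    exact ind_pos (hP.mem_toFinset.1 hQ)
  rw [h1, h2, Finset.mul_sum]
  calc ∑ Q ∈ hW.toFinset, ell Q ≤ ∑ Q ∈ hP.toFinset.biUnion fun v => (over_fin E v).toFinset,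
        ell Q := by
        refine Finset.sum_le_sum_of_subset_of_nonneg ?_ fun Q _ _ => (ell_pos Q).le
        intro Q hQ
        exact Finset.mem_coe.1 (hsub (hW.mem_toFinset.1 hQ))
    _ = ∑ v ∈ hP.toFinset, ∑ Q ∈ (over_fin E v).toFinset, ell Q := by
        refine Finset.sum_biUnion ?_
        intro v _ v' _ hne
        rw [Function.onFun, Finset.disjoint_left]
        intro Q hQ hQ'
        exact hne (Pool.Agent.TeamU.over_unique
          (Pool.Agent.TeamU.over_of_liesOver (mem_over.1 hQ))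
          (Pool.Agent.TeamU.over_of_liesOver (mem_over.1 hQ')))
    _ ≤ ∑ v ∈ hP.toFinset, finrank L E * ell v := Finset.sum_le_sum fun v _ => ell_ext v

theorem exists_under (Q : HeightOneSpectrum (𝓞 E)) :
    ∃ v : HeightOneSpectrum (𝓞 L), Q.asIdeal.LiesOver v.asIdeal :=
  ⟨Q.under (𝓞 L), ⟨rfl⟩⟩

end ext

end Pool.Agent.H432.TC
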