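import Mathlib
import Pool.Agent.H432.TC.Cnt

/-!
The truncated inequality along a fixed rational curve.
-/

set_option autoImplicit false
set_option linter.unusedSectionVars false

namespace Pool.Agent.H432.TC

open NumberField IsDedekindDomain Height Module MvPolynomial Pool.Agent.N750 Pool.Agent.H432.RC
open Pool.Agent.W180.OP (Pl av nrm le_nrm nrm_pos wt_nonneg exists_nrm nrm_nonneg)
open Pool.Agent.Q290.NF (ell ell_pos ind ind_pos ind_neg ind_nonneg supp_sub)
open Pool.Agent.Results.MP_4d5ce1_nt.ThinSetsSuffice (AllPoints Inequality counting Meet meet_fin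
  counting_eq)

variable {M g q w n' d : ℕ}

/-- the point meets the divisor modulo `v` -/
def DM {k L : Type} [Field k] [Field L] [NumberField L] [Algebra k L]
    (F : Fin q → Fin w → MvPolynomial (Fin M) k) (δ : Fin q → ℕ) (x : Fin M → L)
    (v : HeightOneSpectrum (𝓞 L)) : Prop :=
  ∃ i, ∀ j, av (Sum.inr v : Pl L) (aeval x (F i j)) < nrm (av (Sum.inr v : Pl L)) x ^ δ i

theorem DM_smul {k L : Type} [Field k] [Field L] [NumberField L] [Algebra k L]
    {F : Fin q → Fin w → MvPolynomial (Fin M) k} {δ : Fin q → ℕ}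
    (hF : ∀ i j, (F i j).IsHomogeneous (δ i)) (a : L) (ha : a ≠ 0) (x : Fin M → L)
    (v : HeightOneSpectrum (𝓞 L)) : DM F δ (fun l => a * x l) v ↔ DM F δ x v := by
  unfold DM
  refine exists_congr fun i => forall_congr' fun j => ?_
  rw [aeval_hom (hF i j), nrm_smul, map_mul, map_pow, mul_pow]
  exact mul_lt_mul_iff_right₀ (pow_pos ((av _).pos_iff.2 ha) _)

theorem DM_fin {k L : Type} [Field k] [Field L] [NumberField L] [Algebra k L]
    {F : Fin q → Fin w → MvPolynomial (Fin M) k} {δ : Fin q → ℕ} {x : Fin M → L} (hx : x ≠ 0)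
    (hxF : ∀ i, ∃ j, aeval x (F i j) ≠ 0) : {v | DM F δ x v}.Finite := by
  choose j hj using hxF
  have h1 := Pool.Agent.R405.nrm_finite x hx
  have h2 : (⋃ i, {v : HeightOneSpectrum (𝓞 L) |
      Pool.Agent.W180.OP.fv v (aeval x (F i (j i))) ≠ 1}).Finite :=
    Set.finite_iUnion fun i => Pool.Agent.W180.OP.fv_support_finite (hj i)
  refine (h1.union h2).subset fun v hv => ?_
  by_contra hcon
  simp only [Set.mem_union, Set.mem_iUnion, Set.mem_ofPred_eq, not_or, not_exists, not_not]
    at hcon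
  obtain ⟨i, hi⟩ := hv
  have h3 := hi (j i)
  have h4 : nrm (av (Sum.inr v : Pl L)) x = 1 := hcon.1
  have h5 : av (Sum.inr v : Pl L) (aeval x (F i (j i))) = 1 := hcon.2 i
  rw [h4, h5, one_pow] at h3
  exact lt_irrefl _ h3

theorem nrm_over {L E : Type} [Field L] [NumberField L] [Field E] [NumberField E] [Algebra L E]
    {v : HeightOneSpectrum (𝓞 L)} {Q : HeightOneSpectrum (𝓞 E)}
    (h : Q.asIdeal.LiesOver v.asIdeal) {n : ℕ} (a : Fin n → L) (j : Fin n)
    (hj : av (Sum.inr v : Pl L) (a j) = nrm (av (Sum.inr v : Pl L)) a) :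
    nrm (av (Sum.inr Q : Pl E)) (fun i => algebraMap L E (a i)) =
      av (Sum.inr Q : Pl E) (algebraMap L E (a j)) := by
  refine le_antisymm ?_ (le_nrm (av (Sum.inr Q : Pl E)) (fun i => algebraMap L E (a i)) j)
  obtain ⟨i, hi⟩ := exists_nrm (av (Sum.inr Q : Pl E)) j.pos (fun i => algebraMap L E (a i))
  rw [← hi]
  by_contra hcon
  rw [not_le, over_lt h, hj] at hcon
  exact absurd (le_nrm (av (Sum.inr v : Pl L)) a i) (not_le.2 hcon)

theorem DM_over {k L E : Type} [Field k] [NumberField k] [Field L] [NumberField L] [Field E] [NumberField E]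
    [Algebra k L] [Algebra k E] [Algebra L E] [IsScalarTower k L E]
    {F : Fin q → Fin w → MvPolynomial (Fin M) k} {δ : Fin q → ℕ} {x : Fin M → L} (hx : x ≠ 0)
    {v : HeightOneSpectrum (𝓞 L)} {Q : HeightOneSpectrum (𝓞 E)}
    (h : Q.asIdeal.LiesOver v.asIdeal)
    (hQ : DM F δ (fun l => algebraMap L E (x l)) Q) : DM F δ x v := by
  obtain ⟨i, hi⟩ := hQ
  refine ⟨i, fun j => ?_⟩
  obtain ⟨l0, -⟩ := Function.ne_iff.1 hx
  obtain ⟨l, hl⟩ := exists_nrm (av (Sum.inr v : Pl L)) l0.pos x
  have h1 := hi j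
  rw [nrm_over h x l hl, aeval_am, ← map_pow, ← map_pow, over_lt h, map_pow, hl] at h1
  exact h1

theorem Mt_of_meet {E : Type} [Field E] [NumberField E] {T b : E}
    {Q : HeightOneSpectrum (𝓞 E)} (h : Meet ![b, 1] ![T, 1] Q) : Mt Q T b := by
  unfold Meet at h
  simp only [Matrix.cons_val_zero, Matrix.cons_val_one, mul_one, one_mul] at h
  unfold Mt
  have key : ∀ t : E, ∃ s, av (Sum.inr Q : Pl E) s ≤ nrm (av (Sum.inr Q : Pl E)) ![1, t] ∧
      max (Q.valuation E t) (Q.valuation E 1) = Q.valuation E s := by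
    intro t
    rcases max_choice (Q.valuation E t) (Q.valuation E 1) with h1 | h1
    · exact ⟨t, nrm2_ge _ t, h1⟩
    · refine ⟨1, ?_, h1⟩
      rw [map_one]
      exact nrm2_pos _ t
  obtain ⟨s, hs1, hs2⟩ := key T
  obtain ⟨s', hs1', hs2'⟩ := key b
  rw [hs2, hs2', ← map_mul] at h
  have h2 := mk_lt_iff.2 h
  have h3 : av (Sum.inr Q : Pl E) (T - b) < av (Sum.inr Q : Pl E) (s * s') := h2
  refine h3.trans_le ?_
  rw [map_mul]
  exact mul_le_mul hs1 hs1' ((av _).nonneg _) (nrm_nonneg _ _)

/-- the sum of the counting functions of the points -/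
theorem sum_wt_le {E : Type} [Field E] [NumberField E] {ν : ℕ}
    (P : Fin ν → HeightOneSpectrum (𝓞 E) → Prop) (hP : ∀ a, {v | P a v}.Finite)
    (Bad : Set (HeightOneSpectrum (𝓞 E))) (hBad : Bad.Finite)
    (hu : ∀ v, v ∉ Bad → ∀ a a', P a v → P a' v → a = a') :
    ∑ a, Pool.Agent.Q290.NF.wt (P a) ≤
      Pool.Agent.Q290.NF.wt (fun v => v ∉ Bad ∧ ∃ a, P a v) +
        ν * Pool.Agent.Q290.NF.wt (fun v => v ∈ Bad) := by
  classical
  have hf1 : {v | v ∉ Bad ∧ ∃ a, P a v}.Finite := by
    refine (Set.finite_iUnion hP).subset ?_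
    rintro v ⟨-, a, ha⟩
    exact Set.mem_iUnion.2 ⟨a, ha⟩
  have hf2 : {v | v ∈ Bad}.Finite := hBad
  have e1 : ∑ a, Pool.Agent.Q290.NF.wt (P a) = ∑ᶠ v, ∑ a, ind (P a) v := by
    unfold Pool.Agent.Q290.NF.wt
    rw [finsum_sum_comm]
    intro a _
    exact (hP a).subset (supp_sub _)
  have e2 : Pool.Agent.Q290.NF.wt (fun v => v ∉ Bad ∧ ∃ a, P a v) +
      ν * Pool.Agent.Q290.NF.wt (fun v => v ∈ Bad) =
      ∑ᶠ v, (ind (fun v => v ∉ Bad ∧ ∃ a, P a v) v + ν * ind (fun v => v ∈ Bad) v) := by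
    unfold Pool.Agent.Q290.NF.wt
    rw [finsum_add_distrib (hf1.subset (supp_sub _))]
    · rw [mul_finsum]
    · refine hf2.subset fun v hv => ?_
      rw [Function.mem_support] at hv
      exact supp_sub (fun v => v ∈ Bad) (fun h0 => hv (by
        rw [h0, mul_zero]))
  rw [e1, e2]
  refine finsum_le_finsum' ?_ ?_ fun v => ?_
  · refine (Set.finite_iUnion hP).subset fun v hv => ?_
    rw [Function.mem_support] at hv
    by_contra hcon
    rw [Set.mem_iUnion, not_exists] at hcon
    exact hv (Finset.sum_eq_zero fun a _ => ind_neg (hcon a))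
  · refine (hf1.union hf2).subset fun v hv => ?_
    rw [Function.mem_support] at hv
    by_contra hcon
    rw [Set.mem_union, not_or] at hcon
    apply hv
    rw [ind_neg (P := fun v => v ∉ Bad ∧ ∃ a, P a v) hcon.1,
      ind_neg (P := fun v => v ∈ Bad) hcon.2]
    ring
  · by_cases hv : v ∈ Bad
    · rw [ind_neg (P := fun v => v ∉ Bad ∧ ∃ a, P a v) (fun h => h.1 hv),
        ind_pos (P := fun v => v ∈ Bad) hv, zero_add]
      calc ∑ a, ind (P a) v ≤ ∑ _a : Fin ν, ell v := by
            refine Finset.sum_le_sum fun a _ => ?_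
            by_cases ha : P a v
            · rw [ind_pos ha]
            · rw [ind_neg ha]
              exact (ell_pos v).le
        _ = ν * ell v := by rw [Finset.sum_const, Finset.card_univ, Fintype.card_fin, nsmul_eq_mul]
    · rw [ind_neg (P := fun v => v ∈ Bad) hv, mul_zero, add_zero]
      by_cases ha : ∃ a, P a v
      · rw [ind_pos (P := fun v => v ∉ Bad ∧ ∃ a, P a v) ⟨hv, ha⟩]
        obtain ⟨a, ha⟩ := ha
        rw [Finset.sum_eq_single a, ind_pos ha]
        · intro a' _ hne
          exact ind_neg fun h => hne (hu v hv _ _ h ha)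
        · intro h
          exact absurd (Finset.mem_univ a) h
      · rw [ind_neg (P := fun v => v ∉ Bad ∧ ∃ a, P a v) (fun h => ha h.2)]
        push Not at ha
        exact (Finset.sum_eq_zero fun a _ => ind_neg (ha a)).le

theorem swap_ht {E : Type} [Field E] [NumberField E] (T : E) :
    logHeight ![T, 1] = logHeight ![1, T] := Height.logHeight_swap T 1

/-- the value of the exceptional form -/
theorem phi_ne {k K : Type} [Field k] [Field K] [Algebra k K] {Φ : MvPolynomial (Fin M) k} {mΦ : ℕ}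
    (hΦh : Φ.IsHomogeneous mΦ) (c : Fin M → Fin (d + 1) → K) (r : K)
    (hz : ∃ z, aeval (pc c z) Φ ≠ 0) : aeval (cpol r c) Φ ≠ 0 := by
  intro h0
  obtain ⟨z, hz⟩ := hz
  apply hz
  by_cases hzr : z 0 - r * z 1 = 0
  · have e1 : z = fun i => z 1 * ![r, 1] i := by
      funext i
      fin_cases i
      · show z 0 = z 1 * r
        linear_combination hzr
      · simp
    have e2 := aeval_top hΦh (cpol r c) (fun l => cpol_deg _ _ l)
    rw [h0, Polynomial.coeff_zero] at e2
    have e3 : (fun l => (cpol r c l).coeff d) = pc c ![r, 1] := by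
      funext l
      exact cpol_coeff _ _ _
    rw [e3] at e2
    rw [e1, pc_smul, aeval_hom hΦh, ← e2, mul_zero]
  · set a' := z 0 - r * z 1 with ha'
    have e1 : z = fun i => a' * ![r * (z 1 / a') + 1, z 1 / a'] i := by
      funext i
      fin_cases i
      · show z 0 = a' * (r * (z 1 / a') + 1)
        field_simp
        rw [ha']
        ring
      · show z 1 = a' * (z 1 / a')
        field_simp
    have e2 := congrArg (Polynomial.eval (z 1 / a')) h0
    rw [aeval_eval, Polynomial.eval_zero] at e2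
    have e3 : (fun l => (cpol r c l).eval (z 1 / a')) =
        pc c ![r * (z 1 / a') + 1, z 1 / a'] := by
      funext l
      exact cpol_eval _ _ _ _
    rw [e3] at e2
    conv_lhs => rw [e1]
    rw [pc_smul, aeval_hom hΦh, e2, mul_zero]

/-- **the data of a fixed curve** -/
theorem fixed_r {k : Type} [Field k] [NumberField k] {G : Fin g → MvPolynomial (Fin M) k}
    (hsm : Sm (n' + 1) G) {F : Fin q → Fin w → MvPolynomial (Fin M) k} {δ : Fin q → ℕ}
    (hF : ∀ i j, (F i j).IsHomogeneous (δ i)) (hd0 : 1 ≤ d)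
    {Φ : MvPolynomial (Fin M) k} {mΦ : ℕ} (hΦh : Φ.IsHomogeneous mΦ)
    {L E : Type} [Field L] [NumberField L] [Algebra k L] [Field E] [NumberField E] [Algebra k E]
    [Algebra L E] [IsScalarTower k L E]
    (hgeo : GeoP E n' G F d (∑ i, δ i * d) Φ) (c : Fin M → Fin (d + 1) → L)
    (hc : CurveOK G F fun l m => algebraMap L E (c l m))
    (hz : ∃ z, aeval (pc c z) Φ ≠ 0) (r : ℕ)
    (hr : ∀ i, ∃ j, aeval (pc c ![(r : L), 1]) (F i j) ≠ 0) :
    ∃ (ν : ℕ) (b : Fin ν → E), Function.Injective b ∧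
      (∃ C : ℝ, ∀ T : L, (∀ i, ∃ j, aeval (pc c ![(r : L) * T + 1, T]) (F i j) ≠ 0) →
        (∀ a, algebraMap L E T ≠ b a) ∧
        (d : ℝ) * logHeight ![1, T] ≤ logHeight (pc c ![(r : L) * T + 1, T]) + C ∧
        ∀ A, IsTB (p := n' + 2) G (pc c ![(r : L) * T + 1, T]) A →
        logHeight (mv A) - (n' + 2) * logHeight (pc c ![(r : L) * T + 1, T]) +
          ∑ i, ((δ i : ℝ) * logHeight (pc c ![(r : L) * T + 1, T]) -
            logHeight (fun j => aeval (pc c ![(r : L) * T + 1, T]) (F i j))) ≤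
          ((ν : ℝ) - 2) * logHeight ![1, T] + C) ∧
      ∀ S : Finset (HeightOneSpectrum (𝓞 L)), ∃ (S' : Finset (HeightOneSpectrum (𝓞 E))) (C : ℝ),
        ∀ T : L, (∀ i, ∃ j, aeval (pc c ![(r : L) * T + 1, T]) (F i j) ≠ 0) →
        (∑ a, Pool.Agent.Q290.NF.wt (fun v => v ∉ S' ∧
          Meet ![b a, 1] ![algebraMap L E T, 1] v)) ≤
          finrank L E * Pool.Agent.Q290.NF.wt (fun v => v ∉ S ∧
            DM F δ (pc c ![(r : L) * T + 1, T]) v) + C := by
  classical
  set c' : Fin M → Fin (d + 1) → E := fun l m => algebraMap L E (c l m) with hc'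
  set r' : E := (r : E) with hr'
  have hinj := (algebraMap L E).injective
  have hrr : algebraMap L E (r : L) = r' := map_natCast _ _
  have hmap : ∀ T : L, pc c' ![r' * algebraMap L E T + 1, algebraMap L E T] =
      fun l => algebraMap L E (pc c ![(r : L) * T + 1, T] l) := by
    intro T
    rw [← pc_map]
    congr 1
    funext i
    fin_cases i
    · show r' * algebraMap L E T + 1 = algebraMap L E ((r : L) * T + 1)
      rw [map_add, map_mul, map_one, hrr]
    · rfl
  have hmap2 : pc c' ![r', 1] = fun l => algebraMap L E (pc c ![(r : L), 1] l) := by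
    rw [← pc_map]
    congr 1
    funext i
    fin_cases i
    · exact hrr.symm
    · exact (map_one _).symm
  have hr2 : ∀ i, ∃ j, aeval (pc c' ![r', 1]) (F i j) ≠ 0 := by
    intro i
    obtain ⟨j, hj⟩ := hr i
    refine ⟨j, ?_⟩
    rw [hmap2, aeval_am]
    exact (map_ne_zero _).2 hj
  have hz2 : ∃ z, aeval (pc c' z) Φ ≠ 0 := by
    obtain ⟨z, hz⟩ := hz
    refine ⟨fun i => algebraMap L E (z i), ?_⟩
    have h1 : pc c' (fun i => algebraMap L E (z i)) = fun l => algebraMap L E (pc c z l) :=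
      pc_map _ _ _
    rw [h1, aeval_am]
    exact (map_ne_zero _).2 hz
  obtain ⟨ν, b, m, Q, hcro⟩ := exists_cro (G := G) hF hc r' hr2
  set φ : Fin M → Polynomial E := cpol r' c' with hφ
  have hφd : ∀ l, (φ l).natDegree ≤ d := fun l => cpol_deg r' c' l
  have htop : Ideal.span (Set.range φ) = ⊤ := hc.top r'
  have hlead : ∃ l, (φ l).coeff d ≠ 0 := hc.lead r'
  have hφT : ∀ T : E, (fun l => (φ l).eval T) = pc c' ![r' * T + 1, T] := by
    intro T
    funext l
    exact cpol_eval r' c' T l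
  have hφL : ∀ T : L, (fun l => (φ l).eval (algebraMap L E T)) =
      fun l => algebraMap L E (pc c ![(r : L) * T + 1, T] l) := by
    intro T
    rw [hφT, hmap]
  obtain ⟨hle, Γ, hΓ⟩ := hgeo ν hcro.hν φ hφd (wronskian_ne φ hd0 hφd htop hlead)
    (fun i => hc.poly r' i) (phi_ne hΦh c' r' hz2) b hcro.inj (fun a => by
      have h1 := hc.nz E ![r' * b a + 1, b a] (vec_ne _ _)
      obtain ⟨l, hl⟩ := Function.ne_iff.1 h1
      exact ⟨l, by rw [hφ, cpol_eval]; exact hl⟩) m hcro.hm (fun a i j => by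
      rw [hcro.fac i j]
      exact Dvd.dvd.mul_right (Finset.dvd_prod_of_mem _ (Finset.mem_univ a)) _)
  obtain ⟨C, hC⟩ := hcro.heights hsm hF hφd htop hlead hle hΓ
  obtain ⟨Bad, hBad, hgood⟩ := hcro.good hF hφd htop hlead
  have hf : (0 : ℝ) < finrank L E := by exact_mod_cast finrank_pos
  have hf1 : (1 : ℝ) ≤ finrank L E := by
    have : 0 < finrank L E := finrank_pos
    exact_mod_cast this
  have hFx : ∀ T : L, (∀ i, ∃ j, aeval (pc c ![(r : L) * T + 1, T]) (F i j) ≠ 0) →
      ∀ i, ∃ j, aeval (fun l => (φ l).eval (algebraMap L E T)) (F i j) ≠ 0 := by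
    intro T hT i
    obtain ⟨j, hj⟩ := hT i
    refine ⟨j, ?_⟩
    rw [hφL, aeval_am]
    exact (map_ne_zero _).2 hj
  have hx0 : ∀ T : L, pc c ![(r : L) * T + 1, T] ≠ 0 := by
    intro T h0
    have h1 := ev_ne_field φ htop (algebraMap L E T)
    apply h1
    rw [hφL, h0]
    funext l
    exact map_zero _
  have e12 : ∀ T : L, logHeight (![1, algebraMap L E T] : Fin 2 → E) =
      finrank L E * logHeight (![1, T] : Fin 2 → L) := by
    intro T
    have h1 : (![1, algebraMap L E T] : Fin 2 → E) = fun i => algebraMap L E (![1, T] i) := by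
      funext i
      fin_cases i
      · exact (map_one _).symm
      · rfl
    rw [h1]
    exact Pool.Agent.Helper259.HtExt.logHeight_ext (K := L) (L := E) _
  have e13 : ∀ T : L, logHeight (fun l => (φ l).eval (algebraMap L E T)) =
      finrank L E * logHeight (pc c ![(r : L) * T + 1, T]) := by
    intro T
    rw [hφL]
    exact Pool.Agent.Helper259.HtExt.logHeight_ext (K := L) (L := E) _
  have e14 : ∀ (T : L) i, logHeight (fun j => aeval (fun l => (φ l).eval (algebraMap L E T))
      (F i j)) = finrank L E * logHeight (fun j => aeval (pc c ![(r : L) * T + 1, T]) (F i j)) := by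
    intro T i
    have h1 : (fun j => aeval (fun l => (φ l).eval (algebraMap L E T)) (F i j)) =
        fun j => algebraMap L E (aeval (pc c ![(r : L) * T + 1, T]) (F i j)) := by
      funext j
      rw [hφL, aeval_am]
    rw [h1]
    exact Pool.Agent.Helper259.HtExt.logHeight_ext (K := L) (L := E) _
  refine ⟨ν, b, hcro.inj, ⟨|C|, fun T hT => ⟨hcro.ne (algebraMap L E T) (hFx T hT), ?_, ?_⟩⟩, ?_⟩
  · have h1 := (hC (algebraMap L E T) (fun i => by
      rw [hφT]
      exact hc.onX _ i) (hFx T hT)).1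
    rw [e12, e13] at h1
    have h2 : (finrank L E : ℝ) * (d * logHeight ![1, T]) ≤
        finrank L E * (logHeight (pc c ![(r : L) * T + 1, T]) + |C|) := by
      have := le_abs_self C
      have := abs_nonneg C
      nlinarith
    exact le_of_mul_le_mul_left h2 hf
  · intro A hA
    have h1 := (hC (algebraMap L E T) (fun i => by
      rw [hφT]
      exact hc.onX _ i) (hFx T hT)).2 (fun l c => algebraMap L E (A l c)) (by
      rw [hφL]
      exact IsTB_map G _ A hA)
    have e1 : logHeight (mv (fun l c => algebraMap L E (A l c))) =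
        finrank L E * logHeight (mv A) := by
      have : mv (fun l c => algebraMap L E (A l c)) = fun J => algebraMap L E (mv A J) := by
        funext J
        exact mv_map A J
      rw [this]
      exact Pool.Agent.Helper259.HtExt.logHeight_ext (K := L) (L := E) (mv A)
    rw [e12, e13, e1] at h1
    simp only [e14] at h1
    have h3 : ∑ i, ((δ i : ℝ) * (finrank L E * logHeight (pc c ![(r : L) * T + 1, T])) -
        finrank L E * logHeight (fun j => aeval (pc c ![(r : L) * T + 1, T]) (F i j))) =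
        finrank L E * ∑ i, ((δ i : ℝ) * logHeight (pc c ![(r : L) * T + 1, T]) -
          logHeight (fun j => aeval (pc c ![(r : L) * T + 1, T]) (F i j))) := by
      rw [Finset.mul_sum]
      exact Finset.sum_congr rfl fun i _ => by ring
    rw [h3] at h1
    have h4 := le_abs_self C
    have h5 := abs_nonneg C
    set Sg := ∑ i, ((δ i : ℝ) * logHeight (pc c ![(r : L) * T + 1, T]) -
          logHeight (fun j => aeval (pc c ![(r : L) * T + 1, T]) (F i j))) with hSg
    have h2 : (finrank L E : ℝ) * (logHeight (mv A) - (n' + 2) *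
        logHeight (pc c ![(r : L) * T + 1, T]) + Sg) ≤
        finrank L E * (((ν : ℝ) - 2) * logHeight ![1, T] + |C|) := by
      nlinarith
    exact le_of_mul_le_mul_left h2 hf
  · intro S
    set S' : Finset (HeightOneSpectrum (𝓞 E)) := S.biUnion fun v => (over_fin E v).toFinset
      with hS'
    refine ⟨S', ν * Pool.Agent.Q290.NF.wt (fun v => v ∈ Bad), fun T hT => ?_⟩
    have hTb := hcro.ne (algebraMap L E T) (hFx T hT)
    have hmf : ∀ a, {v | v ∉ S' ∧ Meet ![b a, 1] ![algebraMap L E T, 1] v}.Finite := by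
      intro a
      refine (meet_fin (a := ![b a, 1]) (x := ![algebraMap L E T, 1]) ?_).subset fun v hv => hv.2
      simp only [Matrix.cons_val_zero, Matrix.cons_val_one, mul_one, one_mul]
      exact sub_ne_zero.2 (hTb a)
    have h1 := sum_wt_le (fun a v => v ∉ S' ∧ Meet ![b a, 1] ![algebraMap L E T, 1] v) hmf Bad
      hBad (fun v hv a a' ha ha' => (hgood v hv (algebraMap L E T)).2 a a' (Mt_of_meet ha.2)
        (Mt_of_meet ha'.2))
    have hDMf : {v | v ∉ S ∧ DM F δ (pc c ![(r : L) * T + 1, T]) v}.Finite :=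
      (DM_fin (hx0 T) hT).subset fun v hv => hv.2
    have h2 := (cnt_ext (L := L) (E := E)
      (fun v => v ∉ S ∧ DM F δ (pc c ![(r : L) * T + 1, T]) v) hDMf
      (fun v => v ∉ Bad ∧ ∃ a, v ∉ S' ∧ Meet ![b a, 1] ![algebraMap L E T, 1] v) (by
        rintro Q ⟨hQ, a, hQS, hQm⟩
        obtain ⟨v, hv⟩ := exists_under (L := L) Q
        refine ⟨v, ⟨fun hvS => hQS ?_, ?_⟩, hv⟩
        · rw [hS', Finset.mem_biUnion]
          exact ⟨v, hvS, mem_over.2 hv⟩
        · refine DM_over (E := E) (hx0 T) hv ?_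
          have h3 := (hgood Q hQ (algebraMap L E T)).1 a (Mt_of_meet hQm)
          rw [hφL] at h3
          exact h3)).2
    linarith

end Pool.Agent.H432.TC
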