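import Mathlib
import Pool.Agent.H432.TC.Abc

/-!
The truncated inequality on the rational curves of bounded degree.
-/

set_option autoImplicit false
set_option linter.unusedSectionVars false

namespace Pool.Agent.H432.TC

open NumberField IsDedekindDomain Height Module MvPolynomial Pool.Agent.N750 Pool.Agent.H432.RC
open Pool.Agent.W180.OP (Pl av nrm le_nrm nrm_pos wt_nonneg exists_nrm nrm_nonneg)
open Pool.Agent.Q290.NF (ell ell_pos ind ind_pos ind_neg ind_nonneg supp_sub)
open Pool.Agent.Results.MP_4d5ce1_nt.ThinSetsSuffice (AllPoints Inequality counting Meet meet_fin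
  counting_eq)

variable {M g q w n' d : ℕ}

/-- morphisms from the line to the variety -/
structure RC0 {k L : Type} [Field k] [Field L] [Algebra k L]
    (G : Fin g → MvPolynomial (Fin M) k) (c : Fin M → Fin (d + 1) → L) : Prop where
  nz : ∀ (Ω : Type) [Field Ω] [Algebra L Ω] (z : Fin 2 → Ω), z ≠ 0 →
    pc (fun l m => algebraMap L Ω (c l m)) z ≠ 0
  onX : ∀ (Ω : Type) [Field Ω] [Algebra k Ω] [Algebra L Ω] [IsScalarTower k L Ω]
    (z : Fin 2 → Ω) (i : Fin g), aeval (pc (fun l m => algebraMap L Ω (c l m)) z) (G i) = 0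

/-- **an extension over which the crossings are rational** -/
theorem exists_E {k L : Type} [Field k] [NumberField k] [Field L] [NumberField L] [Algebra k L]
    {G : Fin g → MvPolynomial (Fin M) k}
    {F : Fin q → Fin w → MvPolynomial (Fin M) k} {δ : Fin q → ℕ}
    (hF : ∀ i j, (F i j).IsHomogeneous (δ i)) {c : Fin M → Fin (d + 1) → L}
    (hc : RC0 G c) (hD : ∃ z : Fin 2 → L, z ≠ 0 ∧ ∀ i, ∃ j, aeval (pc c z) (F i j) ≠ 0) :
    ∃ (E : Type) (_ : Field E) (_ : NumberField E) (_ : Algebra k E) (_ : Algebra L E)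
      (_ : IsScalarTower k L E), CurveOK G F (fun l m => algebraMap L E (c l m)) := by
  classical
  obtain ⟨z0, hz0, hz0F⟩ := hD
  obtain ⟨r, -, hr⟩ := exists_r c z0 hz0 F δ hF hz0F
  set φ := cpol (r.1 : L) c with hφ
  have hφd : ∀ l, (φ l).natDegree ≤ d := fun l => cpol_deg _ c l
  have hlead : ∀ i, ∃ j, (aeval φ (F i j)).coeff (δ i * d) ≠ 0 := by
    intro i
    obtain ⟨j, hj⟩ := hr i
    refine ⟨j, ?_⟩
    rw [aeval_top (hF i j) φ hφd]
    have h1 : (fun l => (φ l).coeff d) = pc c ![(r.1 : L), 1] := by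
      funext l
      exact cpol_coeff _ c l
    rw [h1]
    exact hj
  have hgcd : ∀ i, ∃ (p : Polynomial L) (Q a : Fin w → Polynomial L), p.Monic ∧
      (∀ j, aeval φ (F i j) = p * Q j) ∧ ∑ j, a j * aeval φ (F i j) = p ∧
      Ideal.span (Set.range Q) = ⊤ := by
    intro i
    refine exists_gcd (fun j => aeval φ (F i j)) ?_
    obtain ⟨j, hj⟩ := hlead i
    exact ⟨j, fun h => hj (by rw [h, Polynomial.coeff_zero])⟩
  choose P Q a hPm hPQ hPa hQtop using hgcd
  set R : Polynomial L := ∏ i, P i with hR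
  have hRm : R.Monic := Polynomial.monic_prod_of_monic _ _ fun i _ => hPm i
  let E := R.SplittingField
  have hEN : NumberField E := NumberField.of_module_finite L E
  have htow : IsScalarTower k L E := inferInstance
  have hsp : (R.map (algebraMap L E)).Splits := Polynomial.SplittingField.splits R
  refine ⟨E, inferInstance, hEN, inferInstance, inferInstance, htow, ?_, ?_, ?_⟩
  · intro Ω _ _ z hz
    let _ : Algebra L Ω := ((algebraMap E Ω).comp (algebraMap L E)).toAlgebra
    exact hc.nz Ω z hz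
  · intro z i
    exact hc.onX E z i
  · intro Ω _ _ _ _ z hz i hzF
    let _ : Algebra L Ω := ((algebraMap E Ω).comp (algebraMap L E)).toAlgebra
    have htow2 : IsScalarTower L E Ω := IsScalarTower.of_algebraMap_eq fun x => rfl
    have htow3 : IsScalarTower k L Ω := IsScalarTower.of_algebraMap_eq fun x => by
      rw [IsScalarTower.algebraMap_apply k E Ω, IsScalarTower.algebraMap_apply k L E]
      rfl
    have hzF' : ∀ j, aeval (pc (fun l m => algebraMap L Ω (c l m)) z) (F i j) = 0 := hzF
    have hcomm : ∀ (x : Fin M → L) (Pm : MvPolynomial (Fin M) k),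
        aeval (fun l => algebraMap L Ω (x l)) Pm = algebraMap L Ω (aeval x Pm) :=
      fun x Pm => aeval_algebraMap_apply Ω x Pm
    by_cases hzr : z 0 - (r.1 : Ω) * z 1 = 0
    · exfalso
      have hz1 : z 1 ≠ 0 := by
        intro h1
        apply hz
        funext x
        fin_cases x
        · rw [h1, mul_zero, sub_zero] at hzr
          exact hzr
        · exact h1
      obtain ⟨j, hj⟩ := hr i
      have e1 : z = fun x => z 1 * (fun y => algebraMap L Ω (![(r.1 : L), 1] y)) x := by
        funext x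
        fin_cases x
        · show z 0 = z 1 * algebraMap L Ω (r.1 : L)
          rw [map_natCast]
          linear_combination hzr
        · show z 1 = z 1 * algebraMap L Ω 1
          rw [map_one, mul_one]
      have e2 := hzF' j
      rw [e1, pc_smul, RC.aeval_hom (hF i j)] at e2
      have e3 : pc (fun l m => algebraMap L Ω (c l m)) (fun y => algebraMap L Ω
          (![(r.1 : L), 1] y)) = fun l => algebraMap L Ω (pc c ![(r.1 : L), 1] l) := pc_map _ _ _
      rw [e3, hcomm] at e2
      rcases mul_eq_zero.1 e2 with e4 | e4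
      · exact pow_ne_zero _ (pow_ne_zero _ hz1) e4
      · exact hj ((map_eq_zero _).1 e4)
    · set a' := z 0 - (r.1 : Ω) * z 1 with ha'
      set T : Ω := z 1 / a' with hT
      have e1 : z = fun x => a' * ![(r.1 : Ω) * T + 1, T] x := by
        funext x
        fin_cases x
        · show z 0 = a' * ((r.1 : Ω) * T + 1)
          rw [hT]
          field_simp
          rw [ha']
          ring
        · show z 1 = a' * T
          rw [hT]
          field_simp
      have e2 : ∀ j, Polynomial.aeval T (aeval φ (F i j)) = 0 := by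
        intro j
        have f1 := hzF' j
        rw [e1, pc_smul, RC.aeval_hom (hF i j)] at f1
        have f2 := (mul_eq_zero.1 f1).resolve_left (pow_ne_zero _ (pow_ne_zero _ hzr))
        have h2 := MvPolynomial.comp_aeval_apply φ
          ((Polynomial.aeval T : Polynomial L →ₐ[L] Ω).restrictScalars k) (F i j)
        have h3 : (fun l => ((Polynomial.aeval T : Polynomial L →ₐ[L] Ω).restrictScalars k)
            (φ l)) = pc (fun l m => algebraMap L Ω (c l m)) ![(r.1 : Ω) * T + 1, T] := by
          funext l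
          have h4 := cpol_aeval (r.1 : L) c T l
          rw [map_natCast] at h4
          exact h4
        rw [h3, f2] at h2
        exact h2
      have e3 : Polynomial.aeval T (P i) = 0 := by
        rw [← hPa i, map_sum]
        refine Finset.sum_eq_zero fun j _ => ?_
        rw [map_mul, e2, mul_zero]
      have e4 : Polynomial.aeval T R = 0 := by
        rw [hR, map_prod]
        exact Finset.prod_eq_zero (Finset.mem_univ i) e3
      have e5 : Polynomial.aeval T (R.map (algebraMap L E)) = 0 := by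
        rw [Polynomial.aeval_map_algebraMap]
        exact e4
      obtain ⟨t, ht⟩ : ∃ t : E, algebraMap E Ω t = T := by
        refine Polynomial.Splits.mem_range_of_isRoot (f := R.map (algebraMap L E))
          (i := algebraMap E Ω) hsp ((hRm.map _).ne_zero) ?_
        rw [Polynomial.IsRoot.def, Polynomial.eval_map_algebraMap]
        exact e5
      refine ⟨![(r.1 : E) * t + 1, t], a', ?_⟩
      conv_lhs => rw [e1]
      funext x
      congr 1
      fin_cases x
      · show (r.1 : Ω) * T + 1 = algebraMap E Ω ((r.1 : E) * t + 1)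
        rw [map_add, map_mul, map_one, map_natCast, ht]
      · exact ht.symm

/-- **the inequality for a fixed curve** -/
theorem curve_abc {k : Type} [Field k] [NumberField k] {G : Fin g → MvPolynomial (Fin M) k}
    {e : Fin g → ℕ} (hG : ∀ i, (G i).IsHomogeneous (e i))
    (hsm : Sm (n' + 1) G) {F : Fin q → Fin w → MvPolynomial (Fin M) k} {δ : Fin q → ℕ}
    (hF : ∀ i j, (F i j).IsHomogeneous (δ i)) (hd0 : 1 ≤ d)
    {Φ : MvPolynomial (Fin M) k} {mΦ : ℕ} (hΦh : Φ.IsHomogeneous mΦ)
    {L E : Type} [Field L] [NumberField L] [Algebra k L] [Field E] [NumberField E] [Algebra k E]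
    [Algebra L E] [IsScalarTower k L E] (hall : AllPoints E)
    (hgeo : GeoP E n' G F d (∑ i, δ i * d) Φ) (c : Fin M → Fin (d + 1) → L)
    (hc : CurveOK G F fun l m => algebraMap L E (c l m))
    (hz : ∃ z, aeval (pc c z) Φ ≠ 0)
    (S : Finset (HeightOneSpectrum (𝓞 L))) (ε : ℝ) (hε : 0 < ε) :
    ∃ C : ℝ, ∀ s : Fin 2 → L, s ≠ 0 → (∀ i, ∃ j, aeval (pc c s) (F i j) ≠ 0) →
      ∀ A, IsTB (p := n' + 2) G (pc c s) A →
      logHeight (mv A) - (n' + 2) * logHeight (pc c s) +
        ∑ i, ((δ i : ℝ) * logHeight (pc c s) - logHeight (fun j => aeval (pc c s) (F i j))) ≤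
        Pool.Agent.Q290.NF.wt (fun v => v ∉ S ∧ DM F δ (pc c s) v) + ε * logHeight (pc c s) + C := by
  classical
  have hkey : ∀ r : ℕ, ∃ C : ℝ, (∀ i, ∃ j, aeval (pc c ![(r : L), 1]) (F i j) ≠ 0) →
      ∀ T : L, (∀ i, ∃ j, aeval (pc c ![(r : L) * T + 1, T]) (F i j) ≠ 0) →
      ∀ A, IsTB (p := n' + 2) G (pc c ![(r : L) * T + 1, T]) A →
      logHeight (mv A) - (n' + 2) * logHeight (pc c ![(r : L) * T + 1, T]) +
        ∑ i, ((δ i : ℝ) * logHeight (pc c ![(r : L) * T + 1, T]) -
          logHeight (fun j => aeval (pc c ![(r : L) * T + 1, T]) (F i j))) ≤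
        Pool.Agent.Q290.NF.wt (fun v => v ∉ S ∧ DM F δ (pc c ![(r : L) * T + 1, T]) v) +
          ε * logHeight (pc c ![(r : L) * T + 1, T]) + C := by
    intro r
    by_cases hr : ∀ i, ∃ j, aeval (pc c ![(r : L), 1]) (F i j) ≠ 0
    swap
    · exact ⟨0, fun h => absurd h hr⟩
    obtain ⟨ν, b, hb, ⟨C1, hC1⟩, hcnt⟩ := fixed_r (E := E) hsm hF hd0 hΦh hgeo c hc hz r hr
    obtain ⟨S', C2, hC2⟩ := hcnt S
    obtain ⟨C3, hC3⟩ := hall S' ν (fun a => ![b a, 1])
      (fun a h => one_ne_zero (congrFun h 1)) (fun i j hij => by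
        simp only [Matrix.cons_val_zero, Matrix.cons_val_one, mul_one, one_mul]
        exact sub_ne_zero.2 (hb.ne hij)) ε hε
    have hfE : (0 : ℝ) < finrank ℚ E := by exact_mod_cast finrank_pos
    have hfL : (0 : ℝ) < finrank L E := by exact_mod_cast finrank_pos
    refine ⟨C1 + ε * C1 + C2 / finrank L E + C3 * finrank ℚ E / finrank L E,
      fun _ T hT A hA => ?_⟩
    obtain ⟨hTb, h1, h2⟩ := hC1 T hT
    have h3 := hC3 ![algebraMap L E T, 1] (Set.mem_univ _)
      (fun h => one_ne_zero (congrFun h 1)) (fun a => by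
        simp only [Matrix.cons_val_zero, Matrix.cons_val_one, mul_one, one_mul]
        exact sub_ne_zero.2 (hTb a))
    rw [counting_eq S' (α := fun a => ![b a, 1]) (x := ![algebraMap L E T, 1]) (by
        intro a
        simp only [Matrix.cons_val_zero, Matrix.cons_val_one, mul_one, one_mul]
        exact sub_ne_zero.2 (hTb a))] at h3
    unfold Pool.Agent.Results.MP_4d5ce1_nt.ThinSetsSuffice.height at h3
    have e12 : logHeight (![algebraMap L E T, 1] : Fin 2 → E) =
        finrank L E * logHeight (![1, T] : Fin 2 → L) := by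
      rw [swap_ht]
      have h1 : (![1, algebraMap L E T] : Fin 2 → E) = fun i => algebraMap L E (![1, T] i) := by
        funext i
        fin_cases i
        · exact (map_one _).symm
        · rfl
      rw [h1]
      exact Pool.Agent.Helper259.HtExt.logHeight_ext (K := L) (L := E) _
    rw [e12] at h3
    have h4 := hC2 T hT
    set H := logHeight (![1, T] : Fin 2 → L) with hH
    set W := Pool.Agent.Q290.NF.wt (fun v => v ∉ S ∧ DM F δ (pc c ![(r : L) * T + 1, T]) v)
    set hx := logHeight (pc c ![(r : L) * T + 1, T]) with hhx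
    have hH0 : 0 ≤ H := logHeight_nonneg _
    have h5 : ((ν : ℝ) - 2 - ε) * (finrank L E * H) ≤ finrank L E * W + C2 +
        C3 * finrank ℚ E := by
      have h6 := mul_le_mul_of_nonneg_right h3 hfE.le
      rw [add_mul, div_mul_cancel₀ _ hfE.ne'] at h6
      have h7 : ((ν : ℝ) - 2 - ε) * (finrank L E * H / finrank ℚ E) * finrank ℚ E =
          ((ν : ℝ) - 2 - ε) * (finrank L E * H) := by
        field_simp
      rw [h7] at h6
      linarith
    have h8 : ((ν : ℝ) - 2 - ε) * H ≤ W + C2 / finrank L E + C3 * finrank ℚ E / finrank L E := by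
      have h9 : ((ν : ℝ) - 2 - ε) * H = ((ν : ℝ) - 2 - ε) * (finrank L E * H) / finrank L E := by
        field_simp
      rw [h9, div_le_iff₀ hfL]
      have h10 : (W + C2 / finrank L E + C3 * finrank ℚ E / finrank L E) * finrank L E =
          finrank L E * W + C2 + C3 * finrank ℚ E := by
        field_simp
      rw [h10]
      exact h5
    have h11 := h2 A hA
    have hd1 : (1 : ℝ) ≤ d := by exact_mod_cast hd0
    have h12 : H ≤ hx + C1 := by nlinarith
    have h13 : ε * H ≤ ε * hx + ε * C1 := by nlinarith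
    linarith
  choose C hC using hkey
  refine ⟨∑ r ∈ Finset.range (∑ i, δ i * d + 2), |C r|, fun s hs hsF A hA => ?_⟩
  obtain ⟨r, hr1, hr2⟩ := exists_r c s hs F δ hF hsF
  set a : L := s 0 - (r.1 : L) * s 1 with ha
  set T : L := s 1 / a with hT
  have hsy : pc c s = fun l => a ^ d * pc c ![(r.1 : L) * T + 1, T] l := by
    rw [← pc_smul]
    congr 1
    funext x
    fin_cases x
    · show s 0 = a * ((r.1 : L) * T + 1)
      rw [hT]
      field_simp
      rw [ha]
      ring
    · show s 1 = a * T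
      rw [hT]
      field_simp
  have had : a ^ d ≠ 0 := pow_ne_zero _ hr1
  have hyF : ∀ i, ∃ j, aeval (pc c ![(r.1 : L) * T + 1, T]) (F i j) ≠ 0 := by
    intro i
    obtain ⟨j, hj⟩ := hsF i
    refine ⟨j, fun h => hj ?_⟩
    rw [hsy, RC.aeval_hom (hF i j), h, mul_zero]
  have hAy : IsTB G (pc c ![(r.1 : L) * T + 1, T]) A := by
    refine ⟨hA.1, fun cc => ?_⟩
    have e1 := hA.2 cc
    rw [hsy, TS_smul hG _ had] at e1
    exact e1
  have h1 := hC r.1 hr2 T hyF A hAy
  have e1 : logHeight (pc c s) = logHeight (pc c ![(r.1 : L) * T + 1, T]) := by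
    rw [hsy]
    exact logHeight_smul_eq_logHeight (pc c ![(r.1 : L) * T + 1, T]) had
  have e2 : ∀ i, logHeight (fun j => aeval (pc c s) (F i j)) =
      logHeight (fun j => aeval (pc c ![(r.1 : L) * T + 1, T]) (F i j)) := by
    intro i
    have h2 : (fun j => aeval (pc c s) (F i j)) =
        (a ^ d) ^ δ i • fun j => aeval (pc c ![(r.1 : L) * T + 1, T]) (F i j) := by
      funext j
      rw [hsy, RC.aeval_hom (hF i j)]
      rfl
    rw [h2]
    exact logHeight_smul_eq_logHeight _ (pow_ne_zero _ had)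
  have e3 : (fun v => v ∉ S ∧ DM F δ (pc c s) v) =
      fun v => v ∉ S ∧ DM F δ (pc c ![(r.1 : L) * T + 1, T]) v := by
    funext v
    rw [hsy, DM_smul hF _ had]
  rw [e1, e3]
  simp only [e2]
  have h4 : C r.1 ≤ ∑ r ∈ Finset.range (∑ i, δ i * d + 2), |C r| :=
    (le_abs_self _).trans (Finset.single_le_sum (f := fun r => |C r|)
      (fun _ _ => abs_nonneg _) (Finset.mem_range.2 r.2))
  linarith

/-- **the inequality on the rational curves of bounded degree** -/
theorem main_tc {k : Type} [Field k] [NumberField k]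
    (G : Fin g → MvPolynomial (Fin M) k) (e : Fin g → ℕ)
    (hG : ∀ i, (G i).IsHomogeneous (e i)) (hI : (Ideal.span (Set.range G)).IsPrime)
    (hsm : Sm (n' + 1) G) (F : Fin q → Fin w → MvPolynomial (Fin M) k) (δ : Fin q → ℕ)
    (hF : ∀ i j, (F i j).IsHomogeneous (δ i)) (hnc : NCD G F) (D : ℕ) :
    ∃ (mΦ : ℕ) (Φ : MvPolynomial (Fin M) k), Φ.IsHomogeneous mΦ ∧
      Φ ∉ Ideal.span (Set.range G) ∧
    ∀ (L : Type) [Field L] [NumberField L] [Algebra k L],
    (∀ (E : Type) [Field E] [NumberField E] [Algebra L E], AllPoints E) →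
    ∀ d ≤ D, ∀ (c : Fin M → Fin (d + 1) → L), RC0 G c → (∃ z, aeval (pc c z) Φ ≠ 0) →
      (∃ z : Fin 2 → L, z ≠ 0 ∧ ∀ i, ∃ j, aeval (pc c z) (F i j) ≠ 0) →
    ∀ (S : Finset (HeightOneSpectrum (𝓞 L))) (ε : ℝ), 0 < ε →
    ∃ C : ℝ, ∀ s : Fin 2 → L, s ≠ 0 → (∀ i, ∃ j, aeval (pc c s) (F i j) ≠ 0) →
      ∀ A, IsTB (p := n' + 2) G (pc c s) A →
      logHeight (mv A) - (n' + 2) * logHeight (pc c s) +
        ∑ i, ((δ i : ℝ) * logHeight (pc c s) - logHeight (fun j => aeval (pc c s) (F i j))) ≤
        Pool.Agent.Q290.NF.wt (fun v => v ∉ S ∧ DM F δ (pc c s) v) +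
          ε * logHeight (pc c s) + C := by
  classical
  have hgeo : ∀ d : ℕ, ∃ (mΦ : ℕ) (Φ : MvPolynomial (Fin M) k), Φ.IsHomogeneous mΦ ∧
      Φ ∉ Ideal.span (Set.range G) ∧
      (1 ≤ d → GeoP (AlgebraicClosure k) n' G F d (∑ i, δ i * d) Φ) := by
    intro d
    by_cases hd : 1 ≤ d
    · obtain ⟨m, Φ, h1, h2, h3⟩ := exists_geoP (K := AlgebraicClosure k) G e hG hI hsm F δ hF hnc
        d (∑ i, δ i * d) hd
      exact ⟨m, Φ, h1, h2, fun _ => h3⟩
    · refine ⟨0, 1, MvPolynomial.isHomogeneous_one _ _, ?_, fun h => absurd h hd⟩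
      intro h
      exact hI.ne_top ((Ideal.eq_top_iff_one _).2 h)
  choose m Φ h1 h2 h3 using hgeo
  refine ⟨∑ d ∈ Finset.range (D + 1), m d, ∏ d ∈ Finset.range (D + 1), Φ d,
    MvPolynomial.IsHomogeneous.prod _ _ _ fun d _ => h1 d, ?_, ?_⟩
  · intro h
    rw [hI.prod_mem_iff] at h
    obtain ⟨d, -, hd⟩ := h
    exact h2 d hd
  intro L _ _ _ hall d hd c hc hz hD S ε hε
  obtain ⟨C4, hC4, hcrude⟩ := crude G e hG hsm
  rcases Nat.eq_zero_or_pos d with rfl | hd0
  · -- constant curves
    have hconst : ∀ z : Fin 2 → L, pc c z = pc c ![1, 1] := by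
      intro z
      funext l
      unfold pc
      refine Finset.sum_congr rfl fun m _ => ?_
      have hm0 : m.1 = 0 := by
        have := m.2
        omega
      rw [hm0]
      simp
    set x := pc c ![1, 1] with hx
    refine ⟨|C4 * logHeight x + finrank k L * C4 - (n' + 2) * logHeight x +
        ∑ i, ((δ i : ℝ) * logHeight x - logHeight (fun j => aeval x (F i j)))|,
      fun s hs hsF A hA => ?_⟩
    have hx0 : pc c s ≠ 0 := hc.nz L s hs
    have e2 := hcrude L (pc c s) hx0 (fun i => hc.onX L s i) A hA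
    rw [hconst s] at e2 ⊢
    have e3 := Pool.Agent.Q290.NF.wt_nonneg (fun v => v ∉ S ∧ DM F δ x v)
    have e4 := logHeight_nonneg x
    have e5 : 0 ≤ ε * logHeight x := by positivity
    have e6 := le_abs_self (C4 * logHeight x + finrank k L * C4 - (n' + 2) * logHeight x +
        ∑ i, ((δ i : ℝ) * logHeight x - logHeight (fun j => aeval x (F i j))))
    linarith
  · obtain ⟨E, hE1, hE2, hE3, hE4, hE5, hok⟩ := exists_E hF hc hD
    let _ : Algebra.IsAlgebraic k E := Algebra.IsAlgebraic.of_finite k E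
    have hemb : Nonempty (E →ₐ[k] AlgebraicClosure k) := ⟨IsAlgClosed.lift⟩
    refine curve_abc hG hsm hF hd0 (h1 d) (hall E) ((h3 d hd0).descend hemb.some) c hok ?_ S ε hε
    obtain ⟨z, hz⟩ := hz
    refine ⟨z, fun h => hz ?_⟩
    rw [map_prod]
    exact Finset.prod_eq_zero (Finset.mem_range.2 (Nat.lt_succ_of_le hd)) h

end Pool.Agent.H432.TC
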