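import Mathlib
import Pool.Agent.H432.TC.Main

/-!
The abc inequality and the truncated inequality on the line.
-/

set_option autoImplicit false
set_option linter.unusedSectionVars false

namespace Pool.Agent.H432.TC

open NumberField IsDedekindDomain Height Module MvPolynomial Pool.Agent.N750 Pool.Agent.H432.RC
open Pool.Agent.W180.OP (Pl av nrm le_nrm nrm_pos wt_nonneg exists_nrm nrm_nonneg)
open Pool.Agent.Q290.NF (ell ell_pos ind ind_pos ind_neg ind_nonneg supp_sub tv_zero tv)
open Pool.Agent.Results.MP_4d5ce1_nt.ThinSetsSuffice (AllPoints Inequality counting Meet meet_fin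
  counting_eq ThinPoints Thin)

/-- the primes at which the valuations of the coordinates are not all equal -/
def NE3 {K : Type} [Field K] [NumberField K] (P : Fin 3 → K) (v : HeightOneSpectrum (𝓞 K)) :
    Prop := ¬ ∀ i j, v.valuation K (P i) = v.valuation K (P j)

theorem NE3_fin {K : Type} [Field K] [NumberField K] {P : Fin 3 → K} (hP : ∀ i, P i ≠ 0) :
    {v | NE3 P v}.Finite := by
  have h1 : (⋃ i, {v : HeightOneSpectrum (𝓞 K) | v.valuation K (P i) < 1} ∪
      {v | 1 < v.valuation K (P i)}).Finite :=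
    Set.finite_iUnion fun i => (Pool.Agent.Q290.NF.fin_zero (hP i)).union
      (Pool.Agent.Q290.NF.fin_pole (P i))
  refine h1.subset fun v hv => ?_
  by_contra hcon
  simp only [Set.mem_iUnion, Set.mem_union, Set.mem_ofPred_eq, not_exists, not_or, not_lt] at hcon
  apply hv
  intro i j
  rw [le_antisymm (hcon i).2 (hcon i).1, le_antisymm (hcon j).2 (hcon j).1]

/-- **the abc inequality implies the inequality for all finite sets of points** -/
theorem abc_all {K : Type} [Field K] [NumberField K]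
    (habc : ∀ ε : ℝ, 0 < ε → ∃ C : ℝ, ∀ P : Fin 3 → K, P 0 + P 1 + P 2 = 0 →
      P 0 * P 1 * P 2 ≠ 0 → logHeight P / finrank ℚ K <
        (1 + ε) * (Pool.Agent.Q290.NF.wt (NE3 P) / finrank ℚ K) + C) : AllPoints K := by
  classical
  refine (Pool.Agent.Results.MP_4d5ce1_nt.ThinSetsSuffice.result K 0).2.1 ?_
  intro ε hε
  obtain ⟨C, hC⟩ := habc ε hε
  have hd : (0 : ℝ) < finrank ℚ K := by exact_mod_cast finrank_pos
  -- the linear map
  set A : Fin 2 × Fin 3 → K := fun x => ![![1, 0, 1/2], ![0, 0, 1/2]] x.1 x.2 with hA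
  set C1 : ℝ := totalWeight K * Real.log (Nat.card (Fin 3)) + logHeight A with hC1
  set C2 : ℝ := Pool.Agent.Q290.NF.wt (fun v : HeightOneSpectrum (𝓞 K) => v.valuation K 2 < 1)
    with hC2
  have hC20 : 0 ≤ C2 := Pool.Agent.Q290.NF.wt_nonneg _
  refine ⟨|C| + |C1| / finrank ℚ K + C2 / finrank ℚ K, ?_⟩
  rintro x ⟨u, rfl⟩ hx0 hxα
  have hu : (Polynomial.Chebyshev.T K ((2 : ℤ) ^ 0)).eval u = u := tv_zero u
  rw [hu] at hx0 hxα ⊢
  have h0 := hxα 0
  have h1 := hxα 1
  simp at h0 h1
  set P : Fin 3 → K := ![u - 1, -(u + 1), 2] with hP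
  have hP0 : P 0 = u - 1 := rfl
  have hP1 : P 1 = -(u + 1) := rfl
  have hP2 : P 2 = 2 := rfl
  have hne : ∀ i, P i ≠ 0 := by
    intro i
    fin_cases i
    · exact h0
    · exact neg_ne_zero.2 h1
    · exact two_ne_zero
  have h2 := hC P (by rw [hP0, hP1, hP2]; ring)
    (mul_ne_zero (mul_ne_zero (hne 0) (hne 1)) (hne 2))
  have h3 : logHeight (![u, 1] : Fin 2 → K) ≤ C1 + logHeight P := by
    have h4 := logHeight_linearMap_apply_le A P
    have h5 : (fun j => ∑ i, A (j, i) * P i) = ![u, 1] := by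
      funext j
      rw [Fin.sum_univ_three, hP0, hP1, hP2]
      fin_cases j
      · show (1 : K) * (u - 1) + 0 * -(u + 1) + 1 / 2 * 2 = u
        ring
      · show (0 : K) * (u - 1) + 0 * -(u + 1) + 1 / 2 * 2 = 1
        ring
    rw [h5] at h4
    exact h4
  have hsub : ∀ l, ({v : HeightOneSpectrum (𝓞 K) | v ∉ (∅ : Finset (HeightOneSpectrum (𝓞 K))) ∧
      Meet ((![![1, 1], ![-1, 1], ![1, 0]] : Fin 3 → Fin 2 → K) l) ![u, 1] v}).Finite := by
    intro l
    exact (meet_fin (hxα l)).subset fun v hv => hv.2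
  have h2f : {v : HeightOneSpectrum (𝓞 K) | v.valuation K 2 < 1}.Finite :=
    Pool.Agent.Q290.NF.fin_zero two_ne_zero
  have h6 : Pool.Agent.Q290.NF.wt (NE3 P) ≤ (∑ l : Fin 3, Pool.Agent.Q290.NF.wt
      (fun v : HeightOneSpectrum (𝓞 K) => v ∉ (∅ : Finset (HeightOneSpectrum (𝓞 K))) ∧
      Meet ((![![1, 1], ![-1, 1], ![1, 0]] : Fin 3 → Fin 2 → K) l) ![u, 1] v)) + C2 := by
    rw [Fin.sum_univ_three]
    refine (Pool.Agent.Q290.NF.wt_mono (Q := fun v => ((( v ∉ (∅ : Finset
      (HeightOneSpectrum (𝓞 K))) ∧ Meet ((![![1, 1], ![-1, 1], ![1, 0]] : Fin 3 → Fin 2 → K) 0)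
        ![u, 1] v) ∨ (v ∉ (∅ : Finset
      (HeightOneSpectrum (𝓞 K))) ∧ Meet ((![![1, 1], ![-1, 1], ![1, 0]] : Fin 3 → Fin 2 → K) 1)
        ![u, 1] v)) ∨ (v ∉ (∅ : Finset
      (HeightOneSpectrum (𝓞 K))) ∧ Meet ((![![1, 1], ![-1, 1], ![1, 0]] : Fin 3 → Fin 2 → K) 2)
        ![u, 1] v)) ∨ v.valuation K 2 < 1)
      ((((hsub 0).union (hsub 1)).union (hsub 2)).union h2f) fun v hv => ?_).trans ?_
    · by_contra hcon
      simp only [not_or, Finset.notMem_empty, not_false_eq_true, true_and] at hcon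
      obtain ⟨⟨⟨m0, m1⟩, m2⟩, m3⟩ := hcon
      unfold Meet at m0 m1 m2
      simp at m0 m1 m2
      rw [not_lt] at m3
      have n2 : v.valuation K 2 ≤ 1 := by
        have h7 : v.valuation K (algebraMap (𝓞 K) K 2) ≤ 1 := v.valuation_le_one 2
        rwa [map_ofNat] at h7
      have n3 : v.valuation K 2 = 1 := le_antisymm n2 m3
      have hu1 : v.valuation K u ≤ 1 := m2
      have k0 : v.valuation K (u - 1) = 1 := by
        refine le_antisymm ?_ ?_
        · refine ((v.valuation K).map_sub _ _).trans (max_le hu1 ?_)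
          rw [map_one]
        · exact m0.2
      have k1 : v.valuation K (u + 1) = 1 := by
        refine le_antisymm ?_ ?_
        · refine ((v.valuation K).map_add _ _).trans (max_le hu1 ?_)
          rw [map_one]
        · exact m1.2
      apply hv
      have k : ∀ i, v.valuation K (P i) = 1 := by
        intro i
        fin_cases i
        · exact k0
        · show v.valuation K (-(u + 1)) = 1
          rw [Valuation.map_neg]
          exact k1
        · exact n3
      intro i j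
      rw [k i, k j]
    · refine (Pool.Agent.Q290.NF.wt_or_le (((hsub 0).union (hsub 1)).union (hsub 2)) h2f).trans ?_
      refine add_le_add ?_ le_rfl
      refine (Pool.Agent.Q290.NF.wt_or_le ((hsub 0).union (hsub 1)) (hsub 2)).trans ?_
      refine add_le_add ?_ le_rfl
      exact Pool.Agent.Q290.NF.wt_or_le (hsub 0) (hsub 1)
  rw [counting_eq ∅ hxα]
  unfold Pool.Agent.Results.MP_4d5ce1_nt.ThinSetsSuffice.height
  set W := ∑ l : Fin 3, Pool.Agent.Q290.NF.wt
      (fun v : HeightOneSpectrum (𝓞 K) => v ∉ (∅ : Finset (HeightOneSpectrum (𝓞 K))) ∧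
      Meet ((![![1, 1], ![-1, 1], ![1, 0]] : Fin 3 → Fin 2 → K) l) ![u, 1] v) with hW
  set Hx := logHeight (![u, 1] : Fin 2 → K) with hHx
  set HP := logHeight P with hHP
  set R := Pool.Agent.Q290.NF.wt (NE3 P) with hR
  have hHP0 : 0 ≤ HP := logHeight_nonneg _
  have hHx0 : 0 ≤ Hx := logHeight_nonneg _
  have hR0 : 0 ≤ R := Pool.Agent.Q290.NF.wt_nonneg _
  have hW0 : 0 ≤ W := Finset.sum_nonneg fun l _ => Pool.Agent.Q290.NF.wt_nonneg _
  set D : ℝ := (finrank ℚ K : ℝ) with hD
  have e1 : HP < (1 + ε) * R + |C| * D := by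
    have e2 : HP / D < (1 + ε) * (R / D) + |C| := h2.trans_le (by
      have := le_abs_self C
      linarith)
    have e3 := mul_lt_mul_of_pos_right e2 hd
    have e4 : HP / D * D = HP := by field_simp
    have e5 : ((1 + ε) * (R / D) + |C|) * D = (1 + ε) * R + |C| * D := by field_simp
    rw [e4, e5] at e3
    exact e3
  have hC0 := abs_nonneg C
  have hC10 := abs_nonneg C1
  have hC11 := le_abs_self C1
  have e6 : (1 - ε) * Hx ≤ W + (|C| * D + |C1| + C2) := by
    by_cases hε1 : 1 ≤ ε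
    · have : (1 - ε) * Hx ≤ 0 := mul_nonpos_of_nonpos_of_nonneg (by linarith) hHx0
      have : 0 ≤ |C| * D := by positivity
      linarith
    · push Not at hε1
      have f1 : (1 - ε) * Hx ≤ (1 - ε) * HP + |C1| := by nlinarith
      have f2 : (1 - ε) * HP ≤ R + |C| * D := by
        have f3 : (1 - ε) * HP ≤ (1 - ε) * ((1 + ε) * R + |C| * D) :=
          mul_le_mul_of_nonneg_left e1.le (by linarith)
        have f4 : (1 - ε) * ((1 + ε) * R) ≤ R := by nlinarith [sq_nonneg ε]
        have f5 : 0 ≤ |C| * D := by positivity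
        nlinarith
      linarith
  have e7 : ((3 : ℕ) : ℝ) - 2 - ε = 1 - ε := by push_cast; ring
  rw [e7]
  have e8 : (1 - ε) * (Hx / D) = (1 - ε) * Hx / D := by ring
  have e9 : W / D + (|C| + |C1| / D + C2 / D) = (W + (|C| * D + |C1| + C2)) / D := by
    field_simp
  rw [e8, e9]
  exact div_le_div_of_nonneg_right e6 hd.le

end Pool.Agent.H432.TC
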