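import Mathlib
import Pool.Agent.H432.TC.Cnt

/-!
Counting functions in extensions: lower bounds.
-/

set_option autoImplicit false
set_option linter.unusedSectionVars false

namespace Pool.Agent.H432.TC

open NumberField IsDedekindDomain Height Module MvPolynomial Pool.Agent.N750 Pool.Agent.H432.RC
open Pool.Agent.W180.OP (Pl av nrm le_nrm nrm_pos wt_nonneg exists_nrm nrm_nonneg)
open Pool.Agent.Q290.NF (ell ell_pos ind ind_pos ind_neg ind_nonneg supp_sub)

variable {L E : Type} [Field L] [NumberField L] [Field E] [NumberField E] [Algebra L E]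

variable (L) in
/-- only finitely many primes are ramified -/
theorem ram_fin : {Q : HeightOneSpectrum (𝓞 E) |
    Q.asIdeal ∣ differentIdeal (𝓞 L) (𝓞 E)}.Finite := by
  have h0 : differentIdeal (𝓞 L) (𝓞 E) ≠ 0 := differentIdeal_ne_bot
  exact Ideal.finite_factors h0

theorem unram_val {v : HeightOneSpectrum (𝓞 L)} {Q : HeightOneSpectrum (𝓞 E)}
    (h : Q.asIdeal.LiesOver v.asIdeal) (hQ : ¬ Q.asIdeal ∣ differentIdeal (𝓞 L) (𝓞 E)) (x : L) :
    Q.valuation E (algebraMap L E x) = v.valuation L x := by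
  have h1 : Algebra.IsUnramifiedAt (𝓞 L) Q.asIdeal := not_dvd_differentIdeal_iff.1 hQ
  have h2 : v.asIdeal.ramificationIdx' Q.asIdeal = 1 := by
    rw [Ideal.ramificationIdx'_eq_ramificationIdx v.asIdeal Q.asIdeal v.ne_bot]
    exact Ideal.ramificationIdx_eq_one Q.asIdeal (𝓞 L)
  have h3 := HeightOneSpectrum.valuation_liesOver E v Q x
  rw [h2, pow_one] at h3
  exact h3.symm

/-- the norms of the primes above an unramified prime -/
theorem ell_ext_eq (v : HeightOneSpectrum (𝓞 L))
    (hv : ∀ Q : HeightOneSpectrum (𝓞 E), Q.asIdeal.LiesOver v.asIdeal →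
      ¬ Q.asIdeal ∣ differentIdeal (𝓞 L) (𝓞 E)) :
    ∑ Q ∈ (over_fin E v).toFinset, ell Q = finrank L E * ell v := by
  classical
  obtain ⟨π, hπ⟩ := v.valuation_exists_uniformizer L
  have hπ0 : π ≠ 0 := by
    rintro rfl
    rw [map_zero] at hπ
    exact absurd hπ.symm WithZero.coe_ne_zero
  have h1 := ef (L := E) (Sum.inr v : Pl L) π hπ0
  unfold ab at h1
  rw [Finset.sum_map] at h1
  have h2 : Real.log (av (Sum.inr v : Pl L) π) = -ell v := mk_unif v hπ
  rw [h2] at h1
  have h3 : Pool.Agent.W180.OP.wt (Sum.inr v : Pl L) = 1 := rfl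
  rw [h3, one_mul] at h1
  have h4 : ∑ Q ∈ (over_fin E v).toFinset, (Pool.Agent.W180.OP.wt (Sum.inr Q : Pl E) *
        Real.log (av (Sum.inr Q : Pl E) (algebraMap L E π))) =
      ∑ Q ∈ (over_fin E v).toFinset, -ell Q := by
    refine Finset.sum_congr rfl fun Q hQ => ?_
    have hQ' := mem_over.1 hQ
    have h5 : Pool.Agent.W180.OP.wt (Sum.inr Q : Pl E) = 1 := rfl
    rw [h5, one_mul]
    refine mk_unif Q ?_
    rw [unram_val hQ' (hv Q hQ'), hπ]
    rfl
  have h16 : ∑ Q ∈ (over_fin E v).toFinset, (Pool.Agent.W180.OP.wt (Sum.inr Q : Pl E) *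
        Real.log (av (Sum.inr Q : Pl E) (algebraMap L E π))) = finrank L E * -ell v := h1
  rw [h16, Finset.sum_neg_distrib] at h4
  linarith

/-- **sums over primes in an extension, lower bound** -/
theorem cnt_ext_ge : ∃ C : ℝ, 0 ≤ C ∧ ∀ (P : HeightOneSpectrum (𝓞 L) → Prop), {v | P v}.Finite →
    ∀ (W : HeightOneSpectrum (𝓞 E) → Prop), {Q | W Q}.Finite →
    (∀ Q v, P v → Q.asIdeal.LiesOver v.asIdeal → W Q) →
    finrank L E * Pool.Agent.Q290.NF.wt P ≤ Pool.Agent.Q290.NF.wt W + C := by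
  classical
  set R : Finset (HeightOneSpectrum (𝓞 L)) :=
    (ram_fin (E := E) L).toFinset.image fun Q => Q.under (𝓞 L) with hR
  refine ⟨∑ v ∈ R, finrank L E * ell v, Finset.sum_nonneg fun v _ =>
    mul_nonneg (Nat.cast_nonneg _) (ell_pos v).le, fun P hP W hW h => ?_⟩
  have h1 : Pool.Agent.Q290.NF.wt W = ∑ Q ∈ hW.toFinset, ell Q := by
    unfold Pool.Agent.Q290.NF.wt
    rw [finsum_eq_sum_of_support_subset (s := hW.toFinset) _ (by
      intro Q hQ
      rw [Finset.mem_coe, hW.mem_toFinset]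
      exact supp_sub W hQ)]
    refine Finset.sum_congr rfl fun Q hQ => ?_
    exact ind_pos (hW.mem_toFinset.1 hQ)
  have h2 : Pool.Agent.Q290.NF.wt P = ∑ v ∈ hP.toFinset, ell v := by
    unfold Pool.Agent.Q290.NF.wt
    rw [finsum_eq_sum_of_support_subset (s := hP.toFinset) _ (by
      intro Q hQ
      rw [Finset.mem_coe, hP.mem_toFinset]
      exact supp_sub P hQ)]
    refine Finset.sum_congr rfl fun Q hQ => ?_
    exact ind_pos (hP.mem_toFinset.1 hQ)
  rw [h1, h2, Finset.mul_sum, ← Finset.sum_filter_add_sum_filter_not hP.toFinset (· ∈ R)]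
  have h3 : ∑ v ∈ hP.toFinset.filter (· ∈ R), (finrank L E : ℝ) * ell v ≤
      ∑ v ∈ R, finrank L E * ell v := by
    refine Finset.sum_le_sum_of_subset_of_nonneg (fun v hv => (Finset.mem_filter.1 hv).2)
      fun v _ _ => mul_nonneg (Nat.cast_nonneg _) (ell_pos v).le
  have h4 : ∑ v ∈ hP.toFinset.filter (¬ · ∈ R), (finrank L E : ℝ) * ell v ≤
      ∑ Q ∈ hW.toFinset, ell Q := by
    calc ∑ v ∈ hP.toFinset.filter (¬ · ∈ R), (finrank L E : ℝ) * ell v =
        ∑ v ∈ hP.toFinset.filter (¬ · ∈ R), ∑ Q ∈ (over_fin E v).toFinset, ell Q := by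
          refine Finset.sum_congr rfl fun v hv => ?_
          refine (ell_ext_eq v fun Q hQ hd => (Finset.mem_filter.1 hv).2 ?_).symm
          rw [hR, Finset.mem_image]
          refine ⟨Q, (ram_fin (E := E) L).mem_toFinset.2 hd, ?_⟩
          have hu : Q.asIdeal.LiesOver (Q.under (𝓞 L)).asIdeal := ⟨rfl⟩
          exact Pool.Agent.TeamU.over_unique
            (Pool.Agent.TeamU.over_of_liesOver hu) (Pool.Agent.TeamU.over_of_liesOver hQ)
      _ = ∑ Q ∈ (hP.toFinset.filter (¬ · ∈ R)).biUnion fun v => (over_fin E v).toFinset,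
          ell Q := by
          refine (Finset.sum_biUnion ?_).symm
          intro v _ v' _ hne
          rw [Function.onFun, Finset.disjoint_left]
          intro Q hQ hQ'
          exact hne (Pool.Agent.TeamU.over_unique
            (Pool.Agent.TeamU.over_of_liesOver (mem_over.1 hQ))
            (Pool.Agent.TeamU.over_of_liesOver (mem_over.1 hQ')))
      _ ≤ ∑ Q ∈ hW.toFinset, ell Q := by
          refine Finset.sum_le_sum_of_subset_of_nonneg ?_ fun Q _ _ => (ell_pos Q).le
          intro Q hQ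
          obtain ⟨v, hv, hvQ⟩ := Finset.mem_biUnion.1 hQ
          exact hW.mem_toFinset.2 (h Q v (hP.mem_toFinset.1 (Finset.mem_filter.1 hv).1)
            (mem_over.1 hvQ))
  linarith

end Pool.Agent.H432.TC
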