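import Mathlib
import Pool.Agent.H432.TC.Unr
import Pool.Graph.R_pool_sql_team_seeded_2aa45f1a.Q290.NF.LineQ

/-!
The truncated inequality for the points over a field `L` and finitely many points over an extension.
-/

set_option autoImplicit false
set_option linter.unusedSectionVars false

namespace Pool.Agent.H432.TC

open NumberField IsDedekindDomain Height Module Polynomial
open Pool.Agent.Q290.NF

variable {L K : Type} [Field L] [NumberField L] [Field K] [NumberField K] [Algebra L K]

theorem val_lt_iff {v : HeightOneSpectrum (𝓞 L)} {Q : HeightOneSpectrum (𝓞 K)}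
    (h : Q.asIdeal.LiesOver v.asIdeal) (x : L) :
    Q.valuation K (algebraMap L K x) < 1 ↔ v.valuation L x < 1 := by
  have h1 := over_lt h (x := x) (y := 1)
  have h2 := mk_lt_iff (v := Q) (x := algebraMap L K x) (y := algebraMap L K 1)
  have h3 := mk_lt_iff (v := v) (x := x) (y := 1)
  rw [map_one (algebraMap L K), map_one (Q.valuation K)] at h2
  rw [map_one (v.valuation L)] at h3
  rw [map_one (algebraMap L K)] at h1
  exact h2.symm.trans (h1.trans h3)

theorem near_ext {v : HeightOneSpectrum (𝓞 L)} {Q : HeightOneSpectrum (𝓞 K)}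
    (h : Q.asIdeal.LiesOver v.asIdeal) (t : L) (ht : Near t v) : Near (algebraMap L K t) Q := by
  rcases ht with h1 | h1 | h1
  · exact Or.inl ((val_lt_iff h t).2 h1)
  · refine Or.inr (Or.inl ?_)
    have := (val_lt_iff h (t - 1)).2 h1
    rwa [map_sub, map_one] at this
  · refine Or.inr (Or.inr ?_)
    have := (val_lt_iff h (t + 1)).2 h1
    rwa [map_add, map_one] at this

theorem logHeight₁_ext (x : L) : logHeight₁ (algebraMap L K x) = finrank L K * logHeight₁ x := by
  rw [logHeight₁_eq_logHeight, logHeight₁_eq_logHeight]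
  have h1 : (![algebraMap L K x, 1] : Fin 2 → K) = fun i => algebraMap L K (![x, 1] i) := by
    funext i
    fin_cases i
    · rfl
    · exact (map_one _).symm
  rw [h1]
  exact Pool.Agent.Helper259.HtExt.logHeight_ext (K := L) (L := K) _

/-- **all points over `L` and finitely many points over `K`** -/
theorem line_e (A : Finset K)
    (hL : ∀ ε : ℝ, 0 < ε → ∃ C : ℝ, ∀ u : L, Gen u⁻¹ →
      (1 - ε) * logHeight₁ u⁻¹ ≤ wt (fun v => Near u⁻¹ v) + C) :
    ∀ ε : ℝ, 0 < ε → ∃ C : ℝ, ∀ T : L, algebraMap L K T ∉ A →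
      ((A.card : ℝ) - 1 - ε) * logHeight₁ (algebraMap L K T) ≤
        wt (fun v : HeightOneSpectrum (𝓞 K) => 1 < v.valuation K (algebraMap L K T)) +
          ∑ α ∈ A, wt (fun v : HeightOneSpectrum (𝓞 K) =>
            v.valuation K (algebraMap L K T - α) < 1) + C := by
  classical
  intro ε hε
  obtain ⟨f, R, G, M, hf, hR, ⟨Q, hQ⟩, hG0, hRG, hdeg⟩ := belyi_field K A
  obtain ⟨n, hn⟩ : ∃ n : ℕ, n = f.natDegree := ⟨_, rfl⟩
  rw [← hn] at hf hdeg
  have hn0 : (0 : ℝ) < n := by exact_mod_cast hf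
  obtain ⟨CE, hCE0, hCE⟩ := cnt_ext_ge (L := L) (E := K)
  have hfin : (0 : ℝ) < finrank L K := by exact_mod_cast finrank_pos
  -- the polynomials over `K`
  obtain ⟨F, hF⟩ : ∃ F : K[X], F = f.map (algebraMap ℚ K) := ⟨_, rfl⟩
  obtain ⟨D, hD⟩ : ∃ D : K[X], D = (derivative f).map (algebraMap ℚ K) := ⟨_, rfl⟩
  obtain ⟨Rk, hRk⟩ : ∃ Rk : K[X], Rk = R.map (algebraMap ℚ K) := ⟨_, rfl⟩
  obtain ⟨Qk, hQk⟩ : ∃ Qk : K[X], Qk = Q.map (algebraMap ℚ K) := ⟨_, rfl⟩
  have e1 : F * (F - 1) = D * Rk := by
    rw [hF, hD, hRk, ← Polynomial.map_mul, ← hR, Polynomial.map_mul, Polynomial.map_sub,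
      Polynomial.map_one]
  have e2 : Rk ^ M = D * Qk := by
    rw [hD, hRk, hQk, ← Polynomial.map_mul, ← hQ, Polynomial.map_pow]
  have e3 : Rk = (∏ α ∈ A, (X - C α)) * G := by rw [hRk]; exact hRG
  have hFd : F.natDegree = n := by rw [hF, natDegree_map, hn]
  obtain ⟨P, hP⟩ : ∃ P : K[X], P = C 2 * F - 1 := ⟨_, rfl⟩
  have hPd : P.natDegree = n := by
    rw [hP]
    have : (1 : K[X]) = C 1 := C_1.symm
    rw [this, natDegree_sub_C, natDegree_C_mul two_ne_zero, hFd]
  have hPe : ∀ x : K, P.eval x = 2 * F.eval x - 1 := by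
    intro x
    rw [hP, eval_sub, eval_mul, eval_C, eval_one]
  -- the constants
  obtain ⟨C0, hC0⟩ := hL (ε / n) (by positivity)
  obtain ⟨C2, hC2⟩ := poly_height_ge (P := P) (by rw [hPd]; exact hf)
  obtain ⟨C3, hC3⟩ := poly_height_le (P := G) le_rfl
  -- the bad primes
  obtain ⟨Bd, hBd⟩ : ∃ Bd : Set (HeightOneSpectrum (𝓞 K)), Bd =
    badP F ∪ badP D ∪ badP Rk ∪ badP Qk ∪ badP G ∪
      {v | 1 < v.valuation K (2 : K)⁻¹} ∪ ⋃ α ∈ A, badP (X - C α) := ⟨_, rfl⟩
  have hBdf : Bd.Finite := by
    rw [hBd]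
    refine (((((((badP_fin F).union (badP_fin D)).union (badP_fin Rk)).union (badP_fin Qk)).union
      (badP_fin G)).union (fin_pole _)).union ?_)
    exact Set.Finite.biUnion A.finite_toSet fun α _ => badP_fin _
  obtain ⟨CB, hCB⟩ : ∃ c : ℝ, c = wt (fun v : HeightOneSpectrum (𝓞 K) => v ∈ Bd) := ⟨_, rfl⟩
  have hCB0 : 0 ≤ CB := by rw [hCB]; exact wt_nonneg _
  -- the exceptional points
  obtain ⟨Z, hZ⟩ : ∃ Z : K[X], Z = F * (F - 1) * P * G := ⟨_, rfl⟩
  have hZ0 : Z ≠ 0 := by
    have h1 : F ≠ 0 := by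
      rintro h
      rw [h, natDegree_zero] at hFd
      omega
    have h2 : F - 1 ≠ 0 := by
      intro h
      rw [sub_eq_zero.1 h, natDegree_one] at hFd
      omega
    have h3 : P ≠ 0 := by
      rintro h
      rw [h, natDegree_zero] at hPd
      omega
    rw [hZ]
    exact mul_ne_zero (mul_ne_zero (mul_ne_zero h1 h2) h3) hG0
  obtain ⟨E, hE⟩ : ∃ E : Finset K, E = Z.roots.toFinset := ⟨_, rfl⟩
  obtain ⟨C4, hC4⟩ : ∃ c : ℝ, c = ∑ x ∈ E, |((A.card : ℝ) - 1 - ε) * logHeight₁ x| := ⟨_, rfl⟩
  have hC40 : 0 ≤ C4 := by rw [hC4]; exact Finset.sum_nonneg fun _ _ => abs_nonneg _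
  refine ⟨|C0| + |C2| + |C3| + CB + C4 + (CE + finrank L K * |C0|), ?_⟩
  have hcc : 0 ≤ CE + finrank L K * |C0| := by positivity
  intro T hxA
  obtain ⟨x, hxT⟩ : ∃ x : K, x = algebraMap L K T := ⟨_, rfl⟩
  rw [← hxT] at hxA ⊢
  have hwp := wt_nonneg (fun v : HeightOneSpectrum (𝓞 K) => 1 < v.valuation K x)
  have hws : 0 ≤ ∑ α ∈ A, wt (fun v : HeightOneSpectrum (𝓞 K) => v.valuation K (x - α) < 1) :=
    Finset.sum_nonneg fun α _ => wt_nonneg _
  have hh := zero_le_logHeight₁ x
  by_cases hxE : x ∈ E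
  · have h1 : |((A.card : ℝ) - 1 - ε) * logHeight₁ x| ≤ C4 := by
      rw [hC4]
      exact Finset.single_le_sum (f := fun x => |((A.card : ℝ) - 1 - ε) * logHeight₁ x|)
        (fun _ _ => abs_nonneg _) hxE
    have h2 := le_abs_self (((A.card : ℝ) - 1 - ε) * logHeight₁ x)
    have h3 := abs_nonneg C0
    have h4 := abs_nonneg C2
    have h5 := abs_nonneg C3
    linarith
  · have hZx : Z.eval x ≠ 0 := by
      intro h
      apply hxE
      rw [hE, Multiset.mem_toFinset, mem_roots hZ0]
      exact h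
    rw [hZ, eval_mul, eval_mul, eval_mul] at hZx
    have hG : G.eval x ≠ 0 := right_ne_zero_of_mul hZx
    have hPx : P.eval x ≠ 0 := right_ne_zero_of_mul (left_ne_zero_of_mul hZx)
    have hW := left_ne_zero_of_mul (left_ne_zero_of_mul hZx)
    have hFx : F.eval x ≠ 0 := left_ne_zero_of_mul hW
    have hF1 : (F - 1).eval x ≠ 0 := right_ne_zero_of_mul hW
    rw [eval_sub, eval_one] at hF1
    obtain ⟨y, hy⟩ : ∃ y : K, y = P.eval x := ⟨_, rfl⟩
    rw [← hy] at hPx
    have hy2 : y = 2 * F.eval x - 1 := by rw [hy, hPe]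
    have hgen : Gen y⁻¹ := by
      refine ⟨inv_ne_zero hPx, ?_, ?_⟩
      · intro h
        rw [inv_eq_one] at h
        apply hF1
        linear_combination (h - hy2) / 2
      · intro h
        have h1 : y = -1 := by rw [← inv_inv y, h, inv_neg, inv_one]
        apply hFx
        linear_combination (h1 - hy2) / 2
    -- the inequality over the ground field
    obtain ⟨yL, hyL⟩ : ∃ yL : L, yL = 2 * aeval T f - 1 := ⟨_, rfl⟩
    have hyy : algebraMap L K yL = y := by
      rw [hyL, hy2, hF, eval_map_algebraMap, hxT, aeval_algebraMap_apply, map_sub, map_mul,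
        map_one, map_ofNat]
    have hgenL : Gen yL⁻¹ := by
      obtain ⟨g1, g2, g3⟩ := hgen
      refine ⟨fun h => g1 ?_, fun h => g2 ?_, fun h => g3 ?_⟩
      · rw [← hyy, ← map_inv₀, h, map_zero]
      · rw [← hyy, ← map_inv₀, h, map_one]
      · rw [← hyy, ← map_inv₀, h, map_neg, map_one]
    have hdown : (1 - ε / n) * logHeight₁ y ≤ wt (fun v => Near y⁻¹ v) +
        (CE + finrank L K * |C0|) := by
      have h1 := hC0 yL hgenL
      have h2 := hCE (fun v => Near yL⁻¹ v) (fin_near hgenL) (fun v => Near y⁻¹ v)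
        (fin_near hgen) (fun Q v hv hQ => by
          have := near_ext (K := K) hQ yL⁻¹ hv
          rwa [map_inv₀, hyy] at this)
      have h3 : logHeight₁ y = finrank L K * logHeight₁ yL⁻¹ := by
        rw [← hyy, logHeight₁_inv, logHeight₁_ext]
      have h4 := mul_le_mul_of_nonneg_left h1 hfin.le
      have h5 : (finrank L K : ℝ) * C0 ≤ finrank L K * |C0| :=
        mul_le_mul_of_nonneg_left (le_abs_self C0) hfin.le
      rw [h3]
      have h6 : (1 - ε / n) * (finrank L K * logHeight₁ yL⁻¹) =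
          finrank L K * ((1 - ε / n) * logHeight₁ yL⁻¹) := by ring
      rw [h6]
      rw [mul_add] at h4
      linarith
    -- the primes
    have hnear : ∀ v : HeightOneSpectrum (𝓞 K), Near y⁻¹ v →
        (v ∈ Bd ∨ 1 < v.valuation K x) ∨ ((∃ α ∈ A, v.valuation K (x - α) < 1) ∨
          v.valuation K (G.eval x) < 1) := by
      intro v hv
      by_contra hcon
      rw [not_or, not_or, not_or, not_lt, not_lt] at hcon
      obtain ⟨⟨hb, hx1⟩, hα, hGv⟩ := hcon
      rw [hBd] at hb
      simp only [Set.mem_union, not_or] at hb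
      obtain ⟨⟨⟨⟨⟨⟨bF, bD⟩, bR⟩, bQ⟩, bG⟩, b2⟩, bA⟩ := hb
      have v2 : v.valuation K (2 : K) = 1 := by
        have e2 : v.valuation K (2 : K) ≤ 1 := by
          have h : v.valuation K (algebraMap (𝓞 K) K 2) ≤ 1 :=
            v.valuation_le_one (K := K) (2 : 𝓞 K)
          rwa [map_ofNat] at h
        refine le_antisymm e2 ?_
        rw [Set.mem_ofPred_eq, not_lt, map_inv₀] at b2
        have h0 : v.valuation K (2 : K) ≠ 0 := (Valuation.ne_zero_iff _).2 two_ne_zero
        exact (inv_le_one₀ (zero_lt_iff.2 h0)).1 b2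
      have vF := eval_le_one bF hx1
      have vR := eval_le_one bR hx1
      have vQ := eval_le_one bQ hx1
      have vF1 : v.valuation K (F.eval x - 1) ≤ 1 :=
        Valuation.map_sub_le _ vF (by rw [map_one])
      have vy : v.valuation K y ≤ 1 := by
        rw [hy2]
        refine Valuation.map_sub_le _ ?_ (by rw [map_one])
        rw [map_mul, v2, one_mul]
        exact vF
      have vy0 : v.valuation K y ≠ 0 := (Valuation.ne_zero_iff _).2 hPx
      have hW1 : v.valuation K (F.eval x * (F.eval x - 1)) < 1 := by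
        rw [map_mul]
        rcases hv with h | h | h
        · exfalso
          rw [map_inv₀] at h
          exact absurd ((inv_lt_one₀ (zero_lt_iff.2 vy0)).1 h) (not_lt.2 vy)
        · have e5 : y⁻¹ - 1 = -(2 * (F.eval x - 1)) / y := by
            field_simp
            rw [hy2]
            ring
          rw [e5, map_div₀, Valuation.map_neg, map_mul, v2, one_mul,
            div_lt_one₀ (zero_lt_iff.2 vy0)] at h
          exact mul_lt_one_of_nonneg_of_lt_one_right vF zero_le (h.trans_le vy)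
        · have e5 : y⁻¹ + 1 = (2 * F.eval x) / y := by
            field_simp
            rw [hy2]
            ring
          rw [e5, map_div₀, map_mul, v2, one_mul, div_lt_one₀ (zero_lt_iff.2 vy0)] at h
          exact mul_lt_one_of_nonneg_of_lt_one_left zero_le (h.trans_le vy) vF1
      have hR1 : v.valuation K (Rk.eval x) < 1 := by
        by_contra hcon
        rw [not_lt] at hcon
        have h3 : v.valuation K (Rk.eval x) = 1 := le_antisymm vR hcon
        have h4 : v.valuation K (D.eval x) * v.valuation K (Qk.eval x) = 1 := by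
          rw [← map_mul, ← eval_mul, ← e2, eval_pow, map_pow, h3, one_pow]
        have h5 : 1 ≤ v.valuation K (D.eval x) := by
          by_contra h6
          rw [not_le] at h6
          have h7 := mul_lt_one_of_nonneg_of_lt_one_left zero_le h6 vQ
          exact absurd h4 h7.ne
        have h6 : v.valuation K (F.eval x * (F.eval x - 1)) = v.valuation K (D.eval x) := by
          have h7 : F.eval x * (F.eval x - 1) = (F * (F - 1)).eval x := by
            rw [eval_mul, eval_sub, eval_one]
          rw [h7, e1, eval_mul, map_mul, h3, mul_one]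
        rw [h6] at hW1
        exact absurd hW1 (not_lt.2 h5)
      rw [e3, eval_mul, map_mul, eval_prod, map_prod] at hR1
      have h8 : (1 : _) ≤ ∏ α ∈ A, v.valuation K ((X - C α : K[X]).eval x) := by
        refine Finset.one_le_prod' fun α hαA => ?_
        rw [eval_sub, eval_X, eval_C]
        by_contra h9
        exact hα ⟨α, hαA, not_le.1 h9⟩
      exact absurd hR1 (not_lt.2 (one_le_mul h8 hGv))
    have hf1 : {v : HeightOneSpectrum (𝓞 K) | v ∈ Bd ∨ 1 < v.valuation K x}.Finite :=
      hBdf.union (fin_pole x)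
    obtain ⟨hf2, hs2⟩ := wt_exists_le A (fun α (v : HeightOneSpectrum (𝓞 K)) =>
      v.valuation K (x - α) < 1) (fun α hαA => fin_zero (sub_ne_zero.2 fun h =>
        hxA (h ▸ hαA)))
    have hf3 : {v : HeightOneSpectrum (𝓞 K) | v.valuation K (G.eval x) < 1}.Finite :=
      fin_zero hG
    have hf4 : {v : HeightOneSpectrum (𝓞 K) | (∃ α ∈ A, v.valuation K (x - α) < 1) ∨
          v.valuation K (G.eval x) < 1}.Finite := hf2.union hf3
    have hle1 : wt (fun v => Near y⁻¹ v) ≤
        wt (fun v => v ∈ Bd ∨ 1 < v.valuation K x) +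
          wt (fun v => (∃ α ∈ A, v.valuation K (x - α) < 1) ∨ v.valuation K (G.eval x) < 1) :=
      (wt_mono (hf1.union hf4) hnear).trans (wt_or_le hf1 hf4)
    have hle2 : wt (fun v => v ∈ Bd ∨ 1 < v.valuation K x) ≤ wt (fun v => v ∈ Bd) +
        wt (fun v : HeightOneSpectrum (𝓞 K) => 1 < v.valuation K x) :=
      wt_or_le (P := fun v => v ∈ Bd) hBdf (fin_pole x)
    have hle3 : wt (fun v => (∃ α ∈ A, v.valuation K (x - α) < 1) ∨ v.valuation K (G.eval x) < 1) ≤
        wt (fun v : HeightOneSpectrum (𝓞 K) => ∃ α ∈ A, v.valuation K (x - α) < 1) +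
          wt (fun v : HeightOneSpectrum (𝓞 K) => v.valuation K (G.eval x) < 1) :=
      wt_or_le hf2 hf3
    have hle4 := (zero_wt' hG).trans (hC3 x)
    have hle5 := hC2 x
    rw [hPd, ← hy] at hle5
    rw [← hCB] at hle2
    have hdeg' : (A.card : ℝ) + G.natDegree = n + 1 := by exact_mod_cast hdeg
    have a0 := le_abs_self C2
    have a3 := le_abs_self C3
    have a1 := abs_nonneg C0
    have a2 := abs_nonneg C2
    have a4 := abs_nonneg C3
    have hhy := zero_le_logHeight₁ y
    have hmain : ((n : ℝ) - ε) * logHeight₁ x ≤ (1 - ε / n) * logHeight₁ y + |C2| ∨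
        (n : ℝ) - ε ≤ 0 := by
      by_cases hεn : ε ≤ n
      · left
        have h3 : 0 ≤ 1 - ε / n := by
          rw [sub_nonneg, div_le_one hn0]
          exact hεn
        have h4 := mul_le_mul_of_nonneg_left hle5 h3
        have h5 : (1 - ε / n) * (n * logHeight₁ x) = ((n : ℝ) - ε) * logHeight₁ x := by
          field_simp
        have h6 : (1 - ε / n) * (logHeight₁ y + C2) ≤ (1 - ε / n) * logHeight₁ y + |C2| := by
          rw [mul_add]
          have h7 : (1 - ε / n) * C2 ≤ (1 - ε / n) * |C2| := mul_le_mul_of_nonneg_left a0 h3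
          have h8 : (1 - ε / n) * |C2| ≤ 1 * |C2| := by
            refine mul_le_mul_of_nonneg_right ?_ a2
            have : 0 ≤ ε / n := by positivity
            linarith
          linarith
        linarith
      · right
        linarith
    have hcard : ((A.card : ℝ) - 1 - ε) * logHeight₁ x =
        ((n : ℝ) - ε) * logHeight₁ x - G.natDegree * logHeight₁ x := by
      have : (A.card : ℝ) = n + 1 - G.natDegree := by linarith
      rw [this]
      ring
    rcases hmain with h3 | h3
    · linarith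
    · have h4 : ((n : ℝ) - ε) * logHeight₁ x ≤ 0 := mul_nonpos_of_nonpos_of_nonneg h3 hh
      have h5 : 0 ≤ (G.natDegree : ℝ) * logHeight₁ x := by positivity
      linarith

end Pool.Agent.H432.TC
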