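import Mathlib
import Pool.Agent.H432.TC.LineE
import Pool.Agent.H432.TC.AbcP

/-!
The abc inequality over one field and the truncated inequality on rational curves over this field.
-/

set_option autoImplicit false
set_option linter.unusedSectionVars false

namespace Pool.Agent.H432.TC

open NumberField IsDedekindDomain Height Module MvPolynomial Pool.Agent.N750 Pool.Agent.H432.RC
open Pool.Agent.W180.OP (Pl av nrm le_nrm nrm_pos wt_nonneg exists_nrm nrm_nonneg)
open Pool.Agent.Q290.NF (ell ell_pos ind ind_pos ind_neg ind_nonneg supp_sub)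
open Pool.Agent.Results.MP_4d5ce1_nt.ThinSetsSuffice (AllPoints Inequality counting Meet meet_fin
  counting_eq)

variable {M g q w n' d : ℕ}

/-- the truncated inequality for the points over `L` and finite sets of points over `E` -/
def PL (L E : Type) [Field L] [NumberField L] [Field E] [NumberField E] [Algebra L E] : Prop :=
  ∀ (S' : Finset (HeightOneSpectrum (𝓞 E))) (ν : ℕ) (b : Fin ν → E), Function.Injective b →
    ∀ ε : ℝ, 0 < ε → ∃ C : ℝ, ∀ T : L, (∀ a, algebraMap L E T ≠ b a) →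
      ((ν : ℝ) - 2 - ε) * logHeight ![algebraMap L E T, 1] ≤
        (∑ a, Pool.Agent.Q290.NF.wt (fun v => v ∉ S' ∧
          Meet ![b a, 1] ![algebraMap L E T, 1] v)) + C

theorem pl_of {L E : Type} [Field L] [NumberField L] [Field E] [NumberField E] [Algebra L E]
    (hL : ∀ ε : ℝ, 0 < ε → ∃ C : ℝ, ∀ u : L, Pool.Agent.Q290.NF.Gen u⁻¹ →
      (1 - ε) * logHeight₁ u⁻¹ ≤
        Pool.Agent.Q290.NF.wt (fun v => Pool.Agent.Q290.NF.Near u⁻¹ v) + C) : PL L E := by
  classical
  intro S' ν b hb ε hε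
  set A : Finset E := Finset.univ.image b with hA
  obtain ⟨C, hC⟩ := line_e (L := L) (K := E) A hL ε hε
  refine ⟨C + ν * Pool.Agent.Q290.NF.wt (fun v => v ∈ S'), fun T hT => ?_⟩
  have hTA : algebraMap L E T ∉ A := by
    intro h
    obtain ⟨a, -, ha⟩ := Finset.mem_image.1 h
    exact hT a ha.symm
  have h1 := hC T hTA
  have h2 := Pool.Agent.Q290.NF.pole_le (algebraMap L E T)
  have hcard : (A.card : ℝ) = ν := by
    rw [hA, Finset.card_image_of_injective _ hb, Finset.card_univ, Fintype.card_fin]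
  rw [hcard, hA, Finset.sum_image hb.injOn, logHeight₁_eq_logHeight] at h1
  rw [logHeight₁_eq_logHeight] at h2
  have hne : ∀ a, (![algebraMap L E T, 1] : Fin 2 → E) 0 * (![b a, 1] : Fin 2 → E) 1 -
      (![algebraMap L E T, 1] : Fin 2 → E) 1 * (![b a, 1] : Fin 2 → E) 0 ≠ 0 := by
    intro a
    simp only [Matrix.cons_val_zero, Matrix.cons_val_one, mul_one, one_mul]
    exact sub_ne_zero.2 (hT a)
  have h3 : ∀ a, Pool.Agent.Q290.NF.wt (fun v : HeightOneSpectrum (𝓞 E) =>
      v.valuation E (algebraMap L E T - b a) < 1) ≤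
      Pool.Agent.Q290.NF.wt (fun v => v ∉ S' ∧ Meet ![b a, 1] ![algebraMap L E T, 1] v) +
        Pool.Agent.Q290.NF.wt (fun v => v ∈ S') := by
    intro a
    have hf := meet_fin (hne a)
    refine (Pool.Agent.Q290.NF.wt_mono (Q := fun v => (v ∉ S' ∧
        Meet ![b a, 1] ![algebraMap L E T, 1] v) ∨ v ∈ S')
      ((hf.subset fun v hv => hv.2).union S'.finite_toSet) fun v hv => ?_).trans
      (Pool.Agent.Q290.NF.wt_or_le (hf.subset fun v hv => hv.2) S'.finite_toSet)
    by_cases hvS : v ∈ S'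
    · exact Or.inr hvS
    · refine Or.inl ⟨hvS, ?_⟩
      unfold Meet
      simp only [Matrix.cons_val_zero, Matrix.cons_val_one, mul_one, one_mul, map_one]
      refine lt_of_lt_of_le hv ?_
      exact one_le_mul (le_max_right _ _) (le_max_right _ _)
  have h4 := Finset.sum_le_sum fun a (_ : a ∈ Finset.univ) => h3 a
  rw [Finset.sum_add_distrib] at h4
  have h5 : ∑ _a : Fin ν, Pool.Agent.Q290.NF.wt (fun v => v ∈ S') =
      ν * Pool.Agent.Q290.NF.wt (fun v => v ∈ S') := by
    rw [Finset.sum_const, Finset.card_univ, Fintype.card_fin, nsmul_eq_mul]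
  rw [h5] at h4
  linarith

/-- **the inequality for a fixed curve** -/
theorem curve_pl {k : Type} [Field k] [NumberField k] {G : Fin g → MvPolynomial (Fin M) k}
    {e : Fin g → ℕ} (hG : ∀ i, (G i).IsHomogeneous (e i))
    (hsm : Sm (n' + 1) G) {F : Fin q → Fin w → MvPolynomial (Fin M) k} {δ : Fin q → ℕ}
    (hF : ∀ i j, (F i j).IsHomogeneous (δ i)) (hd0 : 1 ≤ d)
    {Φ : MvPolynomial (Fin M) k} {mΦ : ℕ} (hΦh : Φ.IsHomogeneous mΦ)
    {L E : Type} [Field L] [NumberField L] [Algebra k L] [Field E] [NumberField E] [Algebra k E]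
    [Algebra L E] [IsScalarTower k L E] (hall : PL L E)
    (hgeo : GeoP E n' G F d (∑ i, δ i * d) Φ) (c : Fin M → Fin (d + 1) → L)
    (hc : CurveOK G F fun l m => algebraMap L E (c l m))
    (hz : ∃ z, aeval (pc c z) Φ ≠ 0)
    (S : Finset (HeightOneSpectrum (𝓞 L))) (ε : ℝ) (hε : 0 < ε) :
    ∃ C : ℝ, ∀ s : Fin 2 → L, s ≠ 0 → (∀ i, ∃ j, aeval (pc c s) (F i j) ≠ 0) →
      ∀ A, IsTB (p := n' + 2) G (pc c s) A →
      logHeight (mv A) - (n' + 2) * logHeight (pc c s) +
        ∑ i, ((δ i : ℝ) * logHeight (pc c s) - logHeight (fun j => aeval (pc c s) (F i j))) ≤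
        Pool.Agent.Q290.NF.wt (fun v => v ∉ S ∧ DM F δ (pc c s) v) + ε * logHeight (pc c s) + C := by
  classical
  have hkey : ∀ r : ℕ, ∃ C : ℝ, (∀ i, ∃ j, aeval (pc c ![(r : L), 1]) (F i j) ≠ 0) →
      ∀ T : L, (∀ i, ∃ j, aeval (pc c ![(r : L) * T + 1, T]) (F i j) ≠ 0) →
      ∀ A, IsTB (p := n' + 2) G (pc c ![(r : L) * T + 1, T]) A →
      logHeight (mv A) - (n' + 2) * logHeight (pc c ![(r : L) * T + 1, T]) +
        ∑ i, ((δ i : ℝ) * logHeight (pc c ![(r : L) * T + 1, T]) -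
          logHeight (fun j => aeval (pc c ![(r : L) * T + 1, T]) (F i j))) ≤
        Pool.Agent.Q290.NF.wt (fun v => v ∉ S ∧ DM F δ (pc c ![(r : L) * T + 1, T]) v) +
          ε * logHeight (pc c ![(r : L) * T + 1, T]) + C := by
    intro r
    by_cases hr : ∀ i, ∃ j, aeval (pc c ![(r : L), 1]) (F i j) ≠ 0
    swap
    · exact ⟨0, fun h => absurd h hr⟩
    obtain ⟨ν, b, hb, ⟨C1, hC1⟩, hcnt⟩ := fixed_r (E := E) hsm hF hd0 hΦh hgeo c hc hz r hr
    obtain ⟨S', C2, hC2⟩ := hcnt S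
    obtain ⟨C3, hC3⟩ := hall S' ν b hb ε hε
    have hfE : (0 : ℝ) < finrank ℚ E := by exact_mod_cast finrank_pos
    have hfL : (0 : ℝ) < finrank L E := by exact_mod_cast finrank_pos
    refine ⟨C1 + ε * C1 + C2 / finrank L E + C3 / finrank L E,
      fun _ T hT A hA => ?_⟩
    obtain ⟨hTb, h1, h2⟩ := hC1 T hT
    have h3 := hC3 T hTb
    have e12 : logHeight (![algebraMap L E T, 1] : Fin 2 → E) =
        finrank L E * logHeight (![1, T] : Fin 2 → L) := by
      rw [swap_ht]
      have h1 : (![1, algebraMap L E T] : Fin 2 → E) = fun i => algebraMap L E (![1, T] i) := by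
        funext i
        fin_cases i
        · exact (map_one _).symm
        · rfl
      rw [h1]
      exact Pool.Agent.Helper259.HtExt.logHeight_ext (K := L) (L := E) _
    rw [e12] at h3
    have h4 := hC2 T hT
    set H := logHeight (![1, T] : Fin 2 → L) with hH
    set W := Pool.Agent.Q290.NF.wt (fun v => v ∉ S ∧ DM F δ (pc c ![(r : L) * T + 1, T]) v)
    set hx := logHeight (pc c ![(r : L) * T + 1, T]) with hhx
    have hH0 : 0 ≤ H := logHeight_nonneg _
    have h8 : ((ν : ℝ) - 2 - ε) * H ≤ W + C2 / finrank L E + C3 / finrank L E := by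
      have h9 : ((ν : ℝ) - 2 - ε) * H = ((ν : ℝ) - 2 - ε) * (finrank L E * H) / finrank L E := by
        field_simp
      rw [h9, div_le_iff₀ hfL]
      have h10 : (W + C2 / finrank L E + C3 / finrank L E) * finrank L E =
          finrank L E * W + C2 + C3 := by
        field_simp
      rw [h10]
      linarith
    have h11 := h2 A hA
    have hd1 : (1 : ℝ) ≤ d := by exact_mod_cast hd0
    have h12 : H ≤ hx + C1 := by nlinarith
    have h13 : ε * H ≤ ε * hx + ε * C1 := by nlinarith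
    linarith
  choose C hC using hkey
  refine ⟨∑ r ∈ Finset.range (∑ i, δ i * d + 2), |C r|, fun s hs hsF A hA => ?_⟩
  obtain ⟨r, hr1, hr2⟩ := exists_r c s hs F δ hF hsF
  set a : L := s 0 - (r.1 : L) * s 1 with ha
  set T : L := s 1 / a with hT
  have hsy : pc c s = fun l => a ^ d * pc c ![(r.1 : L) * T + 1, T] l := by
    rw [← pc_smul]
    congr 1
    funext x
    fin_cases x
    · show s 0 = a * ((r.1 : L) * T + 1)
      rw [hT]
      field_simp
      rw [ha]
      ring
    · show s 1 = a * T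
      rw [hT]
      field_simp
  have had : a ^ d ≠ 0 := pow_ne_zero _ hr1
  have hyF : ∀ i, ∃ j, aeval (pc c ![(r.1 : L) * T + 1, T]) (F i j) ≠ 0 := by
    intro i
    obtain ⟨j, hj⟩ := hsF i
    refine ⟨j, fun h => hj ?_⟩
    rw [hsy, RC.aeval_hom (hF i j), h, mul_zero]
  have hAy : IsTB G (pc c ![(r.1 : L) * T + 1, T]) A := by
    refine ⟨hA.1, fun cc => ?_⟩
    have e1 := hA.2 cc
    rw [hsy, TS_smul hG _ had] at e1
    exact e1
  have h1 := hC r.1 hr2 T hyF A hAy
  have e1 : logHeight (pc c s) = logHeight (pc c ![(r.1 : L) * T + 1, T]) := by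
    rw [hsy]
    exact logHeight_smul_eq_logHeight (pc c ![(r.1 : L) * T + 1, T]) had
  have e2 : ∀ i, logHeight (fun j => aeval (pc c s) (F i j)) =
      logHeight (fun j => aeval (pc c ![(r.1 : L) * T + 1, T]) (F i j)) := by
    intro i
    have h2 : (fun j => aeval (pc c s) (F i j)) =
        (a ^ d) ^ δ i • fun j => aeval (pc c ![(r.1 : L) * T + 1, T]) (F i j) := by
      funext j
      rw [hsy, RC.aeval_hom (hF i j)]
      rfl
    rw [h2]
    exact logHeight_smul_eq_logHeight _ (pow_ne_zero _ had)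
  have e3 : (fun v => v ∉ S ∧ DM F δ (pc c s) v) =
      fun v => v ∉ S ∧ DM F δ (pc c ![(r.1 : L) * T + 1, T]) v := by
    funext v
    rw [hsy, DM_smul hF _ had]
  rw [e1, e3]
  simp only [e2]
  have h4 : C r.1 ≤ ∑ r ∈ Finset.range (∑ i, δ i * d + 2), |C r| :=
    (le_abs_self _).trans (Finset.single_le_sum (f := fun r => |C r|)
      (fun _ _ => abs_nonneg _) (Finset.mem_range.2 r.2))
  linarith

/-- **the inequality on the rational curves of bounded degree** -/
theorem main_pl {k : Type} [Field k] [NumberField k]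
    (G : Fin g → MvPolynomial (Fin M) k) (e : Fin g → ℕ)
    (hG : ∀ i, (G i).IsHomogeneous (e i)) (hI : (Ideal.span (Set.range G)).IsPrime)
    (hsm : Sm (n' + 1) G) (F : Fin q → Fin w → MvPolynomial (Fin M) k) (δ : Fin q → ℕ)
    (hF : ∀ i j, (F i j).IsHomogeneous (δ i)) (hnc : NCD G F) (D : ℕ) :
    ∃ (mΦ : ℕ) (Φ : MvPolynomial (Fin M) k), Φ.IsHomogeneous mΦ ∧
      Φ ∉ Ideal.span (Set.range G) ∧
    ∀ (L : Type) [Field L] [NumberField L] [Algebra k L],
    (∀ (E : Type) [Field E] [NumberField E] [Algebra L E], PL L E) →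
    ∀ d ≤ D, ∀ (c : Fin M → Fin (d + 1) → L), RC0 G c → (∃ z, aeval (pc c z) Φ ≠ 0) →
      (∃ z : Fin 2 → L, z ≠ 0 ∧ ∀ i, ∃ j, aeval (pc c z) (F i j) ≠ 0) →
    ∀ (S : Finset (HeightOneSpectrum (𝓞 L))) (ε : ℝ), 0 < ε →
    ∃ C : ℝ, ∀ s : Fin 2 → L, s ≠ 0 → (∀ i, ∃ j, aeval (pc c s) (F i j) ≠ 0) →
      ∀ A, IsTB (p := n' + 2) G (pc c s) A →
      logHeight (mv A) - (n' + 2) * logHeight (pc c s) +
        ∑ i, ((δ i : ℝ) * logHeight (pc c s) - logHeight (fun j => aeval (pc c s) (F i j))) ≤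
        Pool.Agent.Q290.NF.wt (fun v => v ∉ S ∧ DM F δ (pc c s) v) +
          ε * logHeight (pc c s) + C := by
  classical
  have hgeo : ∀ d : ℕ, ∃ (mΦ : ℕ) (Φ : MvPolynomial (Fin M) k), Φ.IsHomogeneous mΦ ∧
      Φ ∉ Ideal.span (Set.range G) ∧
      (1 ≤ d → GeoP (AlgebraicClosure k) n' G F d (∑ i, δ i * d) Φ) := by
    intro d
    by_cases hd : 1 ≤ d
    · obtain ⟨m, Φ, h1, h2, h3⟩ := exists_geoP (K := AlgebraicClosure k) G e hG hI hsm F δ hF hnc
        d (∑ i, δ i * d) hd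
      exact ⟨m, Φ, h1, h2, fun _ => h3⟩
    · refine ⟨0, 1, MvPolynomial.isHomogeneous_one _ _, ?_, fun h => absurd h hd⟩
      intro h
      exact hI.ne_top ((Ideal.eq_top_iff_one _).2 h)
  choose m Φ h1 h2 h3 using hgeo
  refine ⟨∑ d ∈ Finset.range (D + 1), m d, ∏ d ∈ Finset.range (D + 1), Φ d,
    MvPolynomial.IsHomogeneous.prod _ _ _ fun d _ => h1 d, ?_, ?_⟩
  · intro h
    rw [hI.prod_mem_iff] at h
    obtain ⟨d, -, hd⟩ := h
    exact h2 d hd
  intro L _ _ _ hall d hd c hc hz hD S ε hε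
  obtain ⟨C4, hC4, hcrude⟩ := crude G e hG hsm
  rcases Nat.eq_zero_or_pos d with rfl | hd0
  · -- constant curves
    have hconst : ∀ z : Fin 2 → L, pc c z = pc c ![1, 1] := by
      intro z
      funext l
      unfold pc
      refine Finset.sum_congr rfl fun m _ => ?_
      have hm0 : m.1 = 0 := by
        have := m.2
        omega
      rw [hm0]
      simp
    set x := pc c ![1, 1] with hx
    refine ⟨|C4 * logHeight x + finrank k L * C4 - (n' + 2) * logHeight x +
        ∑ i, ((δ i : ℝ) * logHeight x - logHeight (fun j => aeval x (F i j)))|,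
      fun s hs hsF A hA => ?_⟩
    have hx0 : pc c s ≠ 0 := hc.nz L s hs
    have e2 := hcrude L (pc c s) hx0 (fun i => hc.onX L s i) A hA
    rw [hconst s] at e2 ⊢
    have e3 := Pool.Agent.Q290.NF.wt_nonneg (fun v => v ∉ S ∧ DM F δ x v)
    have e4 := logHeight_nonneg x
    have e5 : 0 ≤ ε * logHeight x := by positivity
    have e6 := le_abs_self (C4 * logHeight x + finrank k L * C4 - (n' + 2) * logHeight x +
        ∑ i, ((δ i : ℝ) * logHeight x - logHeight (fun j => aeval x (F i j))))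
    linarith
  · obtain ⟨E, hE1, hE2, hE3, hE4, hE5, hok⟩ := exists_E hF hc hD
    let _ : Algebra.IsAlgebraic k E := Algebra.IsAlgebraic.of_finite k E
    have hemb : Nonempty (E →ₐ[k] AlgebraicClosure k) := ⟨IsAlgClosed.lift⟩
    refine curve_pl hG hsm hF hd0 (h1 d) (hall E) ((h3 d hd0).descend hemb.some) c hok ?_ S ε hε
    obtain ⟨z, hz⟩ := hz
    refine ⟨z, fun h => hz ?_⟩
    rw [map_prod]
    exact Finset.prod_eq_zero (Finset.mem_range.2 (Nat.lt_succ_of_le hd)) h

end Pool.Agent.H432.TC
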