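import Mathlib
import Pool.Agent.H432.TC.AbcS

/-!
The abc conjecture for integers and the abc inequality over the field of rational numbers.
-/

set_option autoImplicit false
set_option linter.unusedSectionVars false

namespace Pool.Agent.H432.TC

open NumberField IsDedekindDomain Height Module
open Pool.Agent.Q290.NF (ell ell_pos ind ind_pos ind_neg ind_nonneg supp_sub)
open Rat.HeightOneSpectrum (natGenerator prime_natGenerator primesEquiv)

theorem val_int_lt (v : HeightOneSpectrum (𝓞 ℚ)) (n : ℤ) :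
    v.valuation ℚ (n : ℚ) < 1 ↔ (natGenerator v : ℤ) ∣ n := by
  have h1 : (n : ℚ) = algebraMap (𝓞 ℚ) ℚ (n : 𝓞 ℚ) := by rw [map_intCast]
  rw [h1, HeightOneSpectrum.valuation_lt_one_iff_mem, ← Ideal.mem_span_singleton,
    Rat.HeightOneSpectrum.span_natGenerator]
  have h2 : (n : ℤ) = Rat.IsIntegralClosure.intEquiv (𝓞 ℚ) (n : 𝓞 ℚ) := by
    rw [map_intCast]
    rfl
  conv_rhs => rw [h2]
  exact (Ideal.apply_mem_of_equiv_iff).symm

theorem asIdeal_gen (v : HeightOneSpectrum (𝓞 ℚ)) :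
    v.asIdeal = Ideal.span {((natGenerator v : ℕ) : 𝓞 ℚ)} := by
  ext x
  rw [Ideal.mem_span_singleton, ← map_dvd_iff (Rat.IsIntegralClosure.intEquiv (𝓞 ℚ)), map_natCast,
    ← Ideal.mem_span_singleton, Rat.HeightOneSpectrum.span_natGenerator]
  exact (Ideal.apply_mem_of_equiv_iff).symm

theorem absNorm_gen (v : HeightOneSpectrum (𝓞 ℚ)) : Ideal.absNorm v.asIdeal = natGenerator v := by
  rw [asIdeal_gen, Ideal.absNorm_span_singleton]
  have h1 : ((natGenerator v : ℕ) : 𝓞 ℚ) = algebraMap ℤ (𝓞 ℚ) (natGenerator v : ℤ) := by simp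
  have h2 : finrank ℤ (𝓞 ℚ) = 1 := by
    rw [RingOfIntegers.rank, finrank_self]
  rw [h1, Algebra.norm_algebraMap, h2, pow_one, Int.natAbs_natCast]

/-- sums over the primes -/
theorem wt_rat (P : HeightOneSpectrum (𝓞 ℚ) → Prop) (s : Finset ℕ) (hs : ∀ p ∈ s, p.Prime)
    (h : ∀ v, P v ↔ natGenerator v ∈ s) :
    Pool.Agent.Q290.NF.wt P = Real.log ((∏ p ∈ s, p : ℕ) : ℝ) := by
  classical
  have hinj : Function.Injective fun v : HeightOneSpectrum (𝓞 ℚ) => natGenerator v := by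
    intro v w hvw
    exact (primesEquiv (R := 𝓞 ℚ)).injective (Subtype.ext hvw)
  set t : Finset (HeightOneSpectrum (𝓞 ℚ)) :=
    s.attach.image fun p => (primesEquiv (R := 𝓞 ℚ)).symm ⟨p.1, hs p.1 p.2⟩ with ht
  have hgen : ∀ p : Nat.Primes, natGenerator ((primesEquiv (R := 𝓞 ℚ)).symm p) = p.1 := by
    intro p
    have h1 : ((primesEquiv (R := 𝓞 ℚ)) ((primesEquiv (R := 𝓞 ℚ)).symm p)).1 = p.1 := by
      rw [Equiv.apply_symm_apply]
    exact h1
  have hmem : ∀ v, v ∈ t ↔ natGenerator v ∈ s := by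
    intro v
    rw [ht, Finset.mem_image]
    constructor
    · rintro ⟨p, -, rfl⟩
      rw [hgen]
      exact p.2
    · intro hv
      refine ⟨⟨_, hv⟩, Finset.mem_attach _ _, hinj ?_⟩
      exact hgen _
  unfold Pool.Agent.Q290.NF.wt
  rw [finsum_eq_sum_of_support_subset (s := t) _ (by
    intro v hv
    rw [Finset.mem_coe, hmem, ← h]
    exact supp_sub P hv)]
  have h1 : ∑ v ∈ t, ind P v = ∑ v ∈ t, Real.log (natGenerator v : ℝ) := by
    refine Finset.sum_congr rfl fun v hv => ?_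
    rw [ind_pos ((h v).2 ((hmem v).1 hv))]
    unfold ell
    rw [absNorm_gen]
  have h2 : ∑ v ∈ t, Real.log (natGenerator v : ℝ) = ∑ p ∈ s, Real.log (p : ℝ) := by
    refine Finset.sum_bij (fun v _ => natGenerator v) (fun v hv => (hmem v).1 hv)
      (fun v _ w _ hvw => hinj hvw) (fun p hp => ?_) (fun v _ => rfl)
    exact ⟨(primesEquiv (R := 𝓞 ℚ)).symm ⟨p, hs p hp⟩, (hmem _).2 (by rw [hgen]; exact hp),
      hgen _⟩
  rw [h1, h2, Nat.cast_prod, Real.log_prod]
  intro p hp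
  exact_mod_cast (hs p hp).ne_zero

/-- the radical of a triple of coprime integers -/
theorem wt_NE3 (x : Fin 3 → ℤ) (h0 : ∀ i, x i ≠ 0)
    (hc : ∀ i j, i ≠ j → IsCoprime (x i) (x j)) :
    Pool.Agent.Q290.NF.wt (NE3 fun i => (x i : ℚ)) =
      Real.log ((∏ p ∈ (x 0 * x 1 * x 2).natAbs.primeFactors, p : ℕ) : ℝ) := by
  refine wt_rat _ _ (fun p hp => Nat.prime_of_mem_primeFactors hp) fun v => ?_
  have hp := prime_natGenerator v
  have hn0 : (x 0 * x 1 * x 2).natAbs ≠ 0 :=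
    Int.natAbs_ne_zero.2 (mul_ne_zero (mul_ne_zero (h0 0) (h0 1)) (h0 2))
  rw [Nat.mem_primeFactors_of_ne_zero hn0]
  have hpi : Prime (natGenerator v : ℤ) := Nat.prime_iff_prime_int.1 hp
  have hle : ∀ i, v.valuation ℚ (x i : ℚ) ≤ 1 := by
    intro i
    have h1 : (x i : ℚ) = algebraMap (𝓞 ℚ) ℚ (x i : 𝓞 ℚ) := by rw [map_intCast]
    rw [h1]
    exact v.valuation_le_one _
  constructor
  · intro hv
    refine ⟨hp, ?_⟩
    by_contra hcon
    apply hv
    have h1 : ∀ i, ¬ (natGenerator v : ℤ) ∣ x i := by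
      intro i hi
      apply hcon
      rw [← Int.natCast_dvd_natCast, Int.dvd_natAbs]
      fin_cases i
      · exact (hi.mul_right _).mul_right _
      · exact (hi.mul_left _).mul_right _
      · exact hi.mul_left _
    have h2 : ∀ i, v.valuation ℚ (x i : ℚ) = 1 := by
      intro i
      refine le_antisymm (hle i) (not_lt.1 fun h => h1 i ((val_int_lt v _).1 h))
    intro i j
    rw [h2 i, h2 j]
  · rintro ⟨-, hd⟩ hv
    rw [← Int.natCast_dvd_natCast, Int.dvd_natAbs] at hd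
    have key : ∀ i, (natGenerator v : ℤ) ∣ x i → False := by
      intro i hi
      obtain ⟨j, hij⟩ : ∃ j, i ≠ j := by
        fin_cases i
        · exact ⟨1, by decide⟩
        · exact ⟨0, by decide⟩
        · exact ⟨0, by decide⟩
      have h1 := (val_int_lt v _).2 hi
      have h2 : v.valuation ℚ ((x i : ℤ) : ℚ) = v.valuation ℚ ((x j : ℤ) : ℚ) := hv i j
      rw [h2] at h1
      have h3 := (val_int_lt v _).1 h1
      exact hpi.not_isUnit ((hc i j hij).isUnit_of_dvd' hi h3)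
    rcases hpi.dvd_or_dvd hd with h | h
    · rcases hpi.dvd_or_dvd h with h | h
      · exact key 0 h
      · exact key 1 h
    · exact key 2 h

/-- the height of a triple of coprime integers -/
theorem ht3 (x : Fin 3 → ℤ) (hc : IsCoprime (x 0) (x 1)) :
    logHeight (fun i => (x i : ℚ)) = Real.log ((⨆ i, |x i| : ℤ) : ℝ) := by
  refine Rat.logHeight_eq_max_abs_of_gcd_eq_one (x := x) ?_
  have h1 : Finset.univ.gcd x ∣ 1 := by
    obtain ⟨a, b, hab⟩ := hc
    rw [← hab]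
    exact dvd_add ((Finset.gcd_dvd (Finset.mem_univ 0)).mul_left _)
      ((Finset.gcd_dvd (Finset.mem_univ 1)).mul_left _)
  have h2 := Finset.normalize_gcd (s := Finset.univ) (f := x)
  rw [← h2]
  exact normalize_eq_one.2 (isUnit_of_dvd_one h1)

theorem coprime3 (x : Fin 3 → ℤ) (hs : x 0 + x 1 + x 2 = 0) (hg : Finset.univ.gcd x = 1)
    (i j : Fin 3) (hij : i ≠ j) : IsCoprime (x i) (x j) := by
  rw [Int.isCoprime_iff_gcd_eq_one]
  have h1 : ((Int.gcd (x i) (x j) : ℕ) : ℤ) ∣ x i := Int.gcd_dvd_left _ _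
  have h2 : ((Int.gcd (x i) (x j) : ℕ) : ℤ) ∣ x j := Int.gcd_dvd_right _ _
  set d : ℤ := ((Int.gcd (x i) (x j) : ℕ) : ℤ) with hd
  have h3 : ∀ k, d ∣ x k := by
    intro k
    have e0 : x 0 = -(x 1 + x 2) := by linarith
    have e1 : x 1 = -(x 0 + x 2) := by linarith
    have e2 : x 2 = -(x 0 + x 1) := by linarith
    fin_cases i <;> fin_cases j <;> fin_cases k <;> simp only [Fin.zero_eta, Fin.mk_one,
      Fin.reduceFinMk, ne_eq, not_true_eq_false] at hij h1 h2 ⊢ <;>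
      first
        | exact h1
        | exact h2
        | (rw [e0]; exact (dvd_add h1 h2).neg_right)
        | (rw [e0]; exact (dvd_add h2 h1).neg_right)
        | (rw [e1]; exact (dvd_add h1 h2).neg_right)
        | (rw [e1]; exact (dvd_add h2 h1).neg_right)
        | (rw [e2]; exact (dvd_add h1 h2).neg_right)
        | (rw [e2]; exact (dvd_add h2 h1).neg_right)
  have h4 : d ∣ 1 := by
    rw [← hg]
    exact Finset.dvd_gcd fun k _ => h3 k
  have h5 : Int.gcd (x i) (x j) ∣ 1 := by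
    rw [hd] at h4
    exact Int.natCast_dvd_natCast.1 (by simpa using h4)
  exact Nat.dvd_one.1 h5

/-- coprime coordinates -/
theorem exists_int (P : Fin 3 → ℚ) (hs : P 0 + P 1 + P 2 = 0) (hP : ∀ i, P i ≠ 0) :
    ∃ (x : Fin 3 → ℤ) (c : ℚ), c ≠ 0 ∧ (∀ i, P i = c * x i) ∧ x 0 + x 1 + x 2 = 0 ∧
      (∀ i, x i ≠ 0) ∧ ∀ i j, i ≠ j → IsCoprime (x i) (x j) := by
  classical
  set D : ℤ := ∏ i, ((P i).den : ℤ) with hD
  have hD0 : D ≠ 0 := Finset.prod_ne_zero_iff.2 fun i _ => by exact_mod_cast (P i).den_nz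
  set f : Fin 3 → ℤ := fun i => (P i).num * ∏ j ∈ Finset.univ.erase i, ((P j).den : ℤ) with hf
  have hfP : ∀ i, (f i : ℚ) = D * P i := by
    intro i
    have h1 : D = ((P i).den : ℤ) * ∏ j ∈ Finset.univ.erase i, ((P j).den : ℤ) := by
      rw [hD, ← Finset.mul_prod_erase Finset.univ _ (Finset.mem_univ i)]
    have h2 : ((P i).num : ℚ) = P i * (P i).den := (Rat.mul_den_eq_num _).symm
    rw [hf, h1]
    push_cast
    rw [h2]
    ring
  obtain ⟨g, hg1, hg2⟩ := Finset.extract_gcd (s := Finset.univ) f Finset.univ_nonempty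
  set e : ℤ := Finset.univ.gcd f with he
  have he0 : e ≠ 0 := by
    intro h0
    have h1 := hg1 0 (Finset.mem_univ _)
    rw [h0, zero_mul] at h1
    have h2 := hfP 0
    rw [h1, Int.cast_zero] at h2
    exact mul_ne_zero (by exact_mod_cast hD0) (hP 0) h2.symm
  have hDq : (D : ℚ) ≠ 0 := by exact_mod_cast hD0
  have heq : (e : ℚ) ≠ 0 := by exact_mod_cast he0
  have hPg : ∀ i, P i = (e / D : ℚ) * g i := by
    intro i
    have h1 := hfP i
    rw [hg1 i (Finset.mem_univ _)] at h1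
    push_cast at h1
    field_simp
    linarith
  have hsum : g 0 + g 1 + g 2 = 0 := by
    rw [hPg 0, hPg 1, hPg 2] at hs
    have h1 : (e / D : ℚ) * ((g 0 : ℚ) + g 1 + g 2) = 0 := by linarith
    have h2 := (mul_eq_zero.1 h1).resolve_left (div_ne_zero heq hDq)
    exact_mod_cast h2
  refine ⟨g, e / D, div_ne_zero heq hDq, hPg, hsum, fun i h => hP i ?_, coprime3 g hsum hg2⟩
  rw [hPg i, h, Int.cast_zero, mul_zero]

theorem NE3_smul {K : Type} [Field K] [NumberField K] (x P : Fin 3 → K) (c : K) (hc : c ≠ 0)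
    (h : ∀ i, P i = c * x i) : NE3 P = NE3 x := by
  funext v
  unfold NE3
  refine propext (not_congr ?_)
  have hv : v.valuation K c ≠ 0 := (Valuation.ne_zero_iff _).2 hc
  constructor
  · intro h1 i j
    have h2 := h1 i j
    rw [h i, h j, map_mul, map_mul] at h2
    exact mul_left_cancel₀ hv h2
  · intro h1 i j
    rw [h i, h j, map_mul, map_mul, h1 i j]

/-- **the abc conjecture for integers implies the inequality for rational numbers** -/
theorem abc_rat (habc : ∀ ε : ℝ, 0 < ε → ∃ κ : ℝ, ∀ a b c : ℕ, 0 < a → 0 < b → 0 < c →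
      Nat.Coprime a b → a + b = c →
        (c : ℝ) ≤ κ * (((∏ p ∈ (a * b * c).primeFactors, p : ℕ) : ℝ)) ^ (1 + ε)) :
    ∀ ε : ℝ, 0 < ε → ∃ C : ℝ, ∀ P : Fin 3 → ℚ, P 0 + P 1 + P 2 = 0 →
      P 0 * P 1 * P 2 ≠ 0 → logHeight P / finrank ℚ ℚ <
        (1 + ε) * (Pool.Agent.Q290.NF.wt (NE3 P) / finrank ℚ ℚ) + C := by
  intro ε hε
  obtain ⟨κ, hκ⟩ := habc ε hε
  refine ⟨|Real.log κ| + 1, fun P hs hP => ?_⟩
  have hP0 : ∀ i, P i ≠ 0 := by
    intro i
    fin_cases i
    · exact left_ne_zero_of_mul (left_ne_zero_of_mul hP)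
    · exact right_ne_zero_of_mul (left_ne_zero_of_mul hP)
    · exact right_ne_zero_of_mul hP
  obtain ⟨x, c, hc, hPx, hsx, hx0, hcop⟩ := exists_int P hs hP0
  rw [NE3_smul (fun i => (x i : ℚ)) P c hc hPx, finrank_self, Nat.cast_one, div_one, div_one,
    wt_NE3 x hx0 hcop]
  have h1 : logHeight P = Real.log ((⨆ i, |x i| : ℤ) : ℝ) := by
    have h2 : P = c • fun i => (x i : ℚ) := by
      funext i
      exact hPx i
    rw [h2, logHeight_smul_eq_logHeight _ hc]
    exact ht3 x (hcop 0 1 (by decide))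
  rw [h1]
  -- the triple
  have key : ∀ a b c : ℕ, 0 < a → 0 < b → 0 < c → Nat.Coprime a b → a + b = c →
      (⨆ i, |x i| : ℤ) = c → a * b * c = (x 0 * x 1 * x 2).natAbs →
      Real.log ((⨆ i, |x i| : ℤ) : ℝ) < (1 + ε) *
        Real.log ((∏ p ∈ (x 0 * x 1 * x 2).natAbs.primeFactors, p : ℕ) : ℝ) +
          (|Real.log κ| + 1) := by
    intro a b c ha hb hc0 hab habc' hmax hprod
    have h3 := hκ a b c ha hb hc0 hab habc'
    rw [hprod] at h3
    rw [hmax]
    set R : ℝ := ((∏ p ∈ (x 0 * x 1 * x 2).natAbs.primeFactors, p : ℕ) : ℝ) with hR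
    have hR1 : 0 < R := by
      rw [hR]
      exact_mod_cast Finset.prod_pos fun p hp => (Nat.prime_of_mem_primeFactors hp).pos
    have hc1 : (0 : ℝ) < c := by exact_mod_cast hc0
    have hRp : 0 < R ^ (1 + ε) := Real.rpow_pos_of_pos hR1 _
    have hκ0 : 0 < κ := by
      by_contra hcon
      have : κ * R ^ (1 + ε) ≤ 0 := mul_nonpos_of_nonpos_of_nonneg (not_lt.1 hcon) hRp.le
      linarith
    have h4 := Real.log_le_log hc1 h3
    rw [Real.log_mul hκ0.ne' hRp.ne', Real.log_rpow hR1] at h4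
    have h5 := le_abs_self (Real.log κ)
    have h6 : ((c : ℤ) : ℝ) = (c : ℝ) := by push_cast; rfl
    rw [h6]
    linarith
  have hmax : ∀ m : ℤ, (∀ i, |x i| ≤ m) → (∃ i, |x i| = m) → (⨆ i, |x i| : ℤ) = m := by
    intro m hm ⟨i, hi⟩
    refine le_antisymm (ciSup_le hm) ?_
    rw [← hi]
    exact le_ciSup (Set.finite_range fun i => |x i|).bddAbove i
  have hn0 := hx0 0
  have hn1 := hx0 1
  have hn2 := hx0 2
  have hcases : (x 1).natAbs + (x 2).natAbs = (x 0).natAbs ∨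
      (x 0).natAbs + (x 2).natAbs = (x 1).natAbs ∨
      (x 0).natAbs + (x 1).natAbs = (x 2).natAbs := by omega
  have hcn : ∀ i j, i ≠ j → Nat.Coprime (x i).natAbs (x j).natAbs := fun i j hij =>
    Int.isCoprime_iff_gcd_eq_one.1 (hcop i j hij)
  rcases hcases with h | h | h
  · refine key _ _ _ (by omega) (by omega) (by omega) (hcn 1 2 (by decide)) h
      (hmax _ ?_ ⟨0, by rw [Int.abs_eq_natAbs]⟩) ?_
    · intro i
      rw [Int.abs_eq_natAbs]
      fin_cases i <;> simp only [Fin.zero_eta, Fin.mk_one, Fin.reduceFinMk] <;> omega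
    · rw [Int.natAbs_mul, Int.natAbs_mul]
      ring
  · refine key _ _ _ (by omega) (by omega) (by omega) (hcn 0 2 (by decide)) h
      (hmax _ ?_ ⟨1, by rw [Int.abs_eq_natAbs]⟩) ?_
    · intro i
      rw [Int.abs_eq_natAbs]
      fin_cases i <;> simp only [Fin.zero_eta, Fin.mk_one, Fin.reduceFinMk] <;> omega
    · rw [Int.natAbs_mul, Int.natAbs_mul]
      ring
  · refine key _ _ _ (by omega) (by omega) (by omega) (hcn 0 1 (by decide)) h
      (hmax _ ?_ ⟨2, by rw [Int.abs_eq_natAbs]⟩) ?_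
    · intro i
      rw [Int.abs_eq_natAbs]
      fin_cases i <;> simp only [Fin.zero_eta, Fin.mk_one, Fin.reduceFinMk] <;> omega
    · rw [Int.natAbs_mul, Int.natAbs_mul]

/-- **the inequality for rational numbers implies the abc conjecture for integers** -/
theorem abc_int (h : ∀ ε : ℝ, 0 < ε → ∃ C : ℝ, ∀ P : Fin 3 → ℚ, P 0 + P 1 + P 2 = 0 →
      P 0 * P 1 * P 2 ≠ 0 → logHeight P ≤
        (1 + ε) * Pool.Agent.Q290.NF.wt (NE3 P) + C) :
    ∀ ε : ℝ, 0 < ε → ∃ κ : ℝ, ∀ a b c : ℕ, 0 < a → 0 < b → 0 < c →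
      Nat.Coprime a b → a + b = c →
        (c : ℝ) ≤ κ * (((∏ p ∈ (a * b * c).primeFactors, p : ℕ) : ℝ)) ^ (1 + ε) := by
  intro ε hε
  obtain ⟨C, hC⟩ := h ε hε
  refine ⟨Real.exp C, fun a b c ha hb hc hab habc => ?_⟩
  set x : Fin 3 → ℤ := ![a, b, -c] with hx
  have hx0 : x 0 = a := rfl
  have hx1 : x 1 = b := rfl
  have hx2 : x 2 = -c := rfl
  have hne : ∀ i, x i ≠ 0 := by
    intro i
    fin_cases i
    · show (a : ℤ) ≠ 0
      omega
    · show (b : ℤ) ≠ 0
      omega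
    · show (-c : ℤ) ≠ 0
      omega
  have hsum : x 0 + x 1 + x 2 = 0 := by
    rw [hx0, hx1, hx2]
    omega
  have h01 : IsCoprime (x 0) (x 1) := by
    rw [hx0, hx1]
    exact Nat.isCoprime_iff_coprime.2 hab
  have hg : Finset.univ.gcd x = 1 := by
    have h1 : Finset.univ.gcd x ∣ 1 := by
      obtain ⟨a, b, hab⟩ := h01
      rw [← hab]
      exact dvd_add ((Finset.gcd_dvd (Finset.mem_univ 0)).mul_left _)
        ((Finset.gcd_dvd (Finset.mem_univ 1)).mul_left _)
    have h2 := Finset.normalize_gcd (s := Finset.univ) (f := x)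
    rw [← h2]
    exact normalize_eq_one.2 (isUnit_of_dvd_one h1)
  have hcop := coprime3 x hsum hg
  have h1 := hC (fun i => (x i : ℚ)) (by exact_mod_cast hsum) (by
    exact_mod_cast mul_ne_zero (mul_ne_zero (hne 0) (hne 1)) (hne 2))
  rw [wt_NE3 x hne hcop, ht3 x h01] at h1
  have hmax : (⨆ i, |x i| : ℤ) = c := by
    refine le_antisymm (ciSup_le fun i => ?_) ?_
    · fin_cases i
      · show |(a : ℤ)| ≤ c
        rw [abs_of_nonneg (by omega)]
        omega
      · show |(b : ℤ)| ≤ c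
        rw [abs_of_nonneg (by omega)]
        omega
      · show |(-c : ℤ)| ≤ c
        rw [abs_neg, abs_of_nonneg (by omega)]
    · have h2 := le_ciSup (Set.finite_range fun i => |x i|).bddAbove 2
      have h3 : |x 2| = (c : ℤ) := by
        rw [hx2, abs_neg, abs_of_nonneg (by omega)]
      rw [h3] at h2
      exact h2
  have hprod : (x 0 * x 1 * x 2).natAbs = a * b * c := by
    rw [Int.natAbs_mul, Int.natAbs_mul, hx0, hx1, hx2, Int.natAbs_neg]
    rfl
  rw [hmax, hprod] at h1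
  set R : ℝ := ((∏ p ∈ (a * b * c).primeFactors, p : ℕ) : ℝ) with hR
  have hR1 : 0 < R := by
    rw [hR]
    exact_mod_cast Finset.prod_pos fun p hp => (Nat.prime_of_mem_primeFactors hp).pos
  have hc1 : (0 : ℝ) < c := by exact_mod_cast hc
  have h6 : ((c : ℤ) : ℝ) = (c : ℝ) := by push_cast; rfl
  rw [h6] at h1
  have hRp : 0 < R ^ (1 + ε) := Real.rpow_pos_of_pos hR1 _
  rw [← Real.log_le_log_iff hc1 (mul_pos (Real.exp_pos C) hRp),
    Real.log_mul (Real.exp_pos C).ne' hRp.ne', Real.log_exp, Real.log_rpow hR1]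
  linarith

end Pool.Agent.H432.TC
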