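import Mathlib
import Pool.Agent.H432.TC.AbcP

/-!
The data of a fixed rational curve, second form.
-/

set_option autoImplicit false
set_option linter.unusedSectionVars false

namespace Pool.Agent.H432.TC

open NumberField IsDedekindDomain Height Module MvPolynomial Pool.Agent.N750 Pool.Agent.H432.RC
open Pool.Agent.W180.OP (Pl av nrm le_nrm nrm_pos wt_nonneg exists_nrm nrm_nonneg)
open Pool.Agent.Q290.NF (ell ell_pos ind ind_pos ind_neg ind_nonneg supp_sub)
open Pool.Agent.Results.MP_4d5ce1_nt.ThinSetsSuffice (AllPoints Inequality counting Meet meet_fin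
  counting_eq)

variable {M g q w n' d : ℕ}

/-- **the data of a fixed curve** -/
theorem fixed_r2 {k : Type} [Field k] [NumberField k] {G : Fin g → MvPolynomial (Fin M) k}
    (hsm : Sm (n' + 1) G) {F : Fin q → Fin w → MvPolynomial (Fin M) k} {δ : Fin q → ℕ}
    (hF : ∀ i j, (F i j).IsHomogeneous (δ i)) (hd0 : 1 ≤ d)
    {Φ : MvPolynomial (Fin M) k} {mΦ : ℕ} (hΦh : Φ.IsHomogeneous mΦ)
    {L E : Type} [Field L] [NumberField L] [Algebra k L] [Field E] [NumberField E] [Algebra k E]
    [Algebra L E] [IsScalarTower k L E]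
    (hgeo : GeoP E n' G F d (∑ i, δ i * d) Φ) (c : Fin M → Fin (d + 1) → L)
    (hc : CurveOK G F fun l m => algebraMap L E (c l m))
    (hz : ∃ z, aeval (pc c z) Φ ≠ 0) (r : ℕ)
    (hr : ∀ i, ∃ j, aeval (pc c ![(r : L), 1]) (F i j) ≠ 0) :
    ∃ (ν : ℕ) (b : Fin ν → E), Function.Injective b ∧
      (∃ C : ℝ, ∀ T : L, (∀ i, ∃ j, aeval (pc c ![(r : L) * T + 1, T]) (F i j) ≠ 0) →
        (∀ a, algebraMap L E T ≠ b a) ∧
        (d : ℝ) * logHeight ![1, T] ≤ logHeight (pc c ![(r : L) * T + 1, T]) + C ∧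
        ∀ A, IsTB (p := n' + 2) G (pc c ![(r : L) * T + 1, T]) A →
        logHeight (mv A) - (n' + 2) * logHeight (pc c ![(r : L) * T + 1, T]) +
          ∑ i, ((δ i : ℝ) * logHeight (pc c ![(r : L) * T + 1, T]) -
            logHeight (fun j => aeval (pc c ![(r : L) * T + 1, T]) (F i j))) ≤
          ((ν : ℝ) - 2) * logHeight ![1, T] + C) ∧
      (∀ S : Finset (HeightOneSpectrum (𝓞 L)), ∃ (S' : Finset (HeightOneSpectrum (𝓞 E))) (C : ℝ),
        ∀ T : L, (∀ i, ∃ j, aeval (pc c ![(r : L) * T + 1, T]) (F i j) ≠ 0) →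
        ∀ P : Fin ν → HeightOneSpectrum (𝓞 E) → Prop, (∀ a, {v | P a v}.Finite) →
        (∀ a v, P a v → v ∉ S' ∧ Mt v (algebraMap L E T) (b a)) →
        (∑ a, Pool.Agent.Q290.NF.wt (P a)) ≤
          finrank L E * Pool.Agent.Q290.NF.wt (fun v => v ∉ S ∧
            DM F δ (pc c ![(r : L) * T + 1, T]) v) + C) ∧
      ∀ a, ∃ i, ∀ j, aeval (pc (fun l m => algebraMap L E (c l m)) ![(r : E) * b a + 1, b a])
        (F i j) = 0 := by
  classical
  set c' : Fin M → Fin (d + 1) → E := fun l m => algebraMap L E (c l m) with hc'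
  set r' : E := (r : E) with hr'
  have hinj := (algebraMap L E).injective
  have hrr : algebraMap L E (r : L) = r' := map_natCast _ _
  have hmap : ∀ T : L, pc c' ![r' * algebraMap L E T + 1, algebraMap L E T] =
      fun l => algebraMap L E (pc c ![(r : L) * T + 1, T] l) := by
    intro T
    rw [← pc_map]
    congr 1
    funext i
    fin_cases i
    · show r' * algebraMap L E T + 1 = algebraMap L E ((r : L) * T + 1)
      rw [map_add, map_mul, map_one, hrr]
    · rfl
  have hmap2 : pc c' ![r', 1] = fun l => algebraMap L E (pc c ![(r : L), 1] l) := by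
    rw [← pc_map]
    congr 1
    funext i
    fin_cases i
    · exact hrr.symm
    · exact (map_one _).symm
  have hr2 : ∀ i, ∃ j, aeval (pc c' ![r', 1]) (F i j) ≠ 0 := by
    intro i
    obtain ⟨j, hj⟩ := hr i
    refine ⟨j, ?_⟩
    rw [hmap2, aeval_am]
    exact (map_ne_zero _).2 hj
  have hz2 : ∃ z, aeval (pc c' z) Φ ≠ 0 := by
    obtain ⟨z, hz⟩ := hz
    refine ⟨fun i => algebraMap L E (z i), ?_⟩
    have h1 : pc c' (fun i => algebraMap L E (z i)) = fun l => algebraMap L E (pc c z l) :=
      pc_map _ _ _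
    rw [h1, aeval_am]
    exact (map_ne_zero _).2 hz
  obtain ⟨ν, b, m, Q, hcro⟩ := exists_cro (G := G) hF hc r' hr2
  set φ : Fin M → Polynomial E := cpol r' c' with hφ
  have hφd : ∀ l, (φ l).natDegree ≤ d := fun l => cpol_deg r' c' l
  have htop : Ideal.span (Set.range φ) = ⊤ := hc.top r'
  have hlead : ∃ l, (φ l).coeff d ≠ 0 := hc.lead r'
  have hφT : ∀ T : E, (fun l => (φ l).eval T) = pc c' ![r' * T + 1, T] := by
    intro T
    funext l
    exact cpol_eval r' c' T l
  have hφL : ∀ T : L, (fun l => (φ l).eval (algebraMap L E T)) =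
      fun l => algebraMap L E (pc c ![(r : L) * T + 1, T] l) := by
    intro T
    rw [hφT, hmap]
  obtain ⟨hle, Γ, hΓ⟩ := hgeo ν hcro.hν φ hφd (wronskian_ne φ hd0 hφd htop hlead)
    (fun i => hc.poly r' i) (phi_ne hΦh c' r' hz2) b hcro.inj (fun a => by
      have h1 := hc.nz E ![r' * b a + 1, b a] (vec_ne _ _)
      obtain ⟨l, hl⟩ := Function.ne_iff.1 h1
      exact ⟨l, by rw [hφ, cpol_eval]; exact hl⟩) m hcro.hm (fun a i j => by
      rw [hcro.fac i j]
      exact Dvd.dvd.mul_right (Finset.dvd_prod_of_mem _ (Finset.mem_univ a)) _)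
  obtain ⟨C, hC⟩ := hcro.heights hsm hF hφd htop hlead hle hΓ
  obtain ⟨Bad, hBad, hgood⟩ := hcro.good hF hφd htop hlead
  have hf : (0 : ℝ) < finrank L E := by exact_mod_cast finrank_pos
  have hf1 : (1 : ℝ) ≤ finrank L E := by
    have : 0 < finrank L E := finrank_pos
    exact_mod_cast this
  have hFx : ∀ T : L, (∀ i, ∃ j, aeval (pc c ![(r : L) * T + 1, T]) (F i j) ≠ 0) →
      ∀ i, ∃ j, aeval (fun l => (φ l).eval (algebraMap L E T)) (F i j) ≠ 0 := by
    intro T hT i
    obtain ⟨j, hj⟩ := hT i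
    refine ⟨j, ?_⟩
    rw [hφL, aeval_am]
    exact (map_ne_zero _).2 hj
  have hx0 : ∀ T : L, pc c ![(r : L) * T + 1, T] ≠ 0 := by
    intro T h0
    have h1 := ev_ne_field φ htop (algebraMap L E T)
    apply h1
    rw [hφL, h0]
    funext l
    exact map_zero _
  have e12 : ∀ T : L, logHeight (![1, algebraMap L E T] : Fin 2 → E) =
      finrank L E * logHeight (![1, T] : Fin 2 → L) := by
    intro T
    have h1 : (![1, algebraMap L E T] : Fin 2 → E) = fun i => algebraMap L E (![1, T] i) := by
      funext i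
      fin_cases i
      · exact (map_one _).symm
      · rfl
    rw [h1]
    exact Pool.Agent.Helper259.HtExt.logHeight_ext (K := L) (L := E) _
  have e13 : ∀ T : L, logHeight (fun l => (φ l).eval (algebraMap L E T)) =
      finrank L E * logHeight (pc c ![(r : L) * T + 1, T]) := by
    intro T
    rw [hφL]
    exact Pool.Agent.Helper259.HtExt.logHeight_ext (K := L) (L := E) _
  have e14 : ∀ (T : L) i, logHeight (fun j => aeval (fun l => (φ l).eval (algebraMap L E T))
      (F i j)) = finrank L E * logHeight (fun j => aeval (pc c ![(r : L) * T + 1, T]) (F i j)) := by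
    intro T i
    have h1 : (fun j => aeval (fun l => (φ l).eval (algebraMap L E T)) (F i j)) =
        fun j => algebraMap L E (aeval (pc c ![(r : L) * T + 1, T]) (F i j)) := by
      funext j
      rw [hφL, aeval_am]
    rw [h1]
    exact Pool.Agent.Helper259.HtExt.logHeight_ext (K := L) (L := E) _
  refine ⟨ν, b, hcro.inj, ⟨|C|, fun T hT => ⟨hcro.ne (algebraMap L E T) (hFx T hT), ?_, ?_⟩⟩, ?_⟩
  · have h1 := (hC (algebraMap L E T) (fun i => by
      rw [hφT]
      exact hc.onX _ i) (hFx T hT)).1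
    rw [e12, e13] at h1
    have h2 : (finrank L E : ℝ) * (d * logHeight ![1, T]) ≤
        finrank L E * (logHeight (pc c ![(r : L) * T + 1, T]) + |C|) := by
      have := le_abs_self C
      have := abs_nonneg C
      nlinarith
    exact le_of_mul_le_mul_left h2 hf
  · intro A hA
    have h1 := (hC (algebraMap L E T) (fun i => by
      rw [hφT]
      exact hc.onX _ i) (hFx T hT)).2 (fun l c => algebraMap L E (A l c)) (by
      rw [hφL]
      exact IsTB_map G _ A hA)
    have e1 : logHeight (mv (fun l c => algebraMap L E (A l c))) =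
        finrank L E * logHeight (mv A) := by
      have : mv (fun l c => algebraMap L E (A l c)) = fun J => algebraMap L E (mv A J) := by
        funext J
        exact mv_map A J
      rw [this]
      exact Pool.Agent.Helper259.HtExt.logHeight_ext (K := L) (L := E) (mv A)
    rw [e12, e13, e1] at h1
    simp only [e14] at h1
    have h3 : ∑ i, ((δ i : ℝ) * (finrank L E * logHeight (pc c ![(r : L) * T + 1, T])) -
        finrank L E * logHeight (fun j => aeval (pc c ![(r : L) * T + 1, T]) (F i j))) =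
        finrank L E * ∑ i, ((δ i : ℝ) * logHeight (pc c ![(r : L) * T + 1, T]) -
          logHeight (fun j => aeval (pc c ![(r : L) * T + 1, T]) (F i j))) := by
      rw [Finset.mul_sum]
      exact Finset.sum_congr rfl fun i _ => by ring
    rw [h3] at h1
    have h4 := le_abs_self C
    have h5 := abs_nonneg C
    set Sg := ∑ i, ((δ i : ℝ) * logHeight (pc c ![(r : L) * T + 1, T]) -
          logHeight (fun j => aeval (pc c ![(r : L) * T + 1, T]) (F i j))) with hSg
    have h2 : (finrank L E : ℝ) * (logHeight (mv A) - (n' + 2) *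
        logHeight (pc c ![(r : L) * T + 1, T]) + Sg) ≤
        finrank L E * (((ν : ℝ) - 2) * logHeight ![1, T] + |C|) := by
      nlinarith
    exact le_of_mul_le_mul_left h2 hf
  · refine ⟨fun S => ?_, fun a => ?_⟩
    · set S' : Finset (HeightOneSpectrum (𝓞 E)) := S.biUnion fun v => (over_fin E v).toFinset
        with hS'
      refine ⟨S', ν * Pool.Agent.Q290.NF.wt (fun v => v ∈ Bad), fun T hT P hPf hP => ?_⟩
      have h1 := sum_wt_le P hPf Bad hBad (fun v hv a a' ha ha' =>
        (hgood v hv (algebraMap L E T)).2 a a' (hP a v ha).2 (hP a' v ha').2)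
      have hDMf : {v | v ∉ S ∧ DM F δ (pc c ![(r : L) * T + 1, T]) v}.Finite :=
        (DM_fin (hx0 T) hT).subset fun v hv => hv.2
      have h2 := (cnt_ext (L := L) (E := E)
        (fun v => v ∉ S ∧ DM F δ (pc c ![(r : L) * T + 1, T]) v) hDMf
        (fun v => v ∉ Bad ∧ ∃ a, P a v) (by
          rintro Q ⟨hQ, a, hQP⟩
          obtain ⟨v, hv⟩ := exists_under (L := L) Q
          refine ⟨v, ⟨fun hvS => (hP a Q hQP).1 ?_, ?_⟩, hv⟩
          · rw [hS', Finset.mem_biUnion]
            exact ⟨v, hvS, mem_over.2 hv⟩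
          · refine DM_over (E := E) (hx0 T) hv ?_
            have h3 := (hgood Q hQ (algebraMap L E T)).1 a (hP a Q hQP).2
            rw [hφL] at h3
            exact h3)).2
      linarith
    · have h1 := hcro.hm1 a
      obtain ⟨i, -, hi⟩ : ∃ i ∈ Finset.univ, m a i ≠ 0 := by
        by_contra hcon
        push Not at hcon
        rw [Finset.sum_eq_zero hcon] at h1
        omega
      refine ⟨i, fun j => ?_⟩
      have h2 := hcro.val (b a) i j
      rw [hφT] at h2
      rw [h2, Finset.prod_eq_zero (Finset.mem_univ a), zero_mul]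
      rw [sub_self, zero_pow hi]

end Pool.Agent.H432.TC
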