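import Mathlib
import Pool.Agent.H432.TC.Fix2
import Pool.Graph.R_pool_sql_team_seeded_63374d34.Results.MP_4d5ce1_nt.UniversalSetDegreeFive

/-!
Almost all points of all rational curves.
-/

set_option autoImplicit false
set_option linter.unusedSectionVars false

namespace Pool.Agent.H432.TC

open NumberField IsDedekindDomain Height Module MvPolynomial Pool.Agent.N750 Pool.Agent.H432.RC
open Pool.Agent.W180.OP (Pl av nrm le_nrm nrm_pos wt_nonneg exists_nrm nrm_nonneg)
open Pool.Agent.Q290.NF (ell ell_pos ind ind_pos ind_neg ind_nonneg supp_sub)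
open Pool.Agent.Results.MP_4d5ce1_nt.ThinSetsSuffice (Meet meet_fin)

variable {M g q w n' d : ℕ}

section meet

variable {E : Type} [Field E] [NumberField E]

theorem mk_le_iff {v : HeightOneSpectrum (𝓞 E)} {x y : E} :
    FinitePlace.mk v x ≤ FinitePlace.mk v y ↔ v.valuation E x ≤ v.valuation E y := by
  rw [← not_lt, ← not_lt, mk_lt_iff]

theorem max_mk (v : HeightOneSpectrum (𝓞 E)) (x y : E) : ∃ s : E,
    v.valuation E s = max (v.valuation E x) (v.valuation E y) ∧
      FinitePlace.mk v s = max (FinitePlace.mk v x) (FinitePlace.mk v y) := by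
  rcases le_total (v.valuation E x) (v.valuation E y) with h | h
  · exact ⟨y, (max_eq_right h).symm, (max_eq_right (mk_le_iff.2 h)).symm⟩
  · exact ⟨x, (max_eq_left h).symm, (max_eq_left (mk_le_iff.2 h)).symm⟩

theorem meet_iff_mk (v : HeightOneSpectrum (𝓞 E)) (a x : Fin 2 → E) : Meet a x v ↔
    FinitePlace.mk v (x 0 * a 1 - x 1 * a 0) <
      max (FinitePlace.mk v (x 0)) (FinitePlace.mk v (x 1)) *
        max (FinitePlace.mk v (a 0)) (FinitePlace.mk v (a 1)) := by
  obtain ⟨s, hs1, hs2⟩ := max_mk v (x 0) (x 1)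
  obtain ⟨t, ht1, ht2⟩ := max_mk v (a 0) (a 1)
  unfold Meet
  rw [← hs1, ← ht1, ← hs2, ← ht2, ← map_mul, ← map_mul, mk_lt_iff]

theorem form_mk_le (v : HeightOneSpectrum (𝓞 E)) (a x : Fin 2 → E) :
    FinitePlace.mk v (x 0 * a 1 - x 1 * a 0) ≤
      max (FinitePlace.mk v (x 0)) (FinitePlace.mk v (x 1)) *
        max (FinitePlace.mk v (a 0)) (FinitePlace.mk v (a 1)) := by
  have h1 : FinitePlace.mk v (x 0 * a 1 - x 1 * a 0) ≤ max (FinitePlace.mk v (x 0 * a 1))
      (FinitePlace.mk v (x 1 * a 0)) := fin_sub_le v (x 0 * a 1) (x 1 * a 0)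
  refine h1.trans (max_le ?_ ?_)
  · rw [map_mul]
    exact mul_le_mul (le_max_left _ _) (le_max_right _ _) (apply_nonneg _ _)
      (le_max_of_le_left (apply_nonneg _ _))
  · rw [map_mul]
    exact mul_le_mul (le_max_right _ _) (le_max_left _ _) (apply_nonneg _ _)
      (le_max_of_le_left (apply_nonneg _ _))

/-- the counting function of the library -/
theorem lib_cnt_le (S : Set (HeightOneSpectrum (𝓞 E))) {ν : ℕ} (α : Fin ν → Fin 2 → E)
    (x : Fin 2 → E) (h : ∀ l, x 0 * α l 1 - x 1 * α l 0 ≠ 0) :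
    Pool.Agent.Results.MP_4d5ce1_nt.UniversalSetDegreeFive.counting S α x ≤
      (∑ l, Pool.Agent.Q290.NF.wt (fun v => v ∉ S ∧ Meet (α l) x v)) / finrank ℚ E := by
  classical
  have hd : (0 : ℝ) < finrank ℚ E := by exact_mod_cast finrank_pos
  set t : HeightOneSpectrum (𝓞 E) → Fin ν → ℝ := fun v l => min
      (Real.log
          (max (FinitePlace.mk v (x 0)) (FinitePlace.mk v (x 1)) *
            max (FinitePlace.mk v (α l 0)) (FinitePlace.mk v (α l 1)) /
            FinitePlace.mk v (x 0 * α l 1 - x 1 * α l 0)) /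
        (Module.finrank ℚ E : ℝ))
      (Real.log (Ideal.absNorm v.asIdeal : ℝ) / (Module.finrank ℚ E : ℝ)) with ht
  have ht0 : ∀ v l, ¬ Meet (α l) x v → t v l = 0 := by
    intro v l hm
    rw [meet_iff_mk] at hm
    have h1 := le_antisymm (form_mk_le v (α l) x) (not_lt.1 hm)
    have h2 : (0 : ℝ) < FinitePlace.mk v (x 0 * α l 1 - x 1 * α l 0) :=
      FinitePlace.pos_iff.2 (h l)
    rw [ht]
    simp only
    rw [← h1, div_self h2.ne', Real.log_one, zero_div]
    exact min_eq_left (div_nonneg (ell_pos v).le hd.le)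
  have ht1 : ∀ v l, t v l ≤ ell v / finrank ℚ E := fun v l => min_le_right _ _
  have hfin : ∀ l, {v | v ∉ S ∧ Meet (α l) x v}.Finite := fun l =>
    (meet_fin (h l)).subset fun v hv => hv.2
  have e1 : Pool.Agent.Results.MP_4d5ce1_nt.UniversalSetDegreeFive.counting S α x =
      ∑ᶠ v, if v ∉ S then ∑ l, t v l else 0 := by
    unfold Pool.Agent.Results.MP_4d5ce1_nt.UniversalSetDegreeFive.counting
    refine finsum_congr fun v => ?_
    rw [finsum_eq_if]
  have e2 : (∑ l, Pool.Agent.Q290.NF.wt (fun v => v ∉ S ∧ Meet (α l) x v)) / finrank ℚ E =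
      ∑ᶠ v, ∑ l, ind (fun v => v ∉ S ∧ Meet (α l) x v) v / finrank ℚ E := by
    rw [finsum_sum_comm, Finset.sum_div]
    · refine Finset.sum_congr rfl fun l _ => ?_
      unfold Pool.Agent.Q290.NF.wt
      rw [div_eq_mul_inv, finsum_mul]
      exact finsum_congr fun v => (div_eq_mul_inv _ _).symm
    · intro l _
      refine (hfin l).subset fun v hv => ?_
      refine supp_sub (fun v => v ∉ S ∧ Meet (α l) x v) ?_
      rw [Function.mem_support] at hv ⊢
      intro h2
      exact hv (by rw [h2, zero_div])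
  rw [e1, e2]
  refine finsum_le_finsum' ?_ ?_ fun v => ?_
  · refine (Set.finite_iUnion hfin).subset fun v hv => ?_
    rw [Function.mem_support] at hv
    by_contra hcon
    rw [Set.mem_iUnion, not_exists] at hcon
    apply hv
    by_cases hvS : v ∉ S
    · rw [if_pos hvS]
      exact Finset.sum_eq_zero fun l _ => ht0 v l fun hm => hcon l ⟨hvS, hm⟩
    · rw [if_neg hvS]
  · refine (Set.finite_iUnion hfin).subset fun v hv => ?_
    rw [Function.mem_support] at hv
    by_contra hcon
    rw [Set.mem_iUnion, not_exists] at hcon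
    apply hv
    refine Finset.sum_eq_zero fun l _ => ?_
    rw [ind_neg (P := fun v => v ∉ S ∧ Meet (α l) x v) (hcon l), zero_div]
  · by_cases hvS : v ∈ S
    · rw [if_neg (fun h => h hvS)]
      exact Finset.sum_nonneg fun l _ => div_nonneg (ind_nonneg _ _) hd.le
    · rw [if_pos hvS]
      refine Finset.sum_le_sum fun l _ => ?_
      by_cases hm : Meet (α l) x v
      · rw [ind_pos (P := fun v => v ∉ S ∧ Meet (α l) x v) ⟨hvS, hm⟩]
        exact ht1 v l
      · rw [ht0 v l hm]
        exact div_nonneg (ind_nonneg _ _) hd.le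

/-- change of the coordinate of the line -/
theorem meet_chart (r : ℕ) (v : HeightOneSpectrum (𝓞 E)) (A T b : E) (hA : A ≠ 0)
    (x : Fin 2 → E) (hx0 : x 0 = A * ((r : E) * T + 1)) (hx1 : x 1 = A * T)
    (h : Meet ![(r : E) * b + 1, b] x v) : Mt v T b := by
  rw [meet_iff_mk] at h
  simp only [Matrix.cons_val_zero, Matrix.cons_val_one] at h
  rw [hx0, hx1] at h
  set p : Pl E := Sum.inr v with hp
  have hr1 : av p (r : E) ≤ 1 := by
    have := av_int v (r : ℤ)
    push_cast at this
    exact this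
  have key : ∀ z : E, av p ((r : E) * z + 1) ≤ nrm (av p) ![1, z] := by
    intro z
    refine (fin_add_le v _ _).trans (max_le ?_ ?_)
    · rw [map_mul]
      have h1 := nrm2_ge p z
      have h2 := (av p).nonneg z
      have h3 : av p (r : E) * av p z ≤ 1 * av p z := mul_le_mul_of_nonneg_right hr1 h2
      linarith
    · rw [map_one]
      exact nrm2_pos p z
  have h1 : av p (A * ((r : E) * T + 1) * b - A * T * ((r : E) * b + 1)) <
      max (av p (A * ((r : E) * T + 1))) (av p (A * T)) *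
        max (av p ((r : E) * b + 1)) (av p b) := h
  have hA0 : 0 < av p A := (av p).pos_iff.2 hA
  have h2 : A * ((r : E) * T + 1) * b - A * T * ((r : E) * b + 1) = -(A * (T - b)) := by ring
  rw [h2, AbsoluteValue.map_neg, map_mul] at h1
  have h3 : max (av p (A * ((r : E) * T + 1))) (av p (A * T)) ≤ av p A * nrm (av p) ![1, T] := by
    refine max_le ?_ ?_
    · rw [map_mul]
      exact mul_le_mul_of_nonneg_left (key T) hA0.le
    · rw [map_mul]
      exact mul_le_mul_of_nonneg_left (nrm2_ge p T) hA0.le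
  have h4 : max (av p ((r : E) * b + 1)) (av p b) ≤ nrm (av p) ![1, b] :=
    max_le (key b) (nrm2_ge p b)
  have h5 : av p A * av p (T - b) < av p A * (nrm (av p) ![1, T] * nrm (av p) ![1, b]) := by
    refine h1.trans_le ?_
    rw [← mul_assoc]
    exact mul_le_mul h3 h4 (le_max_of_le_left ((av p).nonneg _)) (by
      have := nrm_nonneg (av p) ![1, T]
      positivity)
  exact lt_of_mul_lt_mul_left h5 hA0.le

end meet

/-- heights of the parameters -/
theorem ht_chart (L : Type) [Field L] [NumberField L] (r : ℕ) : ∃ C : ℝ, ∀ T : L,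
    logHeight ![(r : L) * T + 1, T] ≤ logHeight ![1, T] + C ∧
      logHeight ![1, T] ≤ logHeight ![(r : L) * T + 1, T] + C := by
  set A1 : Fin 2 × Fin 2 → L := fun x => ![![1, (r : L)], ![0, 1]] x.1 x.2 with hA1
  set A2 : Fin 2 × Fin 2 → L := fun x => ![![1, -(r : L)], ![0, 1]] x.1 x.2 with hA2
  refine ⟨|totalWeight L * Real.log (Nat.card (Fin 2)) + logHeight A1| +
    |totalWeight L * Real.log (Nat.card (Fin 2)) + logHeight A2|, fun T => ⟨?_, ?_⟩⟩
  · have h1 := logHeight_linearMap_apply_le A1 ![1, T]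
    have h2 : (fun j => ∑ i, A1 (j, i) * (![1, T] : Fin 2 → L) i) = ![(r : L) * T + 1, T] := by
      funext j
      rw [Fin.sum_univ_two]
      fin_cases j
      · show (1 : L) * 1 + (r : L) * T = (r : L) * T + 1
        ring
      · show (0 : L) * 1 + 1 * T = T
        ring
    rw [h2] at h1
    have h3 := le_abs_self (totalWeight L * Real.log (Nat.card (Fin 2)) + logHeight A1)
    have h4 := abs_nonneg (totalWeight L * Real.log (Nat.card (Fin 2)) + logHeight A2)
    linarith
  · have h1 := logHeight_linearMap_apply_le A2 ![(r : L) * T + 1, T]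
    have h2 : (fun j => ∑ i, A2 (j, i) * (![(r : L) * T + 1, T] : Fin 2 → L) i) = ![1, T] := by
      funext j
      rw [Fin.sum_univ_two]
      fin_cases j
      · show (1 : L) * ((r : L) * T + 1) + -(r : L) * T = 1
        ring
      · show (0 : L) * ((r : L) * T + 1) + 1 * T = T
        ring
    rw [h2] at h1
    have h3 := abs_nonneg (totalWeight L * Real.log (Nat.card (Fin 2)) + logHeight A1)
    have h4 := le_abs_self (totalWeight L * Real.log (Nat.card (Fin 2)) + logHeight A2)
    linarith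

/-- the sets of exceptional points -/
def Sparse (K : Type) [Field K] [NumberField K] (X : Set (Projectivization K (Fin 2 → K))) :
    Prop :=
  ∃ ν C : ℝ, 0 < ν ∧ ∀ B : ℝ, 1 ≤ B →
    {P | P ∈ X ∧ Projectivization.mulHeight P ≤ B}.Finite ∧
    ({P | P ∈ X ∧ Projectivization.mulHeight P ≤ B}.ncard : ℝ) ≤ C * B ^ (2 - ν)

open Classical in
/-- the universal set -/
noncomputable def univ (K : Type) [Field K] [NumberField K] (ε : ℝ) :
    Set (Projectivization K (Fin 2 → K)) :=
  if h : 0 < ε then (Pool.Agent.Results.MP_4d5ce1_nt.UniversalSetDegreeFive.result K ε h).choose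
  else ∅

theorem univ_sparse (K : Type) [Field K] [NumberField K] (ε : ℝ) (hε : 0 < ε) :
    Sparse K (univ K ε) := by
  unfold univ
  rw [dif_pos hε]
  exact (Pool.Agent.Results.MP_4d5ce1_nt.UniversalSetDegreeFive.result K ε hε).choose_spec.1

theorem univ_spec (K : Type) [Field K] [NumberField K] (ε : ℝ) (hε : 0 < ε)
    (E : Type) [Field E] [NumberField E] [Algebra K E] (S : Set (HeightOneSpectrum (𝓞 E)))
    (ν : ℕ) (α : Fin ν → Fin 2 → E) (hS : S.Finite) (hα : ∀ i, α i ≠ 0)
    (hij : ∀ i j, i ≠ j → α i 0 * α j 1 - α i 1 * α j 0 ≠ 0)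
    (hdeg : ∀ i, (minpoly K (α i 0 / α i 1)).natDegree ≤ 5) :
    ∃ C : ℝ, ∀ (x : Fin 2 → K) (hx : x ≠ 0),
      (∀ l, algebraMap K E (x 0) * α l 1 - algebraMap K E (x 1) * α l 0 ≠ 0) →
      Projectivization.mk K x hx ∉ univ K ε →
      (ν - ε) * (logHeight x / finrank ℚ K) ≤ (∑ l, Pool.Agent.Q290.NF.wt
        (fun v => v ∉ S ∧ Meet (α l) (fun i => algebraMap K E (x i)) v)) / finrank ℚ E + C := by
  obtain ⟨C, hC⟩ := ((Pool.Agent.Results.MP_4d5ce1_nt.UniversalSetDegreeFive.result K ε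
    hε).choose_spec.2 E S ν α hS hα hij).2 hdeg
  refine ⟨C, fun x hx hxα hxE => ?_⟩
  unfold univ at hxE
  rw [dif_pos hε] at hxE
  have h1 := hC x hx hxα hxE
  have h2 := lib_cnt_le S α (fun i => algebraMap K E (x i)) hxα
  have h3 : Pool.Agent.Results.MP_4d5ce1_nt.UniversalSetDegreeFive.height x =
      logHeight x / finrank ℚ K := rfl
  rw [h3] at h1
  linarith

/-- **the inequality for almost all points of a fixed curve** -/
theorem curve_uni {k : Type} [Field k] [NumberField k] {G : Fin g → MvPolynomial (Fin M) k}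
    {e : Fin g → ℕ} (hG : ∀ i, (G i).IsHomogeneous (e i))
    (hsm : Sm (n' + 1) G) {F : Fin q → Fin w → MvPolynomial (Fin M) k} {δ : Fin q → ℕ}
    (hF : ∀ i j, (F i j).IsHomogeneous (δ i)) (hd0 : 1 ≤ d)
    {Φ : MvPolynomial (Fin M) k} {mΦ : ℕ} (hΦh : Φ.IsHomogeneous mΦ)
    {L E : Type} [Field L] [NumberField L] [Algebra k L] [Field E] [NumberField E] [Algebra k E]
    [Algebra L E] [IsScalarTower k L E]
    (hgeo : GeoP E n' G F d (∑ i, δ i * d) Φ) (c : Fin M → Fin (d + 1) → L)
    (hc : CurveOK G F fun l m => algebraMap L E (c l m))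
    (hz : ∃ z, aeval (pc c z) Φ ≠ 0)
    (hdeg : ∀ (z : Fin 2 → E), z ≠ 0 → ∀ i,
      (∀ j, aeval (pc (fun l m => algebraMap L E (c l m)) z) (F i j) = 0) →
      (minpoly L (z 0 / z 1)).natDegree ≤ 5)
    (S : Finset (HeightOneSpectrum (𝓞 L))) (ε : ℝ) (hε : 0 < ε) :
    ∃ C : ℝ, ∀ (s : Fin 2 → L) (hs : s ≠ 0), (∀ i, ∃ j, aeval (pc c s) (F i j) ≠ 0) →
      Projectivization.mk L s hs ∉ univ L ε →
      ∀ A, IsTB (p := n' + 2) G (pc c s) A →
      logHeight (mv A) - (n' + 2) * logHeight (pc c s) +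
        ∑ i, ((δ i : ℝ) * logHeight (pc c s) - logHeight (fun j => aeval (pc c s) (F i j))) +
        (2 - ε) * logHeight s ≤
        Pool.Agent.Q290.NF.wt (fun v => v ∉ S ∧ DM F δ (pc c s) v) + C := by
  classical
  have hkey : ∀ r : ℕ, ∃ C : ℝ, (∀ i, ∃ j, aeval (pc c ![(r : L), 1]) (F i j) ≠ 0) →
      ∀ (s : Fin 2 → L) (hs : s ≠ 0), s 0 - (r : L) * s 1 ≠ 0 →
      (∀ i, ∃ j, aeval (pc c s) (F i j) ≠ 0) → Projectivization.mk L s hs ∉ univ L ε →
      ∀ A, IsTB (p := n' + 2) G (pc c s) A →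
      logHeight (mv A) - (n' + 2) * logHeight (pc c s) +
        ∑ i, ((δ i : ℝ) * logHeight (pc c s) - logHeight (fun j => aeval (pc c s) (F i j))) +
        (2 - ε) * logHeight s ≤
        Pool.Agent.Q290.NF.wt (fun v => v ∉ S ∧ DM F δ (pc c s) v) + C := by
    intro r
    by_cases hr : ∀ i, ∃ j, aeval (pc c ![(r : L), 1]) (F i j) ≠ 0
    swap
    · exact ⟨0, fun h => absurd h hr⟩
    obtain ⟨ν, b, hb, ⟨C1, hC1⟩, hcnt, hcross⟩ :=
      fixed_r2 (E := E) hsm hF hd0 hΦh hgeo c hc hz r hr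
    obtain ⟨S', C2, hC2⟩ := hcnt S
    set α : Fin ν → Fin 2 → E := fun a => ![(r : E) * b a + 1, b a] with hα
    have hα0 : ∀ a, α a ≠ 0 := fun a => vec_ne _ _
    have hform : ∀ a a', α a 0 * α a' 1 - α a 1 * α a' 0 = b a' - b a := by
      intro a a'
      show ((r : E) * b a + 1) * b a' - b a * ((r : E) * b a' + 1) = b a' - b a
      ring
    obtain ⟨C3, hC3⟩ := univ_spec L ε hε E (S' : Set (HeightOneSpectrum (𝓞 E))) ν α
      (Finset.finite_toSet _) hα0 (fun i j hij => by
        rw [hform]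
        exact sub_ne_zero.2 (hb.ne hij.symm)) (fun a => by
        obtain ⟨i, hi⟩ := hcross a
        exact hdeg (α a) (hα0 a) i hi)
    obtain ⟨C4, hC4⟩ := ht_chart L r
    have hfE : (0 : ℝ) < finrank ℚ E := by exact_mod_cast finrank_pos
    have hfQL : (0 : ℝ) < finrank ℚ L := by exact_mod_cast finrank_pos
    have hfL : (0 : ℝ) < finrank L E := by exact_mod_cast finrank_pos
    have hfm : (finrank ℚ E : ℝ) = finrank ℚ L * finrank L E := by
      exact_mod_cast (finrank_mul_finrank ℚ L E).symm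
    refine ⟨C1 + |(ν : ℝ) - 2| * |C4| + C2 / finrank L E + C3 * finrank ℚ L,
      fun _ s hs hsr hsF hsE A hA => ?_⟩
    set a : L := s 0 - (r : L) * s 1 with ha
    set T : L := s 1 / a with hT
    have hs0 : s 0 = a * ((r : L) * T + 1) := by
      rw [hT]
      field_simp
      rw [ha]
      ring
    have hs1 : s 1 = a * T := by
      rw [hT]
      field_simp
    have hsy : pc c s = fun l => a ^ d * pc c ![(r : L) * T + 1, T] l := by
      rw [← pc_smul]
      congr 1
      funext x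
      fin_cases x
      · exact hs0
      · exact hs1
    have had : a ^ d ≠ 0 := pow_ne_zero _ hsr
    have hyF : ∀ i, ∃ j, aeval (pc c ![(r : L) * T + 1, T]) (F i j) ≠ 0 := by
      intro i
      obtain ⟨j, hj⟩ := hsF i
      refine ⟨j, fun h => hj ?_⟩
      rw [hsy, RC.aeval_hom (hF i j), h, mul_zero]
    have hAy : IsTB G (pc c ![(r : L) * T + 1, T]) A := by
      refine ⟨hA.1, fun cc => ?_⟩
      have e1 := hA.2 cc
      rw [hsy, TS_smul hG _ had] at e1
      exact e1
    have e1 : logHeight (pc c s) = logHeight (pc c ![(r : L) * T + 1, T]) := by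
      rw [hsy]
      exact logHeight_smul_eq_logHeight (pc c ![(r : L) * T + 1, T]) had
    have e2 : ∀ i, logHeight (fun j => aeval (pc c s) (F i j)) =
        logHeight (fun j => aeval (pc c ![(r : L) * T + 1, T]) (F i j)) := by
      intro i
      have h2 : (fun j => aeval (pc c s) (F i j)) =
          (a ^ d) ^ δ i • fun j => aeval (pc c ![(r : L) * T + 1, T]) (F i j) := by
        funext j
        rw [hsy, RC.aeval_hom (hF i j)]
        rfl
      rw [h2]
      exact logHeight_smul_eq_logHeight _ (pow_ne_zero _ had)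
    have e3 : (fun v => v ∉ S ∧ DM F δ (pc c s) v) =
        fun v => v ∉ S ∧ DM F δ (pc c ![(r : L) * T + 1, T]) v := by
      funext v
      rw [hsy, DM_smul hF _ had]
    have e4 : logHeight s = logHeight ![(r : L) * T + 1, T] := by
      have h2 : s = a • ![(r : L) * T + 1, T] := by
        funext x
        fin_cases x
        · exact hs0
        · exact hs1
      conv_lhs => rw [h2]
      exact logHeight_smul_eq_logHeight _ hsr
    rw [e1, e3, e4]
    simp only [e2]
    obtain ⟨hTb, -, h2⟩ := hC1 T hyF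
    have h3 := h2 A hAy
    have hxα : ∀ l, algebraMap L E (s 0) * α l 1 - algebraMap L E (s 1) * α l 0 ≠ 0 := by
      intro l
      rw [hs0, hs1, map_mul, map_mul, map_add, map_mul, map_one, map_natCast]
      have h4 : algebraMap L E a * ((r : E) * algebraMap L E T + 1) * α l 1 -
          algebraMap L E a * algebraMap L E T * α l 0 = algebraMap L E a *
            -(algebraMap L E T - b l) := by
        show algebraMap L E a * ((r : E) * algebraMap L E T + 1) * b l -
          algebraMap L E a * algebraMap L E T * ((r : E) * b l + 1) = _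
        ring
      rw [h4]
      exact mul_ne_zero ((map_ne_zero _).2 hsr) (neg_ne_zero.2 (sub_ne_zero.2 (hTb l)))
    have h5 := hC3 s hs hxα hsE
    have h6 := hC2 T hyF (fun a v => v ∉ (S' : Set (HeightOneSpectrum (𝓞 E))) ∧
      Meet (α a) (fun i => algebraMap L E (s i)) v)
      (fun a => (meet_fin (a := α a) (x := fun i => algebraMap L E (s i)) (hxα a)).subset
        fun v hv => hv.2)
      (fun a' v hv => ⟨fun h => hv.1 (Finset.mem_coe.2 h), meet_chart r v (algebraMap L E a)
        (algebraMap L E T) (b a') ((map_ne_zero _).2 hsr) (fun i => algebraMap L E (s i)) (by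
          show algebraMap L E (s 0) = _
          rw [hs0, map_mul, map_add, map_mul, map_one, map_natCast]) (by
          show algebraMap L E (s 1) = _
          rw [hs1, map_mul]) hv.2⟩)
    rw [e4] at h5
    obtain ⟨h7, h8⟩ := hC4 T
    set H1 := logHeight (![1, T] : Fin 2 → L) with hH1
    set Hs := logHeight (![(r : L) * T + 1, T] : Fin 2 → L) with hHs
    set W := Pool.Agent.Q290.NF.wt (fun v => v ∉ S ∧ DM F δ (pc c ![(r : L) * T + 1, T]) v)
    set WE := ∑ l, Pool.Agent.Q290.NF.wt (fun v => v ∉ (S' : Set (HeightOneSpectrum (𝓞 E))) ∧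
      Meet (α l) (fun i => algebraMap L E (s i)) v) with hWE
    have h9 : ((ν : ℝ) - 2) * H1 ≤ ((ν : ℝ) - 2) * Hs + |(ν : ℝ) - 2| * |C4| := by
      have f1 : |H1 - Hs| ≤ |C4| := by
        have := le_abs_self C4
        rw [abs_le]
        constructor
        · linarith
        · linarith
      have f2 : ((ν : ℝ) - 2) * (H1 - Hs) ≤ |(ν : ℝ) - 2| * |C4| := by
        refine (le_abs_self _).trans ?_
        rw [abs_mul]
        exact mul_le_mul_of_nonneg_left f1 (abs_nonneg _)
      linarith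
    have h10 : ((ν : ℝ) - ε) * Hs ≤ W + C2 / finrank L E + C3 * finrank ℚ L := by
      have f1 := mul_le_mul_of_nonneg_right h5 hfQL.le
      have f2 : ((ν : ℝ) - ε) * (Hs / finrank ℚ L) * finrank ℚ L = ((ν : ℝ) - ε) * Hs := by
        field_simp
      have f3 : (WE / finrank ℚ E + C3) * finrank ℚ L = WE / finrank L E + C3 * finrank ℚ L := by
        rw [hfm]
        field_simp
      rw [f2, f3] at f1
      have f4 : WE / finrank L E ≤ W + C2 / finrank L E := by
        rw [div_le_iff₀ hfL]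
        have f5 : (W + C2 / finrank L E) * finrank L E = finrank L E * W + C2 := by
          field_simp
        rw [f5]
        exact h6
      linarith
    linarith
  choose C hC using hkey
  refine ⟨∑ r ∈ Finset.range (∑ i, δ i * d + 2), |C r|, fun s hs hsF hsE A hA => ?_⟩
  obtain ⟨r, hr1, hr2⟩ := exists_r c s hs F δ hF hsF
  have h1 := hC r.1 hr2 s hs hr1 hsF hsE A hA
  have h4 : C r.1 ≤ ∑ r ∈ Finset.range (∑ i, δ i * d + 2), |C r| :=
    (le_abs_self _).trans (Finset.single_le_sum (f := fun r => |C r|)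
      (fun _ _ => abs_nonneg _) (Finset.mem_range.2 r.2))
  linarith

/-- **almost all points of all rational curves of bounded degree** -/
theorem main_uni {k : Type} [Field k] [NumberField k]
    (G : Fin g → MvPolynomial (Fin M) k) (e : Fin g → ℕ)
    (hG : ∀ i, (G i).IsHomogeneous (e i)) (hI : (Ideal.span (Set.range G)).IsPrime)
    (hsm : Sm (n' + 1) G) (F : Fin q → Fin w → MvPolynomial (Fin M) k) (δ : Fin q → ℕ)
    (hF : ∀ i j, (F i j).IsHomogeneous (δ i)) (hnc : NCD G F) (D : ℕ) :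
    ∃ (mΦ : ℕ) (Φ : MvPolynomial (Fin M) k), Φ.IsHomogeneous mΦ ∧
      Φ ∉ Ideal.span (Set.range G) ∧
    ∀ (L : Type) [Field L] [NumberField L] [Algebra k L] (ε : ℝ), 0 < ε →
    ∀ d ≤ D, 1 ≤ d → ∀ (c : Fin M → Fin (d + 1) → L), RC0 G c →
      (∃ z, aeval (pc c z) Φ ≠ 0) →
      (∃ z : Fin 2 → L, z ≠ 0 ∧ ∀ i, ∃ j, aeval (pc c z) (F i j) ≠ 0) →
      (∀ (E : Type) [Field E] [Algebra k E] [Algebra L E] [IsScalarTower k L E] (z : Fin 2 → E),
        z ≠ 0 → ∀ i, (∀ j, aeval (pc (fun l m => algebraMap L E (c l m)) z) (F i j) = 0) →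
        (minpoly L (z 0 / z 1)).natDegree ≤ 5) →
    ∀ (S : Finset (HeightOneSpectrum (𝓞 L))),
    ∃ C : ℝ, ∀ (s : Fin 2 → L) (hs : s ≠ 0), (∀ i, ∃ j, aeval (pc c s) (F i j) ≠ 0) →
      Projectivization.mk L s hs ∉ univ L ε →
      ∀ A, IsTB (p := n' + 2) G (pc c s) A →
      logHeight (mv A) - (n' + 2) * logHeight (pc c s) +
        ∑ i, ((δ i : ℝ) * logHeight (pc c s) - logHeight (fun j => aeval (pc c s) (F i j))) +
        (2 - ε) * logHeight s ≤
        Pool.Agent.Q290.NF.wt (fun v => v ∉ S ∧ DM F δ (pc c s) v) + C := by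
  classical
  have hgeo : ∀ d : ℕ, ∃ (mΦ : ℕ) (Φ : MvPolynomial (Fin M) k), Φ.IsHomogeneous mΦ ∧
      Φ ∉ Ideal.span (Set.range G) ∧
      (1 ≤ d → GeoP (AlgebraicClosure k) n' G F d (∑ i, δ i * d) Φ) := by
    intro d
    by_cases hd : 1 ≤ d
    · obtain ⟨m, Φ, h1, h2, h3⟩ := exists_geoP (K := AlgebraicClosure k) G e hG hI hsm F δ hF hnc
        d (∑ i, δ i * d) hd
      exact ⟨m, Φ, h1, h2, fun _ => h3⟩
    · refine ⟨0, 1, MvPolynomial.isHomogeneous_one _ _, ?_, fun h => absurd h hd⟩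
      intro h
      exact hI.ne_top ((Ideal.eq_top_iff_one _).2 h)
  choose m Φ h1 h2 h3 using hgeo
  refine ⟨∑ d ∈ Finset.range (D + 1), m d, ∏ d ∈ Finset.range (D + 1), Φ d,
    MvPolynomial.IsHomogeneous.prod _ _ _ fun d _ => h1 d, ?_, ?_⟩
  · intro h
    rw [hI.prod_mem_iff] at h
    obtain ⟨d, -, hd⟩ := h
    exact h2 d hd
  intro L _ _ _ ε hε d hd hd0 c hc hz hD hdeg S
  obtain ⟨E, hE1, hE2, hE3, hE4, hE5, hok⟩ := exists_E hF hc hD
  let _ : Algebra.IsAlgebraic k E := Algebra.IsAlgebraic.of_finite k E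
  have hemb : Nonempty (E →ₐ[k] AlgebraicClosure k) := ⟨IsAlgClosed.lift⟩
  refine curve_uni hG hsm hF hd0 (h1 d) ((h3 d hd0).descend hemb.some) c hok ?_
    (fun z hz i hi => hdeg E z hz i hi) S ε hε
  obtain ⟨z, hz⟩ := hz
  refine ⟨z, fun h => hz ?_⟩
  rw [map_prod]
  exact Finset.prod_eq_zero (Finset.mem_range.2 (Nat.lt_succ_of_le hd)) h

end Pool.Agent.H432.TC
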